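import Pool.Agent.Lib.KV.B.SpecS

/-!
# KV (MP_64edc4_ag), part B, block S: boundary reality of the complete fields
-/

set_option autoImplicit false

open Set Filter Topology Metric

namespace KVB

open KP

namespace BRAux

variable {m k : ℕ}

theorem dc_im (l : Fin k → ℝ) (w : Cn k) : (dc l w).im = dt l (imv w) := by
  simp only [dc, dt, imv, Complex.im_sum]
  refine Finset.sum_congr rfl fun j _ => ?_
  simp [Complex.mul_im]

theorem dc_re (l : Fin k → ℝ) (w : Cn k) : (dc l w).re = dt l (rev w) := by
  simp only [dc, dt, rev, Complex.re_sum]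
  refine Finset.sum_congr rfl fun j _ => ?_
  simp [Complex.mul_re]

theorem continuous_dc (l : Fin k → ℝ) : Continuous (dc l : Cn k → ℂ) := by
  unfold dc
  fun_prop

theorem continuous_hf_left (F : Fin k → Matrix (Fin m) (Fin m) ℂ) (z : Cn m) :
    Continuous (fun a : Cn m => hf F a z) := by
  unfold hf
  fun_prop

theorem imv_pt {F : Fin k → Matrix (Fin m) (Fin m) ℂ} (x y0 : Fin k → ℝ) (z : Cn m) :
    imv (cx x + Complex.I • (cx y0 + hf F z z)) - rev (hf F z z) = y0 := by
  ext j
  simp [imv, cx, rev, Complex.mul_im]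

end BRAux

open BRAux

theorem tBR (h1 : S_LamP) (h2 : S_HalfP) : S_BR := by
  intro m k F Om hS hH X hXc hX
  have hL := h1 m k F Om hS
  obtain ⟨-, -, -, h4, -, -, h7⟩ := hL
  have key : ∀ l ∈ Lam Om, ∀ y0 ∈ closure Om, dt l y0 = 0 → ∀ (x : Fin k → ℝ) (z : Cn m),
    (dc l ((X (z, cx x + Complex.I • (cx y0 + hf F z z))).2 -
      (2 * Complex.I) • hf F (X (z, cx x + Complex.I • (cx y0 + hf F z z))).1 z)).im = 0 := by
    intro l hl y0 hy0 hly x z
    obtain ⟨η, hη⟩ := hS.nem
    have him := imv_pt (F := F) x y0 z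
    set w0 : Cn k := cx x + Complex.I • (cx y0 + hf F z z) with hw0
    obtain ⟨a, b, c, habc⟩ := h2 m k F Om hS hH X hX l hl z w0 (by rw [him]; exact hy0)
      (by rw [him]; exact hly) η hη
    -- the continuous function
    set g : ℂ → ℂ := fun ζ => dc l ((X (z, w0 + ζ • cx η)).2 -
      (2 * Complex.I) • hf F (X (z, w0 + ζ • cx η)).1 z) with hg
    have hgc : Continuous g := by
      refine (continuous_dc l).comp ?_
      have h3 : Continuous fun ζ : ℂ => X (z, w0 + ζ • cx η) := by
        refine hXc.comp ?_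
        fun_prop
      refine (continuous_snd.comp h3).sub ?_
      have h4' : Continuous fun ζ : ℂ => hf F (X (z, w0 + ζ • cx η)).1 z :=
        (continuous_hf_left F z).comp (continuous_fst.comp h3)
      exact h4'.const_smul (2 * Complex.I)
    have hlim1 : Tendsto (fun ε : ℝ => g (ε * Complex.I)) (𝓝[>] 0) (𝓝 (g 0)) := by
      have : Continuous fun ε : ℝ => g (ε * Complex.I) := by fun_prop
      have h5 := this.tendsto 0
      simp only [Complex.ofReal_zero, zero_mul] at h5
      exact h5.mono_left nhdsWithin_le_nhds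
    have hlim2 : Tendsto (fun ε : ℝ => g (ε * Complex.I)) (𝓝[>] 0) (𝓝 (a : ℂ)) := by
      have hc : Continuous fun ε : ℝ => (a : ℂ) + b * (ε * Complex.I) + c * (ε * Complex.I) ^ 2 := by
        fun_prop
      have h5 := hc.tendsto 0
      simp only [Complex.ofReal_zero, zero_mul, mul_zero, add_zero, ne_eq, OfNat.ofNat_ne_zero,
        not_false_eq_true, zero_pow] at h5
      refine (h5.mono_left nhdsWithin_le_nhds).congr' ?_
      filter_upwards [self_mem_nhdsWithin] with ε hε
      rw [hg]
      exact (habc (ε * Complex.I) (by simpa using hε)).symm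
    have h6 : g 0 = a := tendsto_nhds_unique hlim1 hlim2
    have h7' : g 0 = dc l ((X (z, w0)).2 - (2 * Complex.I) • hf F (X (z, w0)).1 z) := by
      simp [hg]
    rw [← h7', h6]
    simp
  refine ⟨key, ?_⟩
  intro x z j
  have hz : ∀ l ∈ Lam Om, dt l (imv ((X (z, cx x + Complex.I • hf F z z)).2 -
      (2 * Complex.I) • hf F (X (z, cx x + Complex.I • hf F z z)).1 z)) = 0 := by
    intro l hl
    rw [← dc_im]
    have h8 := key l hl 0 h7 (by simp [dt]) x z
    have h9 : (cx (0 : Fin k → ℝ) + hf F z z) = hf F z z := by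
      ext i; simp [cx]
    rw [h9] at h8
    exact h8
  have := h4 _ hz
  exact congrFun this j

end KVB
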