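import Pool.Agent.Lib.KV.B.SpecS

set_option autoImplicit false

open Set Filter Topology Metric

namespace KVB

open KP

private theorem cirL_exp (G : ℂ → ℂ) (hG : Differentiable ℂ G)
    (h : ∀ ζ : ℂ, ‖ζ‖ = 1 → (G ζ).im = 0) (c : ℂ) (hc : c.re = 0) (ζ : ℂ) (hζ : ‖ζ‖ ≤ 1) :
    ‖Complex.exp (c * G ζ)‖ ≤ 1 := by
  have hd : DiffContOnCl ℂ (fun ζ => Complex.exp (c * G ζ)) (ball (0 : ℂ) 1) :=
    ((hG.const_mul c).cexp).diffContOnCl
  refine Complex.norm_le_of_forall_mem_frontier_norm_le isBounded_ball hd ?_ ?_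
  · intro z hz
    rw [frontier_ball (0 : ℂ) one_ne_zero, mem_sphere_zero_iff_norm] at hz
    have := h z hz
    simp only [Complex.norm_exp, Complex.mul_re, hc, this]
    simp
  · rw [closure_ball (0 : ℂ) one_ne_zero, mem_closedBall_zero_iff]
    exact hζ

private theorem cirL_im (G : ℂ → ℂ) (hG : Differentiable ℂ G)
    (h : ∀ ζ : ℂ, ‖ζ‖ = 1 → (G ζ).im = 0) (ζ : ℂ) (hζ : ‖ζ‖ ≤ 1) : (G ζ).im = 0 := by
  have h1 := cirL_exp G hG h Complex.I (by simp) ζ hζ
  have h2 := cirL_exp G hG h (-Complex.I) (by simp) ζ hζ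
  rw [Complex.norm_exp, Real.exp_le_one_iff] at h1 h2
  simp at h1 h2
  linarith

private theorem cirL_const (G : ℂ → ℂ) (hG : Differentiable ℂ G)
    (h : ∀ ζ : ℂ, ‖ζ‖ = 1 → (G ζ).im = 0) : ∃ s : ℝ, ∀ ζ, G ζ = s := by
  have hA : AnalyticOnNhd ℂ G univ := hG.differentiableOn.analyticOnNhd isOpen_univ
  have hB : AnalyticOnNhd ℂ G (ball (0 : ℂ) 1) := fun z _ => hA z (mem_univ z)
  rcases hB.is_constant_or_isOpen (convex_ball (0 : ℂ) 1).isPreconnected with ⟨w, hw⟩ | ho
  · refine ⟨w.re, ?_⟩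
    have hw0 : G 0 = w := hw 0 (by simp)
    have hwr : w = (w.re : ℂ) := by
      have := cirL_im G hG h 0 (by simp)
      rw [hw0] at this
      exact Complex.ext (by simp) (by simp [this])
    have hev : G =ᶠ[𝓝 0] fun _ => w := by
      filter_upwards [ball_mem_nhds (0 : ℂ) one_pos] with z hz using hw z hz
    intro ζ
    have := (hA.eq_of_eventuallyEq (analyticOnNhd_const) hev)
    rw [this, ← hwr]
  · exfalso
    have hopen := ho (ball (0 : ℂ) 1) Subset.rfl isOpen_ball
    have hne : G 0 ∈ G '' ball (0 : ℂ) 1 := ⟨0, by simp, rfl⟩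
    obtain ⟨r, hr, hsub⟩ := Metric.isOpen_iff.mp hopen _ hne
    have hm : G 0 + (r / 2 : ℝ) * Complex.I ∈ ball (G 0) r := by
      rw [mem_ball_iff_norm]
      simp only [add_sub_cancel_left, norm_mul, Complex.norm_real, Complex.norm_I, mul_one,
        Real.norm_eq_abs]
      rw [abs_of_pos (by linarith)]
      linarith
    obtain ⟨z, hz, hz2⟩ := hsub hm
    have h1 := cirL_im G hG h z (by rw [mem_ball_zero_iff] at hz; exact hz.le)
    have h2 := cirL_im G hG h 0 (by simp)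
    rw [hz2] at h1
    simp [h2] at h1
    linarith

theorem tCirL : S_CirL := by
  intro R hR hre
  have hds : Differentiable ℂ (dslope R 0) := by
    rw [← differentiableOn_univ]
    exact (Complex.differentiableOn_dslope (s := univ) (c := (0 : ℂ)) univ_mem).2
      hR.differentiableOn
  have hG : Differentiable ℂ (fun ζ => dslope R 0 ζ - (starRingEnd ℂ) (R 0) * ζ) :=
    hds.sub (differentiable_id.const_mul _)
  have hid : ∀ ζ, ζ * dslope R 0 ζ = R ζ - R 0 := by
    intro ζ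
    have := sub_smul_dslope R 0 ζ
    simpa using this
  obtain ⟨s, hs⟩ := cirL_const _ hG (by
    intro ζ hζ
    have h1 := hre ζ hζ
    have hcc : (starRingEnd ℂ) ζ * ζ = 1 := by
      rw [mul_comm, Complex.mul_conj, Complex.normSq_eq_norm_sq, hζ]; simp
    have h2 : dslope R 0 ζ = R ζ * (starRingEnd ℂ) ζ - R 0 * (starRingEnd ℂ) ζ := by
      have := congrArg (fun x => (starRingEnd ℂ) ζ * x) (hid ζ)
      simp only [← mul_assoc, hcc, one_mul] at this
      rw [this]; ring
    rw [h2]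
    simp only [Complex.sub_im, h1]
    simp [Complex.mul_im]
    ring)
  refine ⟨R 0, s, fun ζ => ?_⟩
  have h3 := hs ζ
  have h4 := hid ζ
  have h5 : dslope R 0 ζ = s + (starRingEnd ℂ) (R 0) * ζ := by
    rw [← h3]; ring
  rw [h5] at h4
  linear_combination -h4

end KVB
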