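import Pool.Agent.Lib.KV.B.SpecS

/-!
# KV (MP_64edc4_ag), part B, block S: the third differences of complete fields vanish
-/

set_option autoImplicit false

open Set Filter Topology Metric

namespace KVB

open KP

namespace DelAux

variable {m k : ℕ}

theorem dc_im (l : Fin k → ℝ) (w : Cn k) : (dc l w).im = dt l (imv w) := by
  simp only [dc, dt, imv, Complex.im_sum]
  refine Finset.sum_congr rfl fun j _ => ?_
  simp [Complex.mul_im]

theorem dc_re (l : Fin k → ℝ) (w : Cn k) : (dc l w).re = dt l (rev w) := by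
  simp only [dc, dt, rev, Complex.re_sum]
  refine Finset.sum_congr rfl fun j _ => ?_
  simp [Complex.mul_re]

theorem dc_add (l : Fin k → ℝ) (v w : Cn k) : dc l (v + w) = dc l v + dc l w := by
  simp only [dc, Pi.add_apply, mul_add, Finset.sum_add_distrib]

theorem dc_smul (l : Fin k → ℝ) (c : ℂ) (w : Cn k) : dc l (c • w) = c * dc l w := by
  simp only [dc, Pi.smul_apply, smul_eq_mul, Finset.mul_sum]
  refine Finset.sum_congr rfl fun j _ => by ring

theorem dc_sub (l : Fin k → ℝ) (v w : Cn k) : dc l (v - w) = dc l v - dc l w := by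
  simp only [dc, Pi.sub_apply, mul_sub, Finset.sum_sub_distrib]

theorem hf_sub_left {F : Fin k → Matrix (Fin m) (Fin m) ℂ} (z z' z'' : Cn m) :
    hf F (z - z') z'' = hf F z z'' - hf F z' z'' := by
  have h := hf_add_left (F := F) (z - z') z' z''
  rw [sub_add_cancel] at h
  rw [h, add_sub_cancel_right]

/-- The third difference with complex multiples. -/
theorem D3_eq {G : Type} [AddCommGroup G] [Module ℂ G] (f : Cn k → G) (σ : ℂ) (e w : Cn k) :
    D3 f (σ • e) w = f (w + (3 * σ) • e) - (3 : ℂ) • f (w + (2 * σ) • e) +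
      (3 : ℂ) • f (w + σ • e) - f w := by
  have h3 : (3 : ℕ) • (σ • e) = (3 * σ) • e := by
    rw [← Nat.cast_smul_eq_nsmul ℂ, smul_smul]; norm_num
  have h2 : (2 : ℕ) • (σ • e) = (2 * σ) • e := by
    rw [← Nat.cast_smul_eq_nsmul ℂ, smul_smul]; norm_num
  have h4 : ∀ g : G, (3 : ℕ) • g = (3 : ℂ) • g := fun g => by
    rw [← Nat.cast_smul_eq_nsmul ℂ]; norm_num
  unfold D3
  rw [h3, h2, h4, h4]

theorem D3_eq' (X : Vs m k → Vs m k) (σ : ℂ) (e w : Cn k) (z : Cn m) :
    D3 X ((0, σ • e) : Vs m k) (z, w) = X (z, w + (3 * σ) • e) - (3 : ℂ) • X (z, w + (2 * σ) • e) +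
      (3 : ℂ) • X (z, w + σ • e) - X (z, w) := by
  rw [← D3_eq (fun w => X (z, w)) σ e w]
  simp [D3]

section

variable {F : Fin k → Matrix (Fin m) (Fin m) ℂ} {Om : Set (Fin k → ℝ)}

theorem smul_mem_closure (hS : Sie F Om) (h0 : (0 : Fin k → ℝ) ∈ closure Om) {η : Fin k → ℝ}
    (hη : η ∈ Om) {t : ℝ} (ht : 0 ≤ t) : t • η ∈ closure Om := by
  rcases ht.lt_or_eq with h | h
  · exact subset_closure (hS.cone η hη t h)
  · rw [← h, zero_smul]; exact h0

theorem mem_Tb_shift (hS : Sie F Om) (h0 : (0 : Fin k → ℝ) ∈ closure Om)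
    (h3 : ∀ y ∈ closure Om, ∀ y' ∈ Om, y + y' ∈ Om) {η : Fin k → ℝ}
    (hη : η ∈ Om) {s : ℂ} (hs : 0 ≤ s.im) {w : Cn k} (hw : w ∈ Tb Om) :
    w + s • cx η ∈ Tb Om := by
  have h := h3 _ (smul_mem_closure hS h0 hη hs) _ hw
  have he : imv (w + s • cx η) = s.im • η + imv w := by
    ext j
    simp [imv, cx, Complex.mul_im, add_comm]
  show imv (w + s • cx η) ∈ Om
  rw [he]; exact h

theorem mem_SD_iff (z : Cn m) (w : Cn k) :
    ((z, w + Complex.I • hf F z z) : Vs m k) ∈ SD F Om ↔ w ∈ Tb Om := by
  have he : imv (w + Complex.I • hf F z z) - rev (hf F z z) = imv w := by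
    ext j
    simp [imv, rev, Complex.mul_im]
  show imv (w + Complex.I • hf F z z) - rev (hf F z z) ∈ Om ↔ imv w ∈ Om
  rw [he]

theorem isOpen_Tb (hS : Sie F Om) : IsOpen (Tb Om) := by
  have hc : Continuous (imv : Cn k → Fin k → ℝ) := by
    unfold imv
    fun_prop
  exact hS.opn.preimage hc

theorem isPreconnected_Tb (hS : Sie F Om) : IsPreconnected (Tb Om) := by
  refine Convex.isPreconnected ?_
  intro v hv w hw a b ha hb hab
  have h := hS.cvx hv hw ha hb hab
  have he : imv (a • v + b • w) = a • imv v + b • imv w := by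
    ext j
    simp [imv]
  show imv (a • v + b • w) ∈ Om
  rw [he]; exact h

theorem differentiable_hf_left (z : Cn m) : Differentiable ℂ (fun a : Cn m => hf F a z) := by
  unfold hf
  fun_prop

end

end DelAux

open DelAux

theorem tDel (h1 : S_LamP) (h2 : S_HalfP) (h3 : S_TRi) (h4 : S_Pola) : S_Del := by
  intro m k F Om hS hH X hX η hη σ hσ
  obtain ⟨-, -, hL3, hL4, -, -, hL7⟩ := h1 m k F Om hS
  -- the main step: the relation for the third differences
  have main : ∀ (z : Cn m) (w : Cn k), w ∈ Tb Om →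
      (D3 X ((0, σ • cx η) : Vs m k) (z, w + Complex.I • hf F z z)).2 =
        (2 * Complex.I) • hf F (D3 X ((0, σ • cx η) : Vs m k) (z, w + Complex.I • hf F z z)).1 z := by
    intro z
    set R : Cn k → Cn k := fun w => (X (z, w + Complex.I • hf F z z)).2 -
      (2 * Complex.I) • hf F (X (z, w + Complex.I • hf F z z)).1 z with hR
    have hRd : DifferentiableOn ℂ R (Tb Om) := by
      have hXd : DifferentiableOn ℂ (fun w : Cn k => X (z, w + Complex.I • hf F z z)) (Tb Om) := by
        refine hX.1.comp (t := SD F Om) ?_ ?_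
        · fun_prop
        · intro w hw
          exact (mem_SD_iff z w).2 hw
      have hA : DifferentiableOn ℂ
          (fun w : Cn k => hf F (X (z, w + Complex.I • hf F z z)).1 z) (Tb Om) :=
        (differentiable_hf_left (F := F) z).comp_differentiableOn hXd.fst
      exact hXd.snd.sub (hA.const_smul (2 * Complex.I))
    have hsh : ∀ s : ℂ, 0 ≤ s.im → DifferentiableOn ℂ (fun w => R (w + s • cx η)) (Tb Om) := by
      intro s hs
      refine hRd.comp (t := Tb Om) ?_ ?_
      · fun_prop
      · intro w hw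
        exact mem_Tb_shift hS hL7 hL3 hη hs hw
    have hDd : DifferentiableOn ℂ (D3 R (σ • cx η)) (Tb Om) := by
      have he : D3 R (σ • cx η) = fun w => R (w + (3 * σ) • cx η) -
          (3 : ℂ) • R (w + (2 * σ) • cx η) + (3 : ℂ) • R (w + σ • cx η) - R w := by
        funext w
        exact D3_eq R σ (cx η) w
      rw [he]
      have a3 : 0 ≤ (3 * σ).im := by simpa using hσ
      have a2 : 0 ≤ (2 * σ).im := by simpa using hσ
      exact (((hsh _ a3).sub ((hsh _ a2).const_smul (3 : ℂ))).add
        ((hsh _ hσ).const_smul (3 : ℂ))).sub hRd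
    -- vanishing at the points `x + i η`
    have hvan : ∀ x : Fin k → ℝ, D3 R (σ • cx η) (cx x + Complex.I • cx η) = 0 := by
      intro x
      have hl : ∀ l ∈ Lam Om, dc l (D3 R (σ • cx η) (cx x + Complex.I • cx η)) = 0 := by
        intro l hl
        have him : imv (cx x + Complex.I • hf F z z) - rev (hf F z z) = 0 := by
          ext j
          simp [imv, cx, rev, Complex.mul_im]
        obtain ⟨a, b, c, habc⟩ := h2 m k F Om hS hH X hX l hl z (cx x + Complex.I • hf F z z)
          (by rw [him]; exact hL7) (by rw [him]; simp [dt]) η hη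
        have hG : ∀ ζ : ℂ, 0 < ζ.im → dc l (R (cx x + ζ • cx η)) = a + b * ζ + c * ζ ^ 2 := by
          intro ζ hζ
          rw [← habc ζ hζ, hR]
          simp only
          rw [add_right_comm]
        rw [D3_eq]
        have e3 : cx x + Complex.I • cx η + (3 * σ) • cx η =
            cx x + (Complex.I + 3 * σ) • cx η := by rw [add_assoc, ← add_smul]
        have e2 : cx x + Complex.I • cx η + (2 * σ) • cx η =
            cx x + (Complex.I + 2 * σ) • cx η := by rw [add_assoc, ← add_smul]
        have e1 : cx x + Complex.I • cx η + σ • cx η =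
            cx x + (Complex.I + σ) • cx η := by rw [add_assoc, ← add_smul]
        have p3 : 0 < (Complex.I + 3 * σ).im := by
          have : (Complex.I + 3 * σ).im = 1 + 3 * σ.im := by simp
          rw [this]; positivity
        have p2 : 0 < (Complex.I + 2 * σ).im := by
          have : (Complex.I + 2 * σ).im = 1 + 2 * σ.im := by simp
          rw [this]; positivity
        have p1 : 0 < (Complex.I + σ).im := by
          have : (Complex.I + σ).im = 1 + σ.im := by simp
          rw [this]; positivity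
        have p0 : 0 < (Complex.I).im := by simp
        rw [e3, e2, e1, dc_sub, dc_add, dc_sub, dc_smul, dc_smul, hG _ p3, hG _ p2, hG _ p1,
          hG _ p0]
        ring
      have hi : imv (D3 R (σ • cx η) (cx x + Complex.I • cx η)) = 0 := by
        refine hL4 _ fun l hl' => ?_
        rw [← dc_im, hl l hl', Complex.zero_im]
      have hr : rev (D3 R (σ • cx η) (cx x + Complex.I • cx η)) = 0 := by
        refine hL4 _ fun l hl' => ?_
        rw [← dc_re, hl l hl', Complex.zero_re]
      ext j
      exact Complex.ext (congrFun hr j) (congrFun hi j)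
    have hall := h3 k (Cn k) (Tb Om) (isOpen_Tb hS) (isPreconnected_Tb hS) _ hDd
      (Complex.I • cx η) univ isOpen_univ univ_nonempty (fun u _ => by
        rw [add_comm (Complex.I • cx η)]
        refine ⟨?_, hvan u⟩
        have he : imv (cx u + Complex.I • cx η) = η := by
          ext j
          simp [imv, cx, Complex.mul_im]
        show imv (cx u + Complex.I • cx η) ∈ Om
        rw [he]; exact hη)
    intro w hw
    have h5 := hall w hw
    rw [D3_eq, hR] at h5
    simp only at h5
    rw [D3_eq']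
    have r3 : w + (3 * σ) • cx η + Complex.I • hf F z z =
        w + Complex.I • hf F z z + (3 * σ) • cx η := add_right_comm _ _ _
    have r2 : w + (2 * σ) • cx η + Complex.I • hf F z z =
        w + Complex.I • hf F z z + (2 * σ) • cx η := add_right_comm _ _ _
    have r1 : w + σ • cx η + Complex.I • hf F z z =
        w + Complex.I • hf F z z + σ • cx η := add_right_comm _ _ _
    rw [r3, r2, r1] at h5
    simp only [Prod.fst_sub, Prod.fst_add, Prod.smul_fst, Prod.snd_sub, Prod.snd_add,
      Prod.smul_snd, hf_sub_left, hf_add_left, hf_smul_left]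
    rw [← sub_eq_zero, ← h5]
    module
  have main2 : ∀ (z : Cn m) (w : Cn k), ((z, w) : Vs m k) ∈ SD F Om →
      (D3 X ((0, σ • cx η) : Vs m k) (z, w)).2 =
        (2 * Complex.I) • hf F (D3 X ((0, σ • cx η) : Vs m k) (z, w)).1 z := by
    intro z w hw
    have e : w = (w - Complex.I • hf F z z) + Complex.I • hf F z z := by
      rw [sub_add_cancel]
    have h6 := main z (w - Complex.I • hf F z z) ((mem_SD_iff z _).1 (by rw [← e]; exact hw))
    rw [← e] at h6
    exact h6
  -- polarization
  intro p hp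
  obtain ⟨z, w⟩ := p
  set Z : Set (Cn m) := {z | ((z, w) : Vs m k) ∈ SD F Om} with hZ
  have hZo : IsOpen Z := hH.opn.preimage (by fun_prop : Continuous fun z : Cn m => ((z, w) : Vs m k))
  have hshift : ∀ s : ℂ, 0 ≤ s.im → ∀ z ∈ Z, ((z, w + s • cx η) : Vs m k) ∈ SD F Om := by
    intro s hs z hz
    have e : w = (w - Complex.I • hf F z z) + Complex.I • hf F z z := by
      rw [sub_add_cancel]
    have hz' : w - Complex.I • hf F z z ∈ Tb Om := (mem_SD_iff z _).1 (by rw [← e]; exact hz)
    have h7 := (mem_SD_iff (F := F) (Om := Om) z _).2 (mem_Tb_shift hS hL7 hL3 hη hs hz')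
    rw [add_right_comm, ← e] at h7
    exact h7
  have hXs : ∀ s : ℂ, 0 ≤ s.im →
      DifferentiableOn ℂ (fun z : Cn m => X (z, w + s • cx η)) Z := by
    intro s hs
    refine hX.1.comp (t := SD F Om) ?_ ?_
    · fun_prop
    · intro z hz
      exact hshift s hs z hz
  have hX0 : DifferentiableOn ℂ (fun z : Cn m => X (z, w)) Z := by
    refine hX.1.comp (t := SD F Om) ?_ ?_
    · fun_prop
    · intro z hz
      exact hz
  have hD : DifferentiableOn ℂ (fun z : Cn m => D3 X ((0, σ • cx η) : Vs m k) (z, w)) Z := by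
    have he : (fun z : Cn m => D3 X ((0, σ • cx η) : Vs m k) (z, w)) = fun z : Cn m =>
        X (z, w + (3 * σ) • cx η) - (3 : ℂ) • X (z, w + (2 * σ) • cx η) +
      (3 : ℂ) • X (z, w + σ • cx η) - X (z, w) := by
      funext z
      exact D3_eq' X σ (cx η) w z
    rw [he]
    have a3 : 0 ≤ (3 * σ).im := by simpa using hσ
    have a2 : 0 ≤ (2 * σ).im := by simpa using hσ
    exact (((hXs _ a3).sub ((hXs _ a2).const_smul (3 : ℂ))).add
      ((hXs _ hσ).const_smul (3 : ℂ))).sub hX0
  have hfin := h4 m k F Om hS Z hZo (fun z => (D3 X ((0, σ • cx η) : Vs m k) (z, w)).1)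
    (fun z => (D3 X ((0, σ • cx η) : Vs m k) (z, w)).2) (2 * Complex.I)
    (by simp) hD.fst hD.snd (fun z hz => main2 z w hz) z hp
  exact Prod.ext hfin.1 hfin.2

end KVB
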