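import Pool.Agent.Lib.KV.B.SpecS

/-!
# KV, part B, block S: `E2` (existence of the fields of weight 2)
-/

set_option autoImplicit false

open Set Filter Topology Metric

namespace KVB

open KP

namespace E2Aux

theorem dif2 {E F G W : Type} [NormedAddCommGroup E] [NormedSpace ℂ E] [FiniteDimensional ℂ E]
    [NormedAddCommGroup F] [NormedSpace ℂ F] [FiniteDimensional ℂ F]
    [NormedAddCommGroup G] [NormedSpace ℂ G]
    [NormedAddCommGroup W] [NormedSpace ℂ W] (f : E →ₗ[ℂ] F →ₗ[ℂ] G) {g : W → E} {h : W → F}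
    (hg : Differentiable ℂ g) (hh : Differentiable ℂ h) :
    Differentiable ℂ (fun x => f (g x) (h x)) := by
  have h1 : Differentiable ℂ (fun x => f.toContinuousBilinearMap (g x) (h x)) :=
    (f.toContinuousBilinearMap.differentiable.comp hg).clm_apply hh
  exact h1

theorem dif1 {E G W : Type} [NormedAddCommGroup E] [NormedSpace ℂ E] [FiniteDimensional ℂ E]
    [NormedAddCommGroup G] [NormedSpace ℂ G]
    [NormedAddCommGroup W] [NormedSpace ℂ W] (f : E →ₗ[ℂ] G) {g : W → E}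
    (hg : Differentiable ℂ g) : Differentiable ℂ (fun x => f (g x)) := by
  have h1 : Differentiable ℂ (fun x => LinearMap.toContinuousLinearMap f (g x)) :=
    (LinearMap.toContinuousLinearMap f).differentiable.comp hg
  exact h1

variable {m k : ℕ}

/-- The Euler field. -/
def Eu : Vs m k → Vs m k := fun p => (p.1, (2 : ℂ) • p.2)

theorem euler (Y : Vs m k → Vs m k) (hY : Differentiable ℂ Y) (p : Vs m k) (A : Cn m) (B : Cn k)
    (a b : ℕ) (h : ∀ t : ℂ, Y (t • p.1, t ^ 2 • p.2) = (t ^ a • A, t ^ b • B)) :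
    fderiv ℂ Y p (Eu p) = ((a : ℂ) • A, (b : ℂ) • B) := by
  have e1 : HasDerivAt (fun t : ℂ => t • p.1) ((1 : ℂ) • p.1) 1 :=
    (hasDerivAt_id (1 : ℂ)).smul_const p.1
  have e2 : HasDerivAt (fun t : ℂ => t ^ 2 • p.2) (((2 : ℕ) * (1 : ℂ) ^ (2 - 1)) • p.2) 1 :=
    (hasDerivAt_pow 2 (1 : ℂ)).smul_const p.2
  have h1 : HasDerivAt (fun t : ℂ => ((t • p.1, t ^ 2 • p.2) : Vs m k))
      ((1 : ℂ) • p.1, ((2 : ℕ) * (1 : ℂ) ^ (2 - 1)) • p.2) 1 := e1.prodMk e2
  have h2 : HasFDerivAt Y (fderiv ℂ Y p) ((1 : ℂ) • p.1, (1 : ℂ) ^ 2 • p.2) := by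
    have : (((1 : ℂ) • p.1, (1 : ℂ) ^ 2 • p.2) : Vs m k) = p := by simp
    rw [this]
    exact (hY p).hasFDerivAt
  have h3 := h2.comp_hasDerivAt (1 : ℂ) h1
  have e3 : HasDerivAt (fun t : ℂ => t ^ a • A) (((a : ℂ) * (1 : ℂ) ^ (a - 1)) • A) 1 :=
    (hasDerivAt_pow a (1 : ℂ)).smul_const A
  have e4 : HasDerivAt (fun t : ℂ => t ^ b • B) (((b : ℂ) * (1 : ℂ) ^ (b - 1)) • B) 1 :=
    (hasDerivAt_pow b (1 : ℂ)).smul_const B
  have h4 : HasDerivAt (fun t : ℂ => ((t ^ a • A, t ^ b • B) : Vs m k))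
      (((a : ℂ) * (1 : ℂ) ^ (a - 1)) • A, ((b : ℂ) * (1 : ℂ) ^ (b - 1)) • B) 1 := e3.prodMk e4
  have h5 : (Y ∘ fun t : ℂ => ((t • p.1, t ^ 2 • p.2) : Vs m k)) =
      fun t : ℂ => ((t ^ a • A, t ^ b • B) : Vs m k) := funext fun t => h t
  rw [h5] at h3
  have h6 := h3.unique h4
  simpa [Eu] using h6

theorem fderiv_Eu (p v : Vs m k) : fderiv ℂ (Eu : Vs m k → Vs m k) p v = Eu v := by
  have h : (Eu : Vs m k → Vs m k) = ((ContinuousLinearMap.fst ℂ (Cn m) (Cn k)).prod
      ((2 : ℂ) • ContinuousLinearMap.snd ℂ (Cn m) (Cn k))) := by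
    funext q
    rfl
  rw [h, ContinuousLinearMap.fderiv]

theorem br_Eu (i : Fin 5) (Y : Vs m k → Vs m k) (hY : GT i Y) (p : Vs m k) :
    Br Eu Y p = (((i : ℕ) : ℂ) - 2) • Y p := by
  unfold Br
  rw [fderiv_Eu]
  fin_cases i
  · obtain ⟨b0, rfl⟩ := hY
    have hd : Differentiable ℂ (fm2 b0 : Vs m k → Vs m k) := differentiable_const _
    rw [euler _ hd p 0 b0 0 0 (fun t => by simp [fm2])]
    simp [fm2, Eu]
  · obtain ⟨a0, β0, rfl⟩ := hY
    have hd : Differentiable ℂ (fm1 a0 β0 : Vs m k → Vs m k) :=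
      (differentiable_const _).prodMk (dif1 β0 differentiable_fst)
    rw [euler _ hd p a0 (β0 p.1) 0 1 (fun t => by simp [fm1])]
    ext j
    · simp [fm1, Eu]; ring
    · simp [fm1, Eu]; ring
  · obtain ⟨M0, b1, rfl⟩ := hY
    have hd : Differentiable ℂ (f0 M0 b1 : Vs m k → Vs m k) :=
      (dif1 M0 differentiable_fst).prodMk (dif1 b1 differentiable_snd)
    rw [euler _ hd p (M0 p.1) (b1 p.2) 1 2 (fun t => by simp [f0])]
    ext j
    · simp [f0, Eu]
    · simp [f0, Eu]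
  · obtain ⟨c0, a1, β1, rfl⟩ := hY
    have hd : Differentiable ℂ (f1 c0 a1 β1 : Vs m k → Vs m k) :=
      ((dif2 c0 differentiable_fst differentiable_fst).add (dif1 a1 differentiable_snd)).prodMk
        (dif2 β1 differentiable_snd differentiable_fst)
    rw [euler _ hd p (c0 p.1 p.1 + a1 p.2) (β1 p.2 p.1) 2 3 (fun t => by
      ext j
      · simp [f1]; ring
      · simp [f1]; ring)]
    ext j
    · simp [f1, Eu]; ring
    · simp [f1, Eu]; ring
  · obtain ⟨M1, b2, hb, rfl⟩ := hY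
    have hd : Differentiable ℂ (f2 M1 b2 : Vs m k → Vs m k) :=
      (dif2 M1 differentiable_snd differentiable_fst).prodMk
        (dif2 b2 differentiable_snd differentiable_snd)
    rw [euler _ hd p (M1 p.2 p.1) (b2 p.2 p.2) 3 4 (fun t => by
      ext j
      · simp [f2]; ring
      · simp [f2]; ring)]
    ext j
    · simp [f2, Eu]; ring
    · simp [f2, Eu]; ring

/-- The bracket of a real combination with a field. -/
theorem br_ev {V : Type} [NormedAddCommGroup V] [NormedSpace ℂ V] {D : Set V} (hD : IsOpen D)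
    {d : ℕ} {X : Fin d → V → V} (hX : ∀ a, DifferentiableOn ℂ (X a) D)
    {c : Fin d → Fin d → Fin d → ℝ} (hc : SC D X c) (ε : Fin d → ℝ) (E : V → V)
    (hE : ∀ x ∈ D, E x = ev X ε x) (a : Fin d) (x : V) (hx : x ∈ D) :
    Br E (X a) x = ev X (fun e => ∑ b, ε b * c b a e) x := by
  have hd : ∀ b, DifferentiableAt ℂ (X b) x := fun b =>
    (hX b x hx).differentiableAt (hD.mem_nhds hx)
  have h1 : fderiv ℂ E x = fderiv ℂ (ev X ε) x := by
    apply Filter.EventuallyEq.fderiv_eq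
    filter_upwards [hD.mem_nhds hx] with y hy
    exact hE y hy
  have h2 : fderiv ℂ (ev X ε) x = ∑ b, (ε b : ℂ) • fderiv ℂ (X b) x := by
    have h3 : HasFDerivAt (ev X ε) (∑ b, (ε b : ℂ) • fderiv ℂ (X b) x) x := by
      unfold ev
      exact HasFDerivAt.fun_sum fun b _ => (hd b).hasFDerivAt.const_smul (ε b : ℂ)
    exact h3.fderiv
  unfold Br
  rw [h1, h2, hE x hx]
  have h4 : fderiv ℂ (X a) x (ev X ε x) = ∑ b, (ε b : ℂ) • fderiv ℂ (X a) x (X b x) := by
    unfold ev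
    rw [map_sum]
    exact Finset.sum_congr rfl fun b _ => by rw [map_smul]
  rw [h4, sum_apply, ← Finset.sum_sub_distrib]
  have h5 : ∀ b, (ε b : ℂ) • fderiv ℂ (X a) x (X b x) - ((ε b : ℂ) • fderiv ℂ (X b) x) (X a x) =
      (ε b : ℂ) • ev X (c b a) x := by
    intro b
    rw [← hc b a x hx]
    unfold Br
    rw [smul_sub]
    rfl
  rw [Finset.sum_congr rfl fun b _ => h5 b]
  unfold ev
  simp_rw [Finset.smul_sum, smul_smul]
  rw [Finset.sum_comm]
  refine Finset.sum_congr rfl fun e _ => ?_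
  rw [← Finset.sum_smul]
  push_cast
  rfl

end E2Aux

open E2Aux in
theorem tE2 (h1 : S_FamE) (h2 : S_Str) (h3 : S_Uni) (h4 : S_Hei) : S_E2 := by
  intro m k F Om hS hH Γ _ ρ hA e he
  obtain ⟨d, X, wt, hFam, hGT, c0, c1, c3, c4, hK⟩ := h1 m k F Om hS hH
  obtain ⟨c, hc⟩ := h2 (Vs m k) (SD F Om) hH d X hFam
  have hU := h3 (Vs m k) (SD F Om) hH Γ ρ hA d X hFam c hc
  have hE : Cpl (SD F Om) (Eu : Vs m k → Vs m k) := (h4 m k F Om hS).2.2.1
  obtain ⟨ε, hε⟩ := hFam.span _ hE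
  have key : ∀ a, ∑ b, ε b * c b a a = ((wt a : ℕ) : ℝ) - 2 := by
    intro a
    have h0 : (fun f => ∑ b, ε b * c b a f) -
        (fun f => (((wt a : ℕ) : ℝ) - 2) * (if f = a then 1 else 0)) = 0 := by
      apply hFam.ind
      intro x hx
      have e1 := br_ev hH.opn (fun a => (hFam.cpl a).1) hc ε Eu hε a x hx
      rw [br_Eu (wt a) (X a) (hGT a) x] at e1
      have e2 : ev X ((fun f => ∑ b, ε b * c b a f) -
          (fun f => (((wt a : ℕ) : ℝ) - 2) * (if f = a then 1 else 0))) x =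
          ev X (fun f => ∑ b, ε b * c b a f) x -
          ev X (fun f => (((wt a : ℕ) : ℝ) - 2) * (if f = a then 1 else 0)) x := by
        unfold ev
        rw [← Finset.sum_sub_distrib]
        refine Finset.sum_congr rfl fun f _ => ?_
        rw [Pi.sub_apply]
        push_cast
        rw [sub_smul]
      have e3 : ev X (fun f => (((wt a : ℕ) : ℝ) - 2) * (if f = a then 1 else 0)) x =
          (((wt a : ℕ) : ℂ) - 2) • X a x := by
        unfold ev
        rw [Finset.sum_eq_single a]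
        · simp
        · intro b _ hb
          simp [hb]
        · intro h
          exact absurd (Finset.mem_univ a) h
      rw [e2, e3, ← e1, sub_self]
    have := congrFun h0 a
    simp only [Pi.sub_apply, Pi.zero_apply, if_true, mul_one] at this
    linarith
  have hsum : ∑ a, (((wt a : ℕ) : ℝ) - 2) = 0 := by
    rw [← Finset.sum_congr rfl fun a _ => key a, Finset.sum_comm]
    have : ∀ b, ∑ a, ε b * c b a a = 0 := by
      intro b
      rw [← Finset.mul_sum, hU b, mul_zero]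
    simp [this]
  have hfib : ∑ a, (((wt a : ℕ) : ℝ) - 2) =
      ∑ i : Fin 5, ((Finset.univ.filter fun a => wt a = i).card : ℝ) * (((i : ℕ) : ℝ) - 2) := by
    rw [← Finset.sum_fiberwise (Finset.univ : Finset (Fin d)) wt]
    refine Finset.sum_congr rfl fun i _ => ?_
    rw [Finset.sum_congr rfl (g := fun _ => ((i : ℕ) : ℝ) - 2), Finset.sum_const, nsmul_eq_mul]
    intro a ha
    rw [(Finset.mem_filter.1 ha).2]
  rw [hfib, Fin.sum_univ_five] at hsum
  rw [c0, c1] at hsum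
  have c3' : ((Finset.univ.filter fun a => wt a = 3).card : ℝ) ≤ 2 * m := by exact_mod_cast c3
  have c4' : ((Finset.univ.filter fun a => wt a = 4).card : ℝ) ≤ k := by exact_mod_cast c4
  have hge : (k : ℝ) ≤ ((Finset.univ.filter fun a => wt a = 4).card : ℝ) := by
    have v0 : (((0 : Fin 5) : ℕ) : ℝ) = 0 := by norm_num
    have v1 : (((1 : Fin 5) : ℕ) : ℝ) = 1 := by norm_num
    have v2 : (((2 : Fin 5) : ℕ) : ℝ) = 2 := by norm_num
    have v3 : (((3 : Fin 5) : ℕ) : ℝ) = 3 := by norm_num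
    have v4 : (((4 : Fin 5) : ℕ) : ℝ) = 4 := by norm_num
    rw [v0, v1, v2, v3, v4] at hsum
    push_cast at hsum
    linarith
  exact hK (le_antisymm c4 (by exact_mod_cast hge)) e he

end KVB
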