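import Pool.Agent.Lib.KV.B.SpecS

set_option autoImplicit false

open Set Filter Topology Metric

namespace KVB

open KP

namespace ExtAux

variable {m k : ℕ} {F : Fin k → Matrix (Fin m) (Fin m) ℂ} {Om : Set (Fin k → ℝ)}

/-- The defining map of the Siegel domain. -/
private noncomputable def G (F : Fin k → Matrix (Fin m) (Fin m) ℂ) (p : Vs m k) : Fin k → ℝ :=
  imv p.2 - rev (hf F p.1 p.1)

private theorem continuous_G : Continuous (G F) := by
  unfold G imv rev hf
  refine Continuous.sub ?_ ?_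
  · exact continuous_pi fun j =>
      Complex.continuous_im.comp ((continuous_apply j).comp continuous_snd)
  · refine continuous_pi fun j => Complex.continuous_re.comp ?_
    refine continuous_finsetSum _ fun a _ => continuous_finsetSum _ fun b _ => ?_
    refine Continuous.mul (Continuous.mul continuous_const ?_) ?_
    · exact (continuous_apply a).comp continuous_fst
    · exact Complex.continuous_conj.comp ((continuous_apply b).comp continuous_fst)

private theorem mem_iff (p : Vs m k) : p ∈ SD F Om ↔ G F p ∈ Om := Iff.rfl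

private theorem G_shift (p : Vs m k) (σ : ℂ) (η : Fin k → ℝ) :
    G F (p + (0, σ • cx η)) = G F p + σ.im • η := by
  funext j
  simp only [G, Prod.fst_add, Prod.snd_add, add_zero, Pi.sub_apply, Pi.add_apply, imv, rev,
    Pi.smul_apply, smul_eq_mul, cx, Complex.add_im, Complex.mul_im, Complex.ofReal_re,
    Complex.ofReal_im, mul_zero]
  ring

private theorem G_conv (p q : Vs m k) (a b : ℝ) (ha : 0 ≤ a) (hb : 0 ≤ b) (hab : a + b = 1) :
    G F (a • p + b • q) = a • G F p + b • G F q +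
      rev (hf F (((√(a * b) : ℝ) : ℂ) • (p.1 - q.1)) (((√(a * b) : ℝ) : ℂ) • (p.1 - q.1))) := by
  have hs : ((√(a * b) : ℝ) : ℂ) * ((√(a * b) : ℝ) : ℂ) = (a : ℂ) * (b : ℂ) := by
    rw [← Complex.ofReal_mul, Real.mul_self_sqrt (mul_nonneg ha hb), Complex.ofReal_mul]
  have e1 : hf F (((√(a * b) : ℝ) : ℂ) • (p.1 - q.1)) (((√(a * b) : ℝ) : ℂ) • (p.1 - q.1))
      = ((a : ℂ) * (b : ℂ)) • (hf F p.1 p.1 - hf F p.1 q.1 - hf F q.1 p.1 + hf F q.1 q.1) := by
    rw [hf_smul_left, hf_smul_right, smul_smul, Complex.conj_ofReal, hs]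
    congr 1
    funext j
    simp only [hf, Pi.sub_apply, Pi.add_apply, map_sub]
    rw [← Finset.sum_sub_distrib, ← Finset.sum_sub_distrib, ← Finset.sum_add_distrib]
    refine Finset.sum_congr rfl fun i _ => ?_
    rw [← Finset.sum_sub_distrib, ← Finset.sum_sub_distrib, ← Finset.sum_add_distrib]
    refine Finset.sum_congr rfl fun i' _ => ?_
    ring
  have e2 : hf F ((a : ℂ) • p.1 + (b : ℂ) • q.1) ((a : ℂ) • p.1 + (b : ℂ) • q.1)
      = ((a : ℂ) * (a : ℂ)) • hf F p.1 p.1 + ((a : ℂ) * (b : ℂ)) • (hf F p.1 q.1 + hf F q.1 p.1)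
        + ((b : ℂ) * (b : ℂ)) • hf F q.1 q.1 := by
    simp only [hf_add_left, hf_add_right, hf_smul_left, hf_smul_right, Complex.conj_ofReal]
    funext j
    simp only [Pi.add_apply, Pi.smul_apply, smul_eq_mul]
    ring
  have e3 : (a • p + b • q).1 = (a : ℂ) • p.1 + (b : ℂ) • q.1 := by
    funext j
    simp [Complex.real_smul]
  have hb' : b = 1 - a := by linarith
  rw [e1]
  funext j
  have e4 : ((a • p + b • q).2 j).im = a * (p.2 j).im + b * (q.2 j).im := by
    simp
  have key : (hf F ((a : ℂ) • p.1 + (b : ℂ) • q.1) ((a : ℂ) • p.1 + (b : ℂ) • q.1) j)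
      = (a : ℂ) * hf F p.1 p.1 j + (b : ℂ) * hf F q.1 q.1 j
        - (((a : ℂ) * (b : ℂ)) • (hf F p.1 p.1 - hf F p.1 q.1 - hf F q.1 p.1 + hf F q.1 q.1)) j := by
    rw [e2]
    simp only [Pi.add_apply, Pi.sub_apply, Pi.smul_apply, smul_eq_mul]
    rw [hb']
    push_cast
    ring
  have key2 := congrArg Complex.re key
  rw [Complex.sub_re, Complex.add_re, Complex.re_ofReal_mul, Complex.re_ofReal_mul] at key2
  simp only [G, imv, rev, Pi.sub_apply, Pi.add_apply, Pi.smul_apply, smul_eq_mul]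
  rw [e3, e4, key2]
  simp only [Pi.add_apply, Pi.sub_apply, Pi.smul_apply, smul_eq_mul]
  ring

private theorem open_SD (hS : Sie F Om) : IsOpen (SD F Om) := hS.opn.preimage continuous_G

private theorem convex_SD (hS : Sie F Om)
    (h3 : ∀ y ∈ closure Om, ∀ y' ∈ Om, y + y' ∈ Om) : Convex ℝ (SD F Om) := by
  intro p hp q hq a b ha hb hab
  rw [mem_iff] at hp hq ⊢
  rw [G_conv p q a b ha hb hab, add_comm]
  exact h3 _ (hS.psd _) _ (hS.cvx hp hq ha hb hab)

private theorem shift_mem (hS : Sie F Om)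
    (h3 : ∀ y ∈ closure Om, ∀ y' ∈ Om, y + y' ∈ Om) {p : Vs m k} (hp : p ∈ SD F Om)
    {η : Fin k → ℝ} (hη : η ∈ Om) {σ : ℂ} (hσ : 0 ≤ σ.im) :
    p + ((0, σ • cx η) : Vs m k) ∈ SD F Om := by
  rw [mem_iff] at hp ⊢
  rw [G_shift]
  rcases hσ.eq_or_lt with h | h
  · rw [← h, zero_smul, add_zero]
    exact hp
  · exact h3 _ (subset_closure hp) _ (hS.cone _ hη _ h)

private theorem D3_zero {E G : Type} [AddCommGroup E] [AddCommGroup G] {f : E → G} {v p : E}
    (h : D3 f v p = 0) : f (p + 3 • v) - 3 • f (p + 2 • v) + 3 • f (p + v) = f p := by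
  unfold D3 at h
  exact sub_eq_zero.1 h

private theorem D3_congr {E G : Type} [AddCommGroup E] [AddCommGroup G] {f g : E → G}
    {D : Set E} {v : E} (hfg : ∀ p ∈ D, f p = g p) (hv : ∀ p ∈ D, p + v ∈ D) {p : E}
    (hp : p ∈ D) (h : D3 g v p = 0) : D3 f v p = 0 := by
  have s2 : p + 2 • v ∈ D := by
    rw [two_nsmul, ← add_assoc]
    exact hv _ (hv _ hp)
  have s3 : p + 3 • v ∈ D := by
    rw [show (3 : ℕ) = 2 + 1 from rfl, add_nsmul, one_nsmul, ← add_assoc]
    exact hv _ s2
  unfold D3 at h ⊢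
  rw [hfg _ s3, hfg _ s2, hfg _ (hv p hp), hfg _ hp]
  exact h

private theorem diffOn_D3 {E G : Type} [NormedAddCommGroup E] [NormedSpace ℂ E]
    [NormedAddCommGroup G] [NormedSpace ℂ G] {f : E → G} {D D' : Set E}
    (hf : DifferentiableOn ℂ f D) {v : E} (h1 : ∀ p ∈ D', p + v ∈ D)
    (h2 : ∀ p ∈ D', p + 2 • v ∈ D) (h3 : ∀ p ∈ D', p + 3 • v ∈ D) :
    DifferentiableOn ℂ (fun p => f (p + 3 • v) - 3 • f (p + 2 • v) + 3 • f (p + v)) D' := by
  have hsh : ∀ c : E, (∀ p ∈ D', p + c ∈ D) → DifferentiableOn ℂ (fun p => f (p + c)) D' := by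
    intro c hc
    exact hf.comp (differentiableOn_id.add_const c) hc
  exact (((hsh _ h3).sub ((hsh _ h2).const_smul 3)).add ((hsh _ h1).const_smul 3))

private theorem differentiable_D3 {E G : Type} [NormedAddCommGroup E] [NormedSpace ℂ E]
    [NormedAddCommGroup G] [NormedSpace ℂ G] {f : E → G} (hf : Differentiable ℂ f) (v : E) :
    Differentiable ℂ (D3 f v) := by
  unfold D3
  have h : ∀ c : E, Differentiable ℂ fun p => f (p + c) := fun c =>
    hf.comp (differentiable_id.add_const c)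
  exact (((h _).sub ((h _).const_smul 3)).add ((h _).const_smul 3)).sub hf

private theorem differentiable_D3' {W E G : Type} [NormedAddCommGroup W] [NormedSpace ℂ W]
    [NormedAddCommGroup E] [NormedSpace ℂ E] [NormedAddCommGroup G] [NormedSpace ℂ G]
    {f : E → G} (hf : Differentiable ℂ f) {l : W → E} (hl : Differentiable ℂ l) (p : E) :
    Differentiable ℂ fun w => D3 f (l w) p := by
  unfold D3
  have h : ∀ j : ℕ, Differentiable ℂ fun w => f (p + j • l w) := fun j =>
    hf.comp ((hl.const_smul j).const_add p)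
  have h1 : Differentiable ℂ fun w => f (p + l w) := hf.comp (hl.const_add p)
  exact (((h 3).sub ((h 2).const_smul 3)).add (h1.const_smul 3)).sub_const _

end ExtAux

open ExtAux in
/-- **Ext.** -/
theorem tExt (h1 : S_LamP) (h2 : S_TRi) : S_Ext := by
  intro m k F Om hS X hX hD3
  obtain ⟨-, -, h3, -⟩ := h1 m k F Om hS
  obtain ⟨e, he⟩ := hS.nem
  have hDo : IsOpen (SD F Om) := open_SD hS
  have hDc : Convex ℝ (SD F Om) := convex_SD hS h3
  -- the vertical shift
  let E : ℝ → Vs m k := fun S => (0, ((S : ℂ) * Complex.I) • cx e)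
  have hEim : ∀ S : ℝ, ((S : ℂ) * Complex.I).im = S := fun S => by simp
  have hE0 : ∀ S : ℝ, 0 ≤ S → ∀ p ∈ SD F Om, p + E S ∈ SD F Om := fun S hS0 p hp =>
    shift_mem hS h3 hp he (by rw [hEim]; exact hS0)
  have hEadd : ∀ S T : ℝ, E (S + T) = E S + E T := by
    intro S T
    simp only [E, Prod.mk_add_mk, add_zero]
    rw [← add_smul, ← add_mul, Complex.ofReal_add]
  have hmono : ∀ S T : ℝ, S ≤ T → ∀ p, p + E S ∈ SD F Om → p + E T ∈ SD F Om := by
    intro S T hST p hp
    have : p + E T = (p + E S) + E (T - S) := by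
      rw [add_assoc, ← hEadd]
      congr 2
      ring
    rw [this]
    exact hE0 _ (sub_nonneg.2 hST) _ hp
  have h2E : ∀ S : ℝ, 0 ≤ S → ∀ p, p + E S ∈ SD F Om → p + 2 • E S ∈ SD F Om := by
    intro S hS0 p hp
    rw [two_nsmul, ← add_assoc]
    exact hE0 S hS0 _ hp
  have h3E : ∀ S : ℝ, 0 ≤ S → ∀ p, p + E S ∈ SD F Om → p + 3 • E S ∈ SD F Om := by
    intro S hS0 p hp
    rw [show (3 : ℕ) = 2 + 1 from rfl, add_nsmul, one_nsmul, ← add_assoc]
    exact hE0 S hS0 _ (h2E S hS0 p hp)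
  let DS : ℝ → Set (Vs m k) := fun S => {p | p + E S ∈ SD F Om}
  have hDSo : ∀ S, IsOpen (DS S) := fun S => hDo.preimage (continuous_id.add continuous_const)
  have hDSc : ∀ S, IsPreconnected (DS S) := by
    intro S
    refine Convex.isPreconnected ?_
    intro p hp q hq a b ha hb hab
    have : a • p + b • q + E S = a • (p + E S) + b • (q + E S) := by
      rw [smul_add, smul_add, add_add_add_comm, ← add_smul, hab, one_smul]
    change a • p + b • q + E S ∈ SD F Om
    rw [this]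
    exact hDc hp hq ha hb hab
  let YS : ℝ → Vs m k → Vs m k := fun S p =>
    X (p + 3 • E S) - 3 • X (p + 2 • E S) + 3 • X (p + E S)
  have hYSd : ∀ S, 0 ≤ S → DifferentiableOn ℂ (YS S) (DS S) := fun S hS0 =>
    diffOn_D3 hX (fun p hp => hp) (h2E S hS0) (h3E S hS0)
  have hYSX : ∀ S, 0 ≤ S → ∀ p ∈ SD F Om, YS S p = X p := by
    intro S hS0 p hp
    exact D3_zero (hD3 e he ((S : ℂ) * Complex.I) (by rw [hEim]; exact hS0) p hp)
  -- a base point
  have hz0 : ((0, Complex.I • cx e) : Vs m k) ∈ SD F Om := by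
    rw [mem_iff]
    have : G F ((0, Complex.I • cx e) : Vs m k) = e := by
      funext j
      simp [G, imv, rev, hf, cx]
    rw [this]
    exact he
  have hYSS : ∀ S T, 0 ≤ S → S ≤ T → ∀ p ∈ DS S, YS S p = YS T p := by
    intro S T hS0 hST
    have hT0 : 0 ≤ T := hS0.trans hST
    have a1 : AnalyticOnNhd ℂ (YS S) (DS S) := Pool.Agent.Lib.Osgood.analyticOnNhd (hDSo S) (hYSd S hS0)
    have a2 : AnalyticOnNhd ℂ (YS T) (DS S) := Pool.Agent.Lib.Osgood.analyticOnNhd (hDSo S)
      ((hYSd T hT0).mono fun p hp => hmono S T hST p hp)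
    refine a1.eqOn_of_preconnected_of_eventuallyEq a2 (hDSc S) (hE0 S hS0 _ hz0) ?_
    filter_upwards [hDo.mem_nhds hz0] with p hp
    rw [hYSX S hS0 p hp, hYSX T hT0 p hp]
  have hex : ∀ p : Vs m k, ∃ S : ℝ, 0 ≤ S ∧ p + E S ∈ SD F Om := by
    intro p
    have t1 : Tendsto (fun S : ℝ => e + S⁻¹ • G F p) atTop (𝓝 e) := by
      have := (tendsto_inv_atTop_zero (𝕜 := ℝ)).smul_const (G F p)
      rw [zero_smul] at this
      simpa using this.const_add e
    have t2 := t1.eventually (hS.opn.mem_nhds he)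
    obtain ⟨S, hS1, hS2⟩ := (t2.and (eventually_gt_atTop (0 : ℝ))).exists
    refine ⟨S, hS2.le, ?_⟩
    rw [mem_iff]
    change G F (p + ((0, ((S : ℂ) * Complex.I) • cx e) : Vs m k)) ∈ Om
    rw [G_shift, hEim]
    have : G F p + S • e = S • (e + S⁻¹ • G F p) := by
      rw [smul_add, smul_smul, mul_inv_cancel₀ hS2.ne', one_smul, add_comm]
    rw [this]
    exact hS.cone _ hS1 _ hS2
  choose Sf hSf0 hSf using hex
  let Y : Vs m k → Vs m k := fun p => YS (Sf p) p
  have hY : ∀ p S, 0 ≤ S → p ∈ DS S → Y p = YS S p := by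
    intro p S hS0 hp
    rcases le_total (Sf p) S with h | h
    · exact hYSS _ _ (hSf0 p) h p (hSf p)
    · exact (hYSS _ _ hS0 h p hp).symm
  have hYd : Differentiable ℂ Y := by
    intro p0
    have h := ((hYSd _ (hSf0 p0)).differentiableAt ((hDSo _).mem_nhds (hSf p0)))
    refine h.congr_of_eventuallyEq ?_
    filter_upwards [(hDSo (Sf p0)).mem_nhds (hSf p0)] with p hp
    exact hY p _ (hSf0 p0) hp
  have hYX : ∀ p ∈ SD F Om, Y p = X p := fun p hp => hYSX _ (hSf0 p) p hp
  refine ⟨Y, hYd, hYX, ?_⟩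
  have stepA : ∀ η ∈ Om, ∀ p, D3 Y ((0, cx η) : Vs m k) p = 0 := by
    intro η hη p
    have a1 : AnalyticOnNhd ℂ (D3 Y ((0, cx η) : Vs m k)) univ :=
      Pool.Agent.Lib.Osgood.analyticOnNhd isOpen_univ (differentiable_D3 hYd _).differentiableOn
    refine a1.eqOn_zero_of_preconnected_of_eventuallyEq_zero isPreconnected_univ
      (mem_univ ((0, Complex.I • cx e) : Vs m k)) ?_ (mem_univ p)
    filter_upwards [hDo.mem_nhds hz0] with q hq
    have s1 : ∀ q ∈ SD F Om, q + ((0, cx η) : Vs m k) ∈ SD F Om := by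
      intro q hq
      have := shift_mem hS h3 hq hη (σ := 1) (by simp)
      rwa [one_smul] at this
    have := hD3 η hη 1 (by simp) q hq
    rw [one_smul] at this
    exact D3_congr hYX s1 hq this
  intro p v
  have hlin : Differentiable ℂ fun v : Cn k => ((0, v) : Vs m k) :=
    (differentiable_const (0 : Cn m)).prodMk differentiable_id
  have hdiff : Differentiable ℂ fun v : Cn k => D3 Y ((0, v) : Vs m k) p :=
    differentiable_D3' hYd hlin p
  refine h2 k (Vs m k) univ isOpen_univ isPreconnected_univ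
    (fun v : Cn k => D3 Y ((0, v) : Vs m k) p) hdiff.differentiableOn 0 Om hS.opn hS.nem ?_ v
    (mem_univ v)
  intro u hu
  refine ⟨mem_univ _, ?_⟩
  rw [zero_add]
  exact stepA u hu p

end KVB
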