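import Pool.Agent.Lib.KV.B.SpecS

/-!
# KV (MP_64edc4_ag), part B, block S, module FamE: a graded basis of the complete fields
-/

set_option autoImplicit false

open Set Filter Topology Metric

namespace KVB

open KP

namespace FamEAux

variable {V : Type} [NormedAddCommGroup V] [NormedSpace ℂ V]

/-- The restrictions to complex lines are polynomials of degree at most two. -/
def Quad (X : V → V) : Prop := ∀ p v : V, ∃ A B C : V, ∀ t : ℂ, X (p + t • v) = A + t • B + t ^ 2 • C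

theorem quad_coeff {A B C : V} {s : ℂ} (hs : s ≠ 0) (h0 : A + (0 : ℂ) • B + (0 : ℂ) ^ 2 • C = 0)
    (h1 : A + s • B + s ^ 2 • C = 0) (h2 : A + (-s) • B + (-s) ^ 2 • C = 0) :
    A = 0 ∧ B = 0 ∧ C = 0 := by
  have hA : A = 0 := by
    simpa using h0
  subst hA
  rw [zero_add] at h1 h2
  rw [neg_sq, neg_smul] at h2
  have h3 : (2 * s ^ 2) • C = 0 := by
    have : s • B + s ^ 2 • C + (-(s • B) + s ^ 2 • C) = 0 := by rw [h1, h2, add_zero]
    rw [two_mul, add_smul]
    rw [← this]; abel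
  have hC : C = 0 := by
    rcases smul_eq_zero.1 h3 with h | h
    · exact absurd h (mul_ne_zero two_ne_zero (pow_ne_zero 2 hs))
    · exact h
  subst hC
  rw [smul_zero, add_zero] at h1
  rcases smul_eq_zero.1 h1 with h | h
  · exact absurd h hs
  · exact ⟨rfl, h, rfl⟩

theorem quad_zero {D : Set V} (hD : IsOpen D) {p : V} (hp : p ∈ D) {X : V → V} (hX : Quad X)
    (h0 : ∀ x ∈ D, X x = 0) (q : V) : X q = 0 := by
  obtain ⟨A, B, C, h⟩ := hX p (q - p)
  have hc : Continuous fun t : ℂ => p + t • (q - p) := by fun_prop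
  have hn : ∀ᶠ t : ℂ in 𝓝 0, p + t • (q - p) ∈ D := by
    refine hc.continuousAt.eventually_mem ?_
    rw [zero_smul, add_zero]
    exact hD.mem_nhds hp
  obtain ⟨ε, hε, hb⟩ := Metric.eventually_nhds_iff.1 hn
  have hs : ((ε / 2 : ℝ) : ℂ) ≠ 0 := by
    rw [Ne, Complex.ofReal_eq_zero]
    linarith
  have hv : ∀ t : ℂ, ‖t‖ < ε → A + t • B + t ^ 2 • C = 0 := by
    intro t ht
    rw [← h t]
    exact h0 _ (hb (by rwa [dist_zero_right]))
  have hn1 : ‖((ε / 2 : ℝ) : ℂ)‖ < ε := by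
    rw [Complex.norm_real, Real.norm_of_nonneg (by linarith)]
    linarith
  obtain ⟨hA, hB, hC⟩ := quad_coeff hs (hv 0 (by rw [norm_zero]; exact hε)) (hv _ hn1)
    (hv _ (by rw [norm_neg]; exact hn1))
  have h1 := h 1
  rw [one_smul, add_sub_cancel] at h1
  rw [h1, hA, hB, hC]
  simp

variable {m k : ℕ}

theorem gt_add : ∀ (i : Fin 5) (Y Z : Vs m k → Vs m k), GT i Y → GT i Z → GT i (Y + Z)
  | 0, _, _, ⟨b, hb⟩, ⟨b', hb'⟩ => ⟨b + b', by
      rw [hb, hb']; funext p; apply Prod.ext <;> simp [fm2]⟩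
  | 1, _, _, ⟨a, β, hb⟩, ⟨a', β', hb'⟩ => ⟨a + a', β + β', by
      rw [hb, hb']; funext p; apply Prod.ext <;> simp [fm1]⟩
  | 2, _, _, ⟨M, b, hb⟩, ⟨M', b', hb'⟩ => ⟨M + M', b + b', by
      rw [hb, hb']; funext p; apply Prod.ext <;> simp [f0]⟩
  | 3, _, _, ⟨c, a, β, hb⟩, ⟨c', a', β', hb'⟩ => ⟨c + c', a + a', β + β', by
      rw [hb, hb']; funext p; apply Prod.ext
      · simp only [f1, Pi.add_apply, Prod.fst_add, LinearMap.add_apply]; abel
      · simp only [f1, Pi.add_apply, Prod.snd_add, LinearMap.add_apply]⟩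
  | 4, _, _, ⟨M, b, hs, hb⟩, ⟨M', b', hs', hb'⟩ => ⟨M + M', b + b', by
      intro u v
      simp only [LinearMap.add_apply, hs u v, hs' u v], by
      rw [hb, hb']; funext p; apply Prod.ext <;> simp [f2]⟩

theorem gt_smul (s : ℂ) : ∀ (i : Fin 5) (Y : Vs m k → Vs m k), GT i Y → GT i (fun p => s • Y p)
  | 0, _, ⟨b, hb⟩ => ⟨s • b, by
      rw [hb]; funext p; apply Prod.ext <;> simp [fm2]⟩
  | 1, _, ⟨a, β, hb⟩ => ⟨s • a, s • β, by
      rw [hb]; funext p; apply Prod.ext <;> simp [fm1]⟩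
  | 2, _, ⟨M, b, hb⟩ => ⟨s • M, s • b, by
      rw [hb]; funext p; apply Prod.ext <;> simp [f0]⟩
  | 3, _, ⟨c, a, β, hb⟩ => ⟨s • c, s • a, s • β, by
      rw [hb]; funext p; apply Prod.ext <;> simp [f1]⟩
  | 4, _, ⟨M, b, hs, hb⟩ => ⟨s • M, s • b, by
      intro u v
      simp only [LinearMap.smul_apply, hs u v], by
      rw [hb]; funext p; apply Prod.ext <;> simp [f2]⟩

theorem gt_quad : ∀ (i : Fin 5) (Y : Vs m k → Vs m k), GT i Y → Quad Y
  | 0, _, ⟨b, hb⟩ => fun p v => ⟨(0, b), 0, 0, fun t => by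
      rw [hb]; simp [fm2]⟩
  | 1, _, ⟨a, β, hb⟩ => fun p v => ⟨(a, β p.1), (0, β v.1), 0, fun t => by
      rw [hb]; apply Prod.ext <;> simp [fm1]⟩
  | 2, _, ⟨M, b, hb⟩ => fun p v => ⟨(M p.1, b p.2), (M v.1, b v.2), 0, fun t => by
      rw [hb]; apply Prod.ext <;> simp [f0]⟩
  | 3, _, ⟨c, a, β, hb⟩ => fun p v => ⟨f1 c a β p, (c p.1 v.1 + c v.1 p.1 + a v.2,
      β p.2 v.1 + β v.2 p.1), (c v.1 v.1, β v.2 v.1), fun t => by
      rw [hb]
      apply Prod.ext
      · simp only [f1, Prod.fst_add, Prod.snd_add, Prod.smul_fst, Prod.smul_snd, map_add,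
          map_smul, LinearMap.add_apply, LinearMap.smul_apply, smul_add, smul_smul, pow_two]
        abel
      · simp only [f1, Prod.fst_add, Prod.snd_add, Prod.smul_fst, Prod.smul_snd, map_add,
          map_smul, LinearMap.add_apply, LinearMap.smul_apply, smul_add, smul_smul, pow_two]
        abel⟩
  | 4, _, ⟨M, b, _, hb⟩ => fun p v => ⟨f2 M b p, (M p.2 v.1 + M v.2 p.1,
      b p.2 v.2 + b v.2 p.2), (M v.2 v.1, b v.2 v.2), fun t => by
      rw [hb]
      apply Prod.ext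
      · simp only [f2, Prod.fst_add, Prod.snd_add, Prod.smul_fst, Prod.smul_snd, map_add,
          map_smul, LinearMap.add_apply, LinearMap.smul_apply, smul_add, smul_smul, pow_two]
        abel
      · simp only [f2, Prod.fst_add, Prod.snd_add, Prod.smul_fst, Prod.smul_snd, map_add,
          map_smul, LinearMap.add_apply, LinearMap.smul_apply, smul_add, smul_smul, pow_two]
        abel⟩

/-- Homogeneity. -/
theorem gt_hom (t : ℂ) : ∀ (i : Fin 5) (Y : Vs m k → Vs m k), GT i Y → ∀ p : Vs m k,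
    t • (Y (t • p.1, t ^ 2 • p.2)).1 = t ^ (i : ℕ) • (Y p).1 ∧
    (Y (t • p.1, t ^ 2 • p.2)).2 = t ^ (i : ℕ) • (Y p).2
  | 0, _, ⟨b, hb⟩ => fun p => by
      rw [hb]; constructor <;> simp [fm2]
  | 1, _, ⟨a, β, hb⟩ => fun p => by
      rw [hb]; constructor <;> simp [fm1]
  | 2, _, ⟨M, b, hb⟩ => fun p => by
      rw [hb]; constructor
      · show t • M (t • p.1) = t ^ 2 • M p.1
        rw [map_smul, smul_smul, pow_two]
      · show b (t ^ 2 • p.2) = t ^ 2 • b p.2
        rw [map_smul]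
  | 3, _, ⟨c, a, β, hb⟩ => fun p => by
      rw [hb]; constructor
      · show t • (c (t • p.1) (t • p.1) + a (t ^ 2 • p.2)) = t ^ 3 • (c p.1 p.1 + a p.2)
        simp only [map_smul, LinearMap.smul_apply, smul_add, smul_smul]
        ring_nf
      · show β (t ^ 2 • p.2) (t • p.1) = t ^ 3 • β p.2 p.1
        simp only [map_smul, LinearMap.smul_apply, smul_smul]
        ring_nf
  | 4, _, ⟨M, b, _, hb⟩ => fun p => by
      rw [hb]; constructor
      · show t • M (t ^ 2 • p.2) (t • p.1) = t ^ 4 • M p.2 p.1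
        simp only [map_smul, LinearMap.smul_apply, smul_smul]
        ring_nf
      · show b (t ^ 2 • p.2) (t ^ 2 • p.2) = t ^ 4 • b p.2 p.2
        simp only [map_smul, LinearMap.smul_apply, smul_smul]
        ring_nf

theorem real_smul (r : ℝ) (v : Vs m k) : r • v = (r : ℂ) • v := by
  apply Prod.ext
  · ext j; simp
  · ext j; simp

theorem cpl_zero {D : Set (Vs m k)} : Cpl D (0 : Vs m k → Vs m k) := by
  refine ⟨differentiableOn_const _, fun _ p => p, ?_, ?_, ?_, ?_, ?_⟩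
  · exact fun _ => differentiableOn_id
  · exact fun _ _ hp => hp
  · exact fun _ _ => rfl
  · exact fun _ _ _ _ => rfl
  · exact fun p _ t => hasDerivAt_const t p

theorem gt_zero (i : Fin 5) : GT i (0 : Vs m k → Vs m k) := by
  have h : ∃ Y : Vs m k → Vs m k, GT i Y := by
    fin_cases i
    · exact ⟨fm2 0, 0, rfl⟩
    · exact ⟨fm1 0 0, 0, 0, rfl⟩
    · exact ⟨f0 0 0, 0, 0, rfl⟩
    · exact ⟨f1 0 0 0, 0, 0, 0, rfl⟩
    · exact ⟨f2 0 0, 0, 0, fun _ _ => rfl, rfl⟩
  obtain ⟨Y, hY⟩ := h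
  have h1 := gt_smul 0 i Y hY
  have h2 : (fun p => (0 : ℂ) • Y p) = (0 : Vs m k → Vs m k) := by
    funext p; simp
  rwa [h2] at h1

variable {F : Fin k → Matrix (Fin m) (Fin m) ℂ} {Om : Set (Fin k → ℝ)}

/-- The space of the complete fields of type `i`. -/
def gs (hL : S_Lin) (hD : Hyp (SD F Om)) (i : Fin 5) : Submodule ℝ (Vs m k → Vs m k) where
  carrier := {Y | GT i Y ∧ Cpl (SD F Om) Y}
  add_mem' {Y Z} hY hZ := ⟨gt_add i Y Z hY.1 hZ.1, (hL (Vs m k) _ hD Y hY.2).2 Z hZ.2⟩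
  zero_mem' := ⟨gt_zero i, cpl_zero⟩
  smul_mem' r Y hY := by
    have h : r • Y = fun p => (r : ℂ) • Y p := by
      funext p
      exact real_smul r (Y p)
    show GT i (r • Y) ∧ Cpl (SD F Om) (r • Y)
    rw [h]
    exact ⟨gt_smul r i Y hY.1, (hL (Vs m k) _ hD Y hY.2).1 r⟩

/-- Independence of the types. -/
theorem indep (hS : Sie F Om) (hH : S_Hei) (hL : S_Lin) (hD : Hyp (SD F Om))
    (Y : Fin 5 → Vs m k → Vs m k) (hY : ∀ i, Y i ∈ gs hL hD i)
    (h0 : ∀ p ∈ SD F Om, ∑ i, Y i p = 0) (i : Fin 5) : Y i = 0 := by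
  obtain ⟨-, -, -, -, -, hdil⟩ := hH m k F Om hS
  have hz : ∀ p ∈ SD F Om, ∀ i, Y i p = 0 := by
    intro p hp
    have hs : ∀ t : ℝ, 0 < t → (∑ i : Fin 5, (t : ℂ) ^ (i : ℕ) • (Y i p).1 = 0) ∧
        ∑ i : Fin 5, (t : ℂ) ^ (i : ℕ) • (Y i p).2 = 0 := by
      intro t ht
      have h1 := h0 _ ((hdil t ht).mg hp)
      constructor
      · rw [← Finset.sum_congr rfl fun i _ => (gt_hom (t : ℂ) i (Y i) (hY i).1 p).1,
          ← Finset.smul_sum, ← Prod.fst_sum, h1]
        simp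
      · rw [← Finset.sum_congr rfl fun i _ => (gt_hom (t : ℂ) i (Y i) (hY i).1 p).2,
          ← Prod.snd_sum, h1]
        simp
    have hinj : Function.Injective fun j : Fin 5 => (((j : ℕ) + 1 : ℝ) : ℂ) := by
      intro a b hab
      have h2 : ((a : ℕ) + 1 : ℝ) = ((b : ℕ) + 1 : ℝ) := Complex.ofReal_injective hab
      have h3 : ((a : ℕ) : ℝ) = ((b : ℕ) : ℝ) := by linarith
      exact Fin.ext (Nat.cast_injective h3)
    have hv1 : ∀ c : Fin m, (fun i : Fin 5 => (Y i p).1 c) = 0 := by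
      intro c
      refine Matrix.eq_zero_of_forall_index_sum_pow_mul_eq_zero hinj fun j => ?_
      have h4 := congrFun (hs ((j : ℕ) + 1 : ℝ) (by positivity)).1 c
      rw [Finset.sum_apply] at h4
      exact h4
    have hv2 : ∀ c : Fin k, (fun i : Fin 5 => (Y i p).2 c) = 0 := by
      intro c
      refine Matrix.eq_zero_of_forall_index_sum_pow_mul_eq_zero hinj fun j => ?_
      have h4 := congrFun (hs ((j : ℕ) + 1 : ℝ) (by positivity)).2 c
      rw [Finset.sum_apply] at h4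
      exact h4
    intro i
    apply Prod.ext
    · funext c
      exact congrFun (hv1 c) i
    · funext c
      exact congrFun (hv2 c) i
  obtain ⟨p0, hp0⟩ := hD.nem
  funext q
  exact quad_zero hD.opn hp0 (gt_quad i (Y i) (hY i).1) (fun p hp => hz p hp i) q

theorem cx_injective : Function.Injective (cx : (Fin k → ℝ) → Cn k) := by
  intro r s h
  funext j
  exact Complex.ofReal_injective (congrFun h j)

/-- Type `0`. -/
theorem g0 (hS : Sie F Om) (hR : S_Rela) (hH : S_Hei) (hL : S_Lin) (hD : Hyp (SD F Om)) :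
    FiniteDimensional ℝ (gs hL hD 0) ∧ Module.finrank ℝ (gs hL hD 0) = k := by
  obtain ⟨hr, -, -, -⟩ := hR m k F Om hS hD
  obtain ⟨hh, -⟩ := hH m k F Om hS
  let e : (Fin k → ℝ) →ₗ[ℝ] gs hL hD 0 :=
    { toFun := fun r => ⟨fm2 (cx r), ⟨_, rfl⟩, hh r⟩
      map_add' := by
        intro r s
        apply Subtype.ext
        funext p
        apply Prod.ext
        · simp [fm2]
        · ext j; simp [fm2, cx]
      map_smul' := by
        intro r s
        apply Subtype.ext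
        funext p
        apply Prod.ext
        · simp [fm2]
        · ext j; simp [fm2, cx] }
  have hb : Function.Bijective e := by
    constructor
    · intro r s h
      have h1 : fm2 (m := m) (cx r) = fm2 (cx s) := congrArg Subtype.val h
      have h2 := congrFun h1 0
      exact cx_injective (congrArg Prod.snd h2)
    · rintro ⟨Y, ⟨b0, hb0⟩, hc⟩
      obtain ⟨r, hr⟩ := hr b0 (hb0 ▸ hc)
      refine ⟨r, Subtype.ext ?_⟩
      show fm2 (cx r) = Y
      rw [hb0, hr]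
  let E := LinearEquiv.ofBijective e hb
  exact ⟨Module.Finite.equiv E, by rw [← E.finrank_eq, Module.finrank_fin_fun]⟩

/-- The linear map `z ↦ 2 i h(z, a)`. -/
noncomputable def hl (F : Fin k → Matrix (Fin m) (Fin m) ℂ) (a : Cn m) : Cn m →ₗ[ℂ] Cn k where
  toFun z := (2 * Complex.I) • hf F z a
  map_add' z z' := by rw [hf_add_left, smul_add]
  map_smul' c z := by rw [hf_smul_left, smul_comm]; rfl

/-- Type `1`. -/
theorem g1 (hS : Sie F Om) (hR : S_Rela) (hH : S_Hei) (hL : S_Lin) (hD : Hyp (SD F Om)) :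
    FiniteDimensional ℝ (gs hL hD 1) ∧ Module.finrank ℝ (gs hL hD 1) = 2 * m := by
  obtain ⟨-, hr, -, -⟩ := hR m k F Om hS hD
  obtain ⟨-, hh, -⟩ := hH m k F Om hS
  let e : Cn m →ₗ[ℝ] gs hL hD 1 :=
    { toFun := fun a => ⟨fm1 a (hl F a), ⟨_, _, rfl⟩, hh a⟩
      map_add' := by
        intro r s
        apply Subtype.ext
        funext p
        apply Prod.ext
        · rfl
        · show (2 * Complex.I) • hf F p.1 (r + s) =
            (2 * Complex.I) • hf F p.1 r + (2 * Complex.I) • hf F p.1 s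
          rw [hf_add_right, smul_add]
      map_smul' := by
        intro r s
        apply Subtype.ext
        funext p
        apply Prod.ext
        · rfl
        · show (2 * Complex.I) • hf F p.1 (r • s) = r • ((2 * Complex.I) • hf F p.1 s)
          have h1 : r • s = (r : ℂ) • s := by ext j; simp
          rw [h1, hf_smul_right, Complex.conj_ofReal]
          ext j
          simp only [Pi.smul_apply, smul_eq_mul, Complex.real_smul]
          ring }
  have hb : Function.Bijective e := by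
    constructor
    · intro r s h
      have h1 : fm1 r (hl F r) = fm1 s (hl F s) := congrArg Subtype.val h
      exact congrArg Prod.fst (congrFun h1 0)
    · rintro ⟨Y, ⟨a0, β0, hb0⟩, hc⟩
      have h1 := hr a0 β0 (hb0 ▸ hc)
      refine ⟨a0, Subtype.ext ?_⟩
      show fm1 a0 (hl F a0) = Y
      have h2 : hl F a0 = β0 := LinearMap.ext fun z => (h1 z).symm
      rw [h2, hb0]
  let E := LinearEquiv.ofBijective e hb
  refine ⟨Module.Finite.equiv E, ?_⟩
  rw [← E.finrank_eq, Module.finrank_pi_fintype]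
  simp [Complex.finrank_real_complex, mul_comm]

/-- Type `2`. -/
theorem g2 (hL : S_Lin) (hD : Hyp (SD F Om)) : FiniteDimensional ℝ (gs hL hD 2) := by
  let e : (Vs m k →ₗ[ℂ] Vs m k) →ₗ[ℝ] (Vs m k → Vs m k) :=
    { toFun := fun L => L
      map_add' := fun _ _ => rfl
      map_smul' := fun _ _ => rfl }
  have hle : gs hL hD 2 ≤ LinearMap.range e := by
    rintro Y ⟨⟨M0, b1, hY⟩, -⟩
    rw [LinearMap.mem_range]
    refine ⟨M0.prodMap b1, ?_⟩
    rw [hY]
    rfl
  have : FiniteDimensional ℝ (Vs m k →ₗ[ℂ] Vs m k) := FiniteDimensional.complexToReal _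
  exact Submodule.finiteDimensional_of_le hle

/-- Type `3`. -/
theorem g3 (hS : Sie F Om) (hI : S_Inj1) (hL : S_Lin) (hD : Hyp (SD F Om)) :
    FiniteDimensional ℝ (gs hL hD 3) ∧ Module.finrank ℝ (gs hL hD 3) ≤ 2 * m := by
  obtain ⟨e, he⟩ := hS.nem
  let l : gs hL hD 3 →ₗ[ℝ] Cn m :=
    { toFun := fun Y => (Y.1 (0, cx e)).1
      map_add' := fun _ _ => rfl
      map_smul' := fun _ _ => rfl }
  have hinj : Function.Injective l := by
    rw [← LinearMap.ker_eq_bot, LinearMap.ker_eq_bot']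
    rintro ⟨Y, ⟨c0, a1, β1, hY⟩, hc⟩ h
    have h1 : a1 (cx e) = 0 := by
      have h2 : (Y (0, cx e)).1 = 0 := h
      rw [hY] at h2
      simpa [f1] using h2
    apply Subtype.ext
    funext p
    show Y p = 0
    rw [hY]
    exact hI m k F Om hS hD e he c0 a1 β1 (hY ▸ hc) h1 p
  refine ⟨Module.Finite.of_injective l hinj, ?_⟩
  have h1 := LinearMap.finrank_le_finrank_of_injective hinj
  refine h1.trans (le_of_eq ?_)
  rw [Module.finrank_pi_fintype]
  simp [Complex.finrank_real_complex, mul_comm]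

/-- Type `4`: the evaluation. -/
def l4 (hL : S_Lin) (hD : Hyp (SD F Om)) (e : Fin k → ℝ) : gs hL hD 4 →ₗ[ℝ] (Fin k → ℝ) where
  toFun Y := rev (Y.1 (0, cx e)).2
  map_add' Y Z := by
    ext j; simp [rev]
  map_smul' r Y := by
    ext j; simp [rev]

theorem l4_val (hS : Sie F Om) (hR : S_Rela) (hD : Hyp (SD F Om)) (e : Fin k → ℝ)
    (M1 : Cn k →ₗ[ℂ] Cn m →ₗ[ℂ] Cn m) (b2 : Cn k →ₗ[ℂ] Cn k →ₗ[ℂ] Cn k)
    (hc : Cpl (SD F Om) (f2 M1 b2)) : b2 (cx e) (cx e) = cx (rev (f2 M1 b2 (0, cx e)).2) := by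
  obtain ⟨-, -, -, hr⟩ := hR m k F Om hS hD
  obtain ⟨r, hr⟩ := hr M1 b2 hc e
  show b2 (cx e) (cx e) = cx (rev (b2 (cx e) (cx e)))
  rw [hr]
  have h1 : rev (cx r : Cn k) = r := by
    ext j; simp [rev, cx]
  rw [h1]

theorem l4_inj (hS : Sie F Om) (hR : S_Rela) (hI : S_Inj2) (hL : S_Lin) (hD : Hyp (SD F Om))
    {e : Fin k → ℝ} (he : e ∈ Om) : Function.Injective (l4 hL hD e) := by
  rw [← LinearMap.ker_eq_bot, LinearMap.ker_eq_bot']
  rintro ⟨Y, ⟨M1, b2, hs, hY⟩, hc⟩ h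
  have h2 : rev (Y (0, cx e)).2 = 0 := h
  subst hY
  have h1 : b2 (cx e) (cx e) = 0 := by
    rw [l4_val hS hR hD e M1 b2 hc, h2]
    ext j; simp [cx]
  apply Subtype.ext
  funext p
  exact hI m k F Om hS hD e he M1 b2 hs hc h1 p

end FamEAux

open FamEAux in
theorem tFamE (h1 : S_Gr) (h2 : S_Rela) (h3 : S_Inj1) (h4 : S_Inj2) (h5 : S_Hei)
    (h6 : S_Lin) : S_FamE := by
  intro m k F Om hS hD
  obtain ⟨e0, he0⟩ := hS.nem
  have F4 : FiniteDimensional ℝ (gs h6 hD 4) :=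
    Module.Finite.of_injective (l4 h6 hD e0) (l4_inj hS h2 h4 h6 hD he0)
  have hfin : ∀ i, FiniteDimensional ℝ (gs h6 hD i) := by
    intro i
    fin_cases i
    · exact (g0 hS h2 h5 h6 hD).1
    · exact (g1 hS h2 h5 h6 hD).1
    · exact g2 h6 hD
    · exact (g3 hS h3 h6 hD).1
    · exact F4
  let dd : Fin 5 → ℕ := fun i => Module.finrank ℝ (gs h6 hD i)
  let b : (i : Fin 5) → Module.Basis (Fin (dd i)) ℝ (gs h6 hD i) :=
    fun i => Module.finBasis ℝ (gs h6 hD i)
  let eq : Fin (Fintype.card (Σ i : Fin 5, Fin (dd i))) ≃ (Σ i : Fin 5, Fin (dd i)) :=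
    (Fintype.equivFin _).symm
  let X : Fin (Fintype.card (Σ i : Fin 5, Fin (dd i))) → Vs m k → Vs m k :=
    fun a => (b (eq a).1 (eq a).2).1
  have hev : ∀ (ζ : (Σ i : Fin 5, Fin (dd i)) → ℝ) (x : Vs m k),
      ev X (fun a => ζ (eq a)) x = ∑ i, (∑ j, ζ ⟨i, j⟩ • b i j).1 x := by
    intro ζ x
    unfold ev
    rw [eq.sum_comp (fun s => (ζ s : ℂ) • (b s.1 s.2).1 x), Fintype.sum_sigma]
    refine Finset.sum_congr rfl fun i _ => ?_
    rw [Submodule.coe_sum, Finset.sum_apply]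
    refine Finset.sum_congr rfl fun j _ => ?_
    rw [Submodule.coe_smul, Pi.smul_apply, real_smul]
  have hcard : ∀ i, (Finset.univ.filter fun a => (eq a).1 = i).card = dd i := by
    intro i
    rw [← Fintype.card_subtype]
    have E1 : {a // (eq a).1 = i} ≃ {s : (Σ i : Fin 5, Fin (dd i)) // s.1 = i} :=
      eq.subtypeEquiv fun a => Iff.rfl
    rw [Fintype.card_congr (E1.trans (Equiv.sigmaSubtype i)), Fintype.card_fin]
  refine ⟨_, X, fun a => (eq a).1, ⟨?_, ?_, ?_⟩, ?_, ?_, ?_, ?_, ?_, ?_⟩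
  · intro a
    exact (b (eq a).1 (eq a).2).2.2
  · intro ξ hξ
    have hζ : (fun a => (fun s => ξ (eq.symm s)) (eq a)) = ξ := by
      funext a
      show ξ (eq.symm (eq a)) = ξ a
      rw [eq.symm_apply_apply]
    have hi := indep hS h5 h6 hD (fun i => (∑ j, ξ (eq.symm ⟨i, j⟩) • b i j).1)
      (fun i => (∑ j, ξ (eq.symm ⟨i, j⟩) • b i j).2) (by
        intro p hp
        rw [← hev (fun s => ξ (eq.symm s)) p, hζ]
        exact hξ p hp)
    funext a
    have h7 : ∑ j, ξ (eq.symm ⟨(eq a).1, j⟩) • b (eq a).1 j = 0 := Subtype.ext (hi (eq a).1)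
    have h8 := Fintype.linearIndependent_iff.1 (b (eq a).1).linearIndependent _ h7 (eq a).2
    rw [Sigma.eta, eq.symm_apply_apply] at h8
    exact h8
  · intro Y hY
    obtain ⟨Z, hZ, hs⟩ := h1 m k F Om hS hD Y hY
    refine ⟨fun a => (b (eq a).1).repr ⟨Z (eq a).1, hZ (eq a).1⟩ (eq a).2, ?_⟩
    intro x hx
    rw [hev (fun s => (b s.1).repr ⟨Z s.1, hZ s.1⟩ s.2) x, hs x hx]
    refine Finset.sum_congr rfl fun i _ => ?_
    have hrep : ∑ j, (b i).repr ⟨Z i, hZ i⟩ j • b i j = (⟨Z i, hZ i⟩ : gs h6 hD i) :=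
      (b i).sum_repr ⟨Z i, hZ i⟩
    exact (congrFun (congrArg Subtype.val hrep) x).symm
  · intro a
    exact (b (eq a).1 (eq a).2).2.1
  · rw [hcard]
    exact (g0 hS h2 h5 h6 hD).2
  · rw [hcard]
    exact (g1 hS h2 h5 h6 hD).2
  · rw [hcard]
    exact (g3 hS h3 h6 hD).2
  · rw [hcard]
    have h9 := LinearMap.finrank_le_finrank_of_injective (l4_inj hS h2 h4 h6 hD he0)
    rwa [Module.finrank_fin_fun] at h9
  · intro hk e he
    rw [hcard] at hk
    have hinj := l4_inj hS h2 h4 h6 hD he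
    have hsurj : Function.Surjective (l4 h6 hD e) := by
      refine (LinearMap.injective_iff_surjective_of_finrank_eq_finrank ?_).1 hinj
      rw [Module.finrank_fin_fun]
      exact hk
    obtain ⟨⟨Y, ⟨M1, b2, hs, hY⟩, hc⟩, hv⟩ := hsurj e
    have hv' : rev (Y (0, cx e)).2 = e := hv
    subst hY
    refine ⟨M1, b2, hs, hc, ?_⟩
    rw [l4_val hS h2 hD e M1 b2 hc, hv']

end KVB
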