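import Pool.Agent.Lib.KV.B.SpecS

/-!
# KV (MP_64edc4_ag), part B, block S, module Gr: the grading of the complete fields
-/

set_option autoImplicit false

open Set Filter Topology Metric

namespace KVB

open KP

theorem tGr (h1 : S_PolX) (h2 : S_Wts) (h3 : S_K5) (h4 : S_K4) (h5 : S_K3) : S_Gr := by
  intro m k F Om hS hD X hX
  obtain ⟨C, hC⟩ := h1 m k F Om hS hD X hX
  obtain ⟨w0, w1, w2, w3, w4, w5, w6, w7⟩ := h2 m k F Om hS hD X hX C hC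
  have k5 := h3 m k F Om hS hD C.c2 w7
  have k4 := h4 m k F Om hS hD C.M2 C.sM w6
  have k3 := h5 m k F Om hS hD C.c1 C.a2 C.β2 C.sa C.sβ w5
  refine ⟨![fm2 C.b0, fm1 C.a0 C.β0, f0 C.M0 C.b1, f1 C.c0 C.a1 C.β1, f2 C.M1 C.b2], ?_, ?_⟩
  · intro i
    fin_cases i
    · exact ⟨⟨_, rfl⟩, w0⟩
    · exact ⟨⟨_, _, rfl⟩, w1⟩
    · exact ⟨⟨_, _, rfl⟩, w2⟩
    · exact ⟨⟨_, _, _, rfl⟩, w3⟩
    · exact ⟨⟨_, _, C.sb, rfl⟩, w4⟩
  · intro p hp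
    have e5 : f5 C.c2 p = 0 := by
      show ((C.c2 p.2 p.2 p.1 p.1, 0) : Vs m k) = 0
      rw [k5 p.2 p.1]; rfl
    have e4 : f4 C.M2 p = 0 := by
      show ((C.M2 p.2 p.2 p.1, 0) : Vs m k) = 0
      rw [k4 p.2 p.1]; rfl
    have e3 : f3 C.c1 C.a2 C.β2 p = 0 := by
      show ((C.c1 p.2 p.1 p.1 + C.a2 p.2 p.2, C.β2 p.2 p.2 p.1) : Vs m k) = 0
      obtain ⟨q1, q2, q3⟩ := k3 p.2 p.1
      rw [q1, q2, q3, add_zero]; rfl
    rw [hC p hp, e5, e4, e3, Fin.sum_univ_five]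
    simp only [add_zero]
    rfl

end KVB
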