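import Pool.Agent.Lib.KV.B.SpecS

set_option autoImplicit false

open Set Filter Topology Metric

namespace KVB

open KP

namespace HPLAux

theorem hp_open : IsOpen {ζ : ℂ | 0 < ζ.im} := isOpen_lt continuous_const Complex.continuous_im

theorem hp_pre : IsPreconnected {ζ : ℂ | 0 < ζ.im} :=
  (convex_halfSpace_im_gt 0).isPreconnected

/-- The Schwarz-Pick inequality for the upper half plane. -/
theorem pick (f : ℂ → ℂ) (hf : DifferentiableOn ℂ f {ζ | 0 < ζ.im})
    (hm : ∀ ζ : ℂ, 0 < ζ.im → 0 < (f ζ).im) (a : ℂ) (ha : 0 < a.im) :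
    ‖deriv f a‖ * a.im ≤ (f a).im := by
  set b : ℂ := f a with hb
  have hb0 : 0 < b.im := hm a ha
  set φ : ℂ → ℂ := fun u => (a - (starRingEnd ℂ) a * u) / (1 - u) with hφ
  set ψ : ℂ → ℂ := fun w => (w - b) / (w - (starRingEnd ℂ) b) with hψ
  have hne1 : ∀ u ∈ ball (0 : ℂ) 1, (1 : ℂ) - u ≠ 0 := by
    intro u hu h
    rw [mem_ball_zero_iff] at hu
    have : u = 1 := (sub_eq_zero.1 h).symm
    rw [this, norm_one] at hu
    exact lt_irrefl _ hu
  have hφim : ∀ u ∈ ball (0 : ℂ) 1, 0 < (φ u).im := by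
    intro u hu
    have h1 := hne1 u hu
    have h2 : 0 < Complex.normSq (1 - u) := Complex.normSq_pos.2 h1
    rw [mem_ball_zero_iff] at hu
    have h3 : Complex.normSq u < 1 := by
      rw [Complex.normSq_eq_norm_sq]
      nlinarith [norm_nonneg u]
    have h4 : (φ u).im = a.im * (1 - Complex.normSq u) / Complex.normSq (1 - u) := by
      rw [hφ]
      simp only [Complex.div_im, Complex.sub_re, Complex.sub_im, Complex.mul_re, Complex.mul_im,
        Complex.conj_re, Complex.conj_im, Complex.one_re, Complex.one_im, Complex.normSq_apply]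
      field_simp
      ring
    rw [h4]
    exact div_pos (mul_pos ha (by linarith)) h2
  have hne2 : ∀ w : ℂ, 0 < w.im → w - (starRingEnd ℂ) b ≠ 0 := by
    intro w hw h
    have := congrArg Complex.im h
    simp only [Complex.sub_im, Complex.conj_im, Complex.zero_im] at this
    linarith
  have hψn : ∀ w : ℂ, 0 < w.im → ‖ψ w‖ < 1 := by
    intro w hw
    rw [hψ]
    simp only [norm_div]
    rw [div_lt_one (norm_pos_iff.2 (hne2 w hw))]
    have h5 : Complex.normSq (w - b) < Complex.normSq (w - (starRingEnd ℂ) b) := by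
      simp only [Complex.normSq_apply, Complex.sub_re, Complex.sub_im, Complex.conj_re,
        Complex.conj_im]
      nlinarith [mul_pos hw hb0]
    rw [Complex.normSq_eq_norm_sq, Complex.normSq_eq_norm_sq] at h5
    exact lt_of_pow_lt_pow_left₀ 2 (norm_nonneg _) h5
  have hφd : HasDerivAt φ (a - (starRingEnd ℂ) a) 0 := by
    have h6 : HasDerivAt (fun u : ℂ => a - (starRingEnd ℂ) a * u) (-(starRingEnd ℂ) a) 0 := by
      have := ((hasDerivAt_id (0 : ℂ)).const_mul ((starRingEnd ℂ) a)).const_sub a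
      simpa using this
    have h7 : HasDerivAt (fun u : ℂ => 1 - u) (-1) 0 := by
      simpa using (hasDerivAt_id (0 : ℂ)).const_sub 1
    have h8 := h6.div h7 (by simp)
    have h9 : (-(starRingEnd ℂ) a * (1 - 0) - (a - (starRingEnd ℂ) a * 0) * -1) / (1 - 0) ^ 2 =
        a - (starRingEnd ℂ) a := by ring
    rw [h9] at h8
    exact h8
  have hψd : HasDerivAt ψ (1 / (b - (starRingEnd ℂ) b)) b := by
    have h6 : HasDerivAt (fun w : ℂ => w - b) 1 b := (hasDerivAt_id b).sub_const b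
    have h7 : HasDerivAt (fun w : ℂ => w - (starRingEnd ℂ) b) 1 b :=
      (hasDerivAt_id b).sub_const _
    have h10 : b - (starRingEnd ℂ) b ≠ 0 := hne2 b hb0
    have h8 := h6.div h7 h10
    have h9 : (1 * (b - (starRingEnd ℂ) b) - (b - b) * 1) / (b - (starRingEnd ℂ) b) ^ 2 =
        1 / (b - (starRingEnd ℂ) b) := by
      rw [sub_self, zero_mul, sub_zero, one_mul, pow_two, ← div_div, div_self h10]
    rw [h9] at h8
    exact h8
  have hφ0 : φ 0 = a := by simp [hφ]
  have hfd : HasDerivAt f (deriv f a) a :=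
    (hf.differentiableAt (hp_open.mem_nhds ha)).hasDerivAt
  have hg : HasDerivAt (fun u => ψ (f (φ u)))
      (1 / (b - (starRingEnd ℂ) b) * (deriv f a * (a - (starRingEnd ℂ) a))) 0 := by
    have h11 : HasDerivAt (fun u => f (φ u)) (deriv f a * (a - (starRingEnd ℂ) a)) 0 := by
      refine HasDerivAt.comp (0 : ℂ) ?_ hφd
      rw [hφ0]
      exact hfd
    have h12 : HasDerivAt ψ (1 / (b - (starRingEnd ℂ) b)) (f (φ 0)) := by
      rw [hφ0]
      exact hψd
    exact HasDerivAt.comp (0 : ℂ) h12 h11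
  have hgd : DifferentiableOn ℂ (fun u => ψ (f (φ u))) (ball 0 1) := by
    intro u hu
    have h13 : DifferentiableAt ℂ φ u := by
      refine DifferentiableAt.div ?_ ?_ (hne1 u hu)
      · exact (differentiableAt_const _).sub ((differentiableAt_const _).mul differentiableAt_id)
      · exact (differentiableAt_const _).sub differentiableAt_id
    have h14 : DifferentiableAt ℂ f (φ u) :=
      hf.differentiableAt (hp_open.mem_nhds (hφim u hu))
    have h15 : DifferentiableAt ℂ ψ (f (φ u)) := by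
      refine DifferentiableAt.div ?_ ?_ (hne2 _ (hm _ (hφim u hu)))
      · exact differentiableAt_id.sub (differentiableAt_const _)
      · exact differentiableAt_id.sub (differentiableAt_const _)
    exact (DifferentiableAt.comp u h15 (DifferentiableAt.comp u h14 h13)).differentiableWithinAt
  have hg0 : ψ (f (φ 0)) = 0 := by
    rw [hφ0]
    simp [hψ, ← hb]
  have hmap : MapsTo (fun u => ψ (f (φ u))) (ball 0 1) (closedBall (ψ (f (φ 0))) 1) := by
    intro u hu
    rw [hg0, mem_closedBall_zero_iff]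
    exact (hψn _ (hm _ (hφim u hu))).le
  have h16 := Complex.norm_deriv_le_one_of_mapsTo_ball hgd hmap one_pos
  rw [hg.deriv, norm_mul, norm_div, norm_one, norm_mul] at h16
  have hn : ∀ c : ℂ, 0 < c.im → ‖c - (starRingEnd ℂ) c‖ = 2 * c.im := by
    intro c hc
    rw [Complex.sub_conj, norm_mul, Complex.norm_I, mul_one, Complex.norm_real,
      Real.norm_eq_abs, abs_of_pos (by positivity)]
  rw [hn b hb0, hn a ha] at h16
  have h17 : 1 / (2 * b.im) * (‖deriv f a‖ * (2 * a.im)) = ‖deriv f a‖ * a.im / b.im := by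
    field_simp
  rw [h17, div_le_one hb0] at h16
  exact h16

theorem small {δ K : ℝ} (h : ∀ t : ℝ, 0 < t → t ≤ 1 → δ ≤ K * t) : δ ≤ 0 := by
  refine le_of_forall_pos_le_add fun ε hε => ?_
  have hK : 0 < |K| + 1 := by positivity
  have ht : 0 < min 1 (ε / (|K| + 1)) := lt_min one_pos (div_pos hε hK)
  have h1 := h _ ht (min_le_left _ _)
  have h2 : K * min 1 (ε / (|K| + 1)) ≤ (|K| + 1) * (ε / (|K| + 1)) := by
    refine mul_le_mul ?_ (min_le_right _ _) ht.le hK.le
    linarith [le_abs_self K]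
  rw [mul_div_cancel₀ _ hK.ne'] at h2
  linarith

/-- The infinitesimal Schwarz-Pick identity. -/
theorem identity (F : ℝ → ℂ → ℂ) (G : ℂ → ℂ) (hG : DifferentiableOn ℂ G {ζ | 0 < ζ.im})
    (hF : ∀ s : ℝ, |s| ≤ 1 → DifferentiableOn ℂ (F s) {ζ | 0 < ζ.im} ∧
      ∀ ζ : ℂ, 0 < ζ.im → 0 < (F s ζ).im)
    (hE : ∀ Q ⊆ {ζ : ℂ | 0 < ζ.im}, IsCompact Q → ∃ C : ℝ, ∀ s : ℝ, |s| ≤ 1 → ∀ ζ ∈ Q,
      ‖F s ζ - ζ - s * G ζ‖ ≤ C * s ^ 2) (ζ : ℂ) (hζ : 0 < ζ.im) :
    (G ζ).im = ζ.im * (deriv G ζ).re := by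
  set r : ℝ := ζ.im / 2 with hr
  have hr0 : 0 < r := by positivity
  have hQ : closedBall ζ r ⊆ {ζ : ℂ | 0 < ζ.im} := by
    intro z hz
    rw [mem_closedBall, Complex.dist_eq] at hz
    have h1 : |(z - ζ).im| ≤ ‖z - ζ‖ := Complex.abs_im_le_norm _
    have h2 := (abs_le.1 (h1.trans hz)).1
    rw [Complex.sub_im] at h2
    show 0 < z.im
    linarith
  obtain ⟨C, hC⟩ := hE _ hQ (isCompact_closedBall ζ r)
  set K : ℝ := C + C / r * ζ.im with hK
  have key : ∀ s : ℝ, |s| ≤ 1 → s * ((deriv G ζ).re * ζ.im - (G ζ).im) ≤ K * s ^ 2 := by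
    intro s hs
    obtain ⟨h1, h2⟩ := hF s hs
    have hmem : ζ ∈ {ζ : ℂ | 0 < ζ.im} := hζ
    have hn := hp_open.mem_nhds hmem
    have hFd := (h1.differentiableAt hn).hasDerivAt
    have hGd := (hG.differentiableAt hn).hasDerivAt
    have hEd : HasDerivAt (fun z => F s z - z - s * G z) (deriv (F s) ζ - 1 - s * deriv G ζ) ζ :=
      (hFd.sub (hasDerivAt_id ζ)).sub (hGd.const_mul _)
    have hdiff : DifferentiableOn ℂ (fun z => F s z - z - s * G z) {ζ | 0 < ζ.im} :=
      (h1.sub differentiableOn_id).sub (hG.const_mul _)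
    have hcl : DiffContOnCl ℂ (fun z => F s z - z - s * G z) (ball ζ r) := by
      refine DifferentiableOn.diffContOnCl ?_
      rw [closure_ball ζ hr0.ne']
      exact hdiff.mono hQ
    have h3 : ‖deriv (fun z => F s z - z - s * G z) ζ‖ ≤ C * s ^ 2 / r :=
      Complex.norm_deriv_le_of_forall_mem_sphere_norm_le hr0 hcl
        (fun z hz => hC s hs z (sphere_subset_closedBall hz))
    rw [hEd.deriv] at h3
    have h4 := hC s hs ζ (mem_closedBall_self hr0.le)
    have h5 := pick (F s) h1 h2 ζ hζ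
    have h6 : (deriv (F s) ζ).re ≤ ‖deriv (F s) ζ‖ := Complex.re_le_norm _
    have h7 : |(deriv (F s) ζ - 1 - s * deriv G ζ).re| ≤ C * s ^ 2 / r :=
      (Complex.abs_re_le_norm _).trans h3
    have h8 : |(F s ζ - ζ - s * G ζ).im| ≤ C * s ^ 2 := (Complex.abs_im_le_norm _).trans h4
    simp only [Complex.sub_re, Complex.sub_im, Complex.mul_re, Complex.mul_im, Complex.ofReal_re,
      Complex.ofReal_im, zero_mul, sub_zero, add_zero, Complex.one_re] at h7 h8
    have h9 := (abs_le.1 h7).1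
    have h10 := (abs_le.1 h8).2
    have h11 : (1 + s * (deriv G ζ).re - C * s ^ 2 / r) * ζ.im ≤ (F s ζ).im :=
      (mul_le_mul_of_nonneg_right (by linarith) hζ.le).trans h5
    have h12 : C * s ^ 2 / r * ζ.im = C / r * ζ.im * s ^ 2 := by ring
    rw [hK]
    nlinarith
  have h13 : (deriv G ζ).re * ζ.im - (G ζ).im ≤ 0 := by
    refine small (K := K) fun t ht ht1 => ?_
    have := key t (by rw [abs_of_pos ht]; exact ht1)
    nlinarith
  have h14 : -((deriv G ζ).re * ζ.im - (G ζ).im) ≤ 0 := by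
    refine small (K := K) fun t ht ht1 => ?_
    have := key (-t) (by rw [abs_neg, abs_of_pos ht]; exact ht1)
    nlinarith
  linarith

theorem const_of_deriv (h : ℂ → ℂ) (hd : DifferentiableOn ℂ h {ζ | 0 < ζ.im})
    (h0 : ∀ ζ : ℂ, 0 < ζ.im → deriv h ζ = 0) (ζ : ℂ) (hζ : 0 < ζ.im) : h ζ = h Complex.I := by
  have hI : Complex.I ∈ {ζ : ℂ | 0 < ζ.im} := by
    show 0 < Complex.I.im
    rw [Complex.I_im]; exact one_pos
  exact hp_open.is_const_of_deriv_eq_zero hp_pre hd (fun z hz => h0 z hz) hζ hI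

/-- Derivative along the vertical line. -/
theorem vert (h : ℂ → ℂ) (h' ζ : ℂ) (hd : HasDerivAt h h' ζ) :
    HasDerivAt (fun t : ℝ => h (ζ + t * Complex.I)) (h' * Complex.I) 0 := by
  have h1 : HasDerivAt (fun t : ℝ => ζ + (t : ℂ) * Complex.I) Complex.I 0 := by
    have h2 : HasDerivAt (fun t : ℝ => (t : ℂ)) 1 0 := Complex.ofRealCLM.hasDerivAt
    have h3 := (h2.mul_const Complex.I).const_add ζ
    rwa [one_mul] at h3
  refine HasDerivAt.comp (0 : ℝ) ?_ h1
  simpa using hd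

theorem horiz (h : ℂ → ℂ) (h' ζ : ℂ) (hd : HasDerivAt h h' ζ) :
    HasDerivAt (fun t : ℝ => h (ζ + t)) h' 0 := by
  have h1 : HasDerivAt (fun t : ℝ => ζ + (t : ℂ)) 1 0 := by
    have h2 : HasDerivAt (fun t : ℝ => (t : ℂ)) 1 0 := Complex.ofRealCLM.hasDerivAt
    exact h2.const_add ζ
  have h4 : HasDerivAt h h' (ζ + ((0 : ℝ) : ℂ)) := by simpa using hd
  have h5 := HasDerivAt.comp (0 : ℝ) h4 h1
  rwa [mul_one] at h5

theorem re_of {f : ℝ → ℂ} {f' : ℂ} {t : ℝ} (h : HasDerivAt f f' t) :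
    HasDerivAt (fun s => (f s).re) f'.re t := by
  exact Complex.reCLM.hasFDerivAt.comp_hasDerivAt t h

theorem im_of {f : ℝ → ℂ} {f' : ℂ} {t : ℝ} (h : HasDerivAt f f' t) :
    HasDerivAt (fun s => (f s).im) f'.im t := by
  exact Complex.imCLM.hasFDerivAt.comp_hasDerivAt t h

theorem ev_vert (ζ : ℂ) (hζ : 0 < ζ.im) : ∀ᶠ t : ℝ in 𝓝 0, 0 < (ζ + t * Complex.I).im := by
  have hc : Continuous fun t : ℝ => (ζ + t * Complex.I).im := by fun_prop
  have h1 : (0 : ℝ) < (ζ + ((0 : ℝ) : ℂ) * Complex.I).im := by simpa using hζ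
  exact hc.continuousAt.eventually (isOpen_Ioi.mem_nhds h1)

theorem ev_horiz (ζ : ℂ) (hζ : 0 < ζ.im) : ∀ᶠ t : ℝ in 𝓝 0, 0 < (ζ + t).im :=
  Filter.Eventually.of_forall fun t => by simpa using hζ

theorem const_of_real (h : ℂ → ℂ) (hd : DifferentiableOn ℂ h {ζ | 0 < ζ.im})
    (h0 : ∀ ζ : ℂ, 0 < ζ.im → (h ζ).im = 0) (ζ : ℂ) (hζ : 0 < ζ.im) : h ζ = h Complex.I := by
  refine const_of_deriv h hd (fun z hz => ?_) ζ hζ
  have hz' : z ∈ {ζ : ℂ | 0 < ζ.im} := hz
  have hD := (hd.differentiableAt (hp_open.mem_nhds hz')).hasDerivAt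
  apply Complex.ext
  · have h1 := im_of (vert h _ z hD)
    have h2 : (fun t : ℝ => (h (z + t * Complex.I)).im) =ᶠ[𝓝 0] fun _ => 0 := by
      filter_upwards [ev_vert z hz] with t ht
      exact h0 _ ht
    have h3 := (h1.congr_of_eventuallyEq h2.symm).unique (hasDerivAt_const (0 : ℝ) (0 : ℝ))
    simpa using h3
  · have h1 := im_of (horiz h _ z hD)
    have h2 : (fun t : ℝ => (h (z + t)).im) =ᶠ[𝓝 0] fun _ => 0 := by
      filter_upwards [ev_horiz z hz] with t ht
      exact h0 _ ht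
    exact (h1.congr_of_eventuallyEq h2.symm).unique (hasDerivAt_const (0 : ℝ) (0 : ℝ))

end HPLAux

open HPLAux in
theorem tHPL : S_HPL := by
  intro F G hG hF hE
  have hid := identity F G hG hF hE
  have hG1 : DifferentiableOn ℂ (deriv G) {ζ | 0 < ζ.im} := hG.deriv hp_open
  have hG2 : DifferentiableOn ℂ (deriv (deriv G)) {ζ | 0 < ζ.im} := hG1.deriv hp_open
  have hdG : ∀ ζ : ℂ, 0 < ζ.im → HasDerivAt G (deriv G ζ) ζ := fun ζ hζ =>
    (hG.differentiableAt (hp_open.mem_nhds (show ζ ∈ {ζ : ℂ | 0 < ζ.im} from hζ))).hasDerivAt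
  have hdG1 : ∀ ζ : ℂ, 0 < ζ.im → HasDerivAt (deriv G) (deriv (deriv G) ζ) ζ := fun ζ hζ =>
    (hG1.differentiableAt (hp_open.mem_nhds (show ζ ∈ {ζ : ℂ | 0 < ζ.im} from hζ))).hasDerivAt
  -- the second derivative is real
  have hreal : ∀ ζ : ℂ, 0 < ζ.im → (deriv (deriv G) ζ).im = 0 := by
    intro ζ hζ
    have h1 := im_of (vert G _ ζ (hdG ζ hζ))
    have h2 := re_of (vert (deriv G) _ ζ (hdG1 ζ hζ))
    have h3 : HasDerivAt (fun t : ℝ => ζ.im + t) 1 0 := (hasDerivAt_id (0 : ℝ)).const_add _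
    have h4 := h3.mul h2
    have h5 : (fun t : ℝ => (G (ζ + t * Complex.I)).im) =ᶠ[𝓝 0]
        fun t : ℝ => (ζ.im + t) * (deriv G (ζ + t * Complex.I)).re := by
      filter_upwards [ev_vert ζ hζ] with t ht
      rw [hid _ ht]
      simp
    have h6 := (h4.congr_of_eventuallyEq h5).unique h1
    simp only [Complex.mul_re, Complex.mul_im, Complex.I_re, Complex.I_im, mul_zero, mul_one,
      zero_sub, Complex.ofReal_zero, zero_mul, add_zero, one_mul] at h6
    have h7 : ζ.im * (deriv (deriv G) ζ).im = 0 := by linarith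
    exact (mul_eq_zero.1 h7).resolve_left hζ.ne'
  set κ : ℂ := deriv (deriv G) Complex.I with hκ
  have hI : 0 < Complex.I.im := by rw [Complex.I_im]; exact one_pos
  have hκr : κ.im = 0 := hreal _ hI
  have hκ2 : ∀ ζ : ℂ, 0 < ζ.im → deriv (deriv G) ζ = κ := const_of_real _ hG2 hreal
  -- first integration
  set b : ℂ := deriv G Complex.I - κ * Complex.I with hb
  have hG1v : ∀ ζ : ℂ, 0 < ζ.im → deriv G ζ = b + κ * ζ := by
    intro ζ hζ
    have h1 := const_of_deriv (fun z => deriv G z - κ * z)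
      (hG1.sub (differentiableOn_id.const_mul _)) (fun z hz => by
        have h2 : HasDerivAt (fun z => deriv G z - κ * z) (deriv (deriv G) z - κ * 1) z :=
          (hdG1 z hz).sub ((hasDerivAt_id z).const_mul κ)
        rw [h2.deriv, hκ2 z hz, mul_one, sub_self]) ζ hζ
    have h1' : deriv G ζ - κ * ζ = b := h1
    rw [← h1']
    ring
  set a : ℂ := G Complex.I - b * Complex.I - κ / 2 * Complex.I ^ 2 with ha
  have hGv : ∀ ζ : ℂ, 0 < ζ.im → G ζ = a + b * ζ + κ / 2 * ζ ^ 2 := by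
    intro ζ hζ
    have h1 := const_of_deriv (fun z => G z - b * z - κ / 2 * z ^ 2)
      ((hG.sub (differentiableOn_id.const_mul _)).sub
        ((differentiableOn_id.pow 2).const_mul _)) (fun z hz => by
        have h2 : HasDerivAt (fun z => G z - b * z - κ / 2 * z ^ 2)
            (deriv G z - b * 1 - κ / 2 * ((2 : ℕ) * z ^ (2 - 1))) z := by
          have h3 := hasDerivAt_pow 2 z
          exact ((hdG z hz).sub ((hasDerivAt_id z).const_mul b)).sub (h3.const_mul (κ / 2))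
        rw [h2.deriv, hG1v z hz]
        norm_num
        ring) ζ hζ
    have h1' : G ζ - b * ζ - κ / 2 * ζ ^ 2 = a := h1
    rw [← h1']
    ring
  have e1 := hid Complex.I hI
  have h1I : (0 : ℝ) < (1 + Complex.I).im := by simp
  have e2 := hid (1 + Complex.I) h1I
  rw [hGv _ hI, hG1v _ hI] at e1
  rw [hGv _ h1I, hG1v _ h1I] at e2
  obtain ⟨c, hc⟩ : ∃ c : ℝ, κ = 2 * c := by
    refine ⟨κ.re / 2, ?_⟩
    apply Complex.ext
    · simp
      ring
    · simp [hκr]
  rw [hc] at e1 e2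
  have hc2 : (2 * (c : ℂ)) / 2 = c := by ring
  rw [hc2] at e1 e2
  simp only [Complex.add_im, Complex.add_re, Complex.mul_im, Complex.mul_re, Complex.I_re,
    Complex.I_im, Complex.one_re, Complex.one_im, Complex.ofReal_re, Complex.ofReal_im, pow_two,
    Complex.re_ofNat, Complex.im_ofNat] at e1 e2
  have ha0 : a.im = 0 := by linarith
  have hb0 : b.im = 0 := by linarith
  refine ⟨a.re, b.re, c, fun ζ hζ => ?_⟩
  rw [hGv ζ hζ, hc, hc2]
  have h1 : (a.re : ℂ) = a := by
    apply Complex.ext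
    · simp
    · simp [ha0]
  have h2 : (b.re : ℂ) = b := by
    apply Complex.ext
    · simp
    · simp [hb0]
  rw [h1, h2]

end KVB
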