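import Pool.Agent.Lib.KV.B.SpecS

set_option autoImplicit false

open Set Filter Topology Metric

namespace KVB

open KP

namespace HalfPAux

variable {m k : ℕ}

theorem dc_add (l : Fin k → ℝ) (w w' : Cn k) : dc l (w + w') = dc l w + dc l w' := by
  simp only [dc, Pi.add_apply, mul_add, Finset.sum_add_distrib]

theorem dc_smul (l : Fin k → ℝ) (c : ℂ) (w : Cn k) : dc l (c • w) = c * dc l w := by
  simp only [dc, Pi.smul_apply, smul_eq_mul, Finset.mul_sum]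
  exact Finset.sum_congr rfl fun j _ => by ring

theorem dc_sub (l : Fin k → ℝ) (w w' : Cn k) : dc l (w - w') = dc l w - dc l w' := by
  simp only [dc, Pi.sub_apply, mul_sub, Finset.sum_sub_distrib]

theorem dc_im (l : Fin k → ℝ) (w : Cn k) : (dc l w).im = dt l (imv w) := by
  simp only [dc, dt, imv, Complex.im_sum, Complex.im_ofReal_mul]

theorem dc_re (l : Fin k → ℝ) (w : Cn k) : (dc l w).re = dt l (rev w) := by
  simp only [dc, dt, rev, Complex.re_sum, Complex.re_ofReal_mul]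

theorem dc_cx (l : Fin k → ℝ) (y : Fin k → ℝ) : dc l (cx y) = (dt l y : ℂ) := by
  simp only [dc, dt, cx]
  push_cast
  rfl

theorem dt_sub (l y y' : Fin k → ℝ) : dt l (y - y') = dt l y - dt l y' := by
  simp only [dt, Pi.sub_apply, mul_sub, Finset.sum_sub_distrib]

/-- The linear form `(z, w) ↦ dc l (w - 2 i h(z, z0))`. -/
noncomputable def La (F : Fin k → Matrix (Fin m) (Fin m) ℂ) (l : Fin k → ℝ) (z0 : Cn m) :
    Vs m k →ₗ[ℂ] ℂ where
  toFun p := dc l (p.2 - (2 * Complex.I) • hf F p.1 z0)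
  map_add' p p' := by
    simp only [Prod.snd_add, Prod.fst_add, hf_add_left, smul_add, dc_sub, dc_add]
    ring
  map_smul' c p := by
    simp only [Prod.smul_snd, Prod.smul_fst, hf_smul_left, dc_sub, dc_smul, RingHom.id_apply,
      smul_eq_mul]
    ring

theorem La_apply (F : Fin k → Matrix (Fin m) (Fin m) ℂ) (l : Fin k → ℝ) (z0 : Cn m)
    (p : Vs m k) : La F l z0 p = dc l (p.2 - (2 * Complex.I) • hf F p.1 z0) := rfl

theorem re_form {F : Fin k → Matrix (Fin m) (Fin m) ℂ} {Om : Set (Fin k → ℝ)} (h : Sie F Om)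
    (l : Fin k → ℝ) (z z' : Cn m) : (dc l (hf F z z')).re = (dc l (hf F z' z)).re := by
  rw [dc_re, dc_re]
  simp only [dt, rev]
  refine Finset.sum_congr rfl fun j _ => ?_
  rw [← hf_conj h z z' j, Complex.conj_re]

theorem diff_form {F : Fin k → Matrix (Fin m) (Fin m) ℂ} {Om : Set (Fin k → ℝ)} (h : Sie F Om)
    (l : Fin k → ℝ) (z z0 : Cn m) : dt l (rev (hf F (z - z0) (z - z0))) =
      dt l (rev (hf F z z)) - 2 * (dc l (hf F z z0)).re + dt l (rev (hf F z0 z0)) := by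
  have h1 : hf F (z - z0) (z - z0) = hf F z z - hf F z z0 - hf F z0 z + hf F z0 z0 := by
    have h2 : z - z0 = z + (-1 : ℂ) • z0 := by simp [sub_eq_add_neg]
    rw [h2, hf_add_left, hf_add_right, hf_add_right, hf_smul_left, hf_smul_left, hf_smul_right,
      hf_smul_right]
    simp only [map_neg, map_one, neg_smul, one_smul, neg_neg]
    abel
  rw [h1, ← dc_re, ← dc_re, ← dc_re, dc_add, dc_sub, dc_sub, Complex.add_re, Complex.sub_re,
    Complex.sub_re, re_form h l z0 z]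
  ring

theorem im_pos {F : Fin k → Matrix (Fin m) (Fin m) ℂ} {Om : Set (Fin k → ℝ)} (h : Sie F Om)
    (l : Fin k → ℝ) (hl1 : ∀ y ∈ Om, 0 < dt l y) (hl2 : ∀ y ∈ closure Om, 0 ≤ dt l y)
    (z0 : Cn m) (r : ℝ) (p : Vs m k) (hp : p ∈ SD F Om) :
    0 < (La F l z0 p + (Complex.I * dc l (hf F z0 z0) - (r : ℂ))).im := by
  have h1 := hl1 _ hp
  have h2 := hl2 _ (h.psd (p.1 - z0))
  rw [diff_form h] at h2
  rw [dt_sub] at h1
  rw [La_apply, dc_sub, dc_smul]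
  have h3 : (dc l p.2).im = dt l (imv p.2) := dc_im l p.2
  have h4 : (dc l (hf F z0 z0)).re = dt l (rev (hf F z0 z0)) := dc_re _ _
  simp only [Complex.add_im, Complex.sub_im, Complex.mul_im, Complex.mul_re, Complex.I_re,
    Complex.I_im, Complex.ofReal_im, Complex.re_ofNat, Complex.im_ofNat]
  rw [h3, h4]
  linarith

theorem mem_D {F : Fin k → Matrix (Fin m) (Fin m) ℂ} {Om : Set (Fin k → ℝ)} (h : Sie F Om)
    (hadd : ∀ y ∈ closure Om, ∀ y' ∈ Om, y + y' ∈ Om) (z0 : Cn m) (w0 : Cn k)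
    (h0 : imv w0 - rev (hf F z0 z0) ∈ closure Om) (η : Fin k → ℝ) (hη : η ∈ Om) (ζ : ℂ)
    (hζ : 0 < ζ.im) : ((z0, w0 + ζ • cx η) : Vs m k) ∈ SD F Om := by
  show imv (w0 + ζ • cx η) - rev (hf F z0 z0) ∈ Om
  have h1 : imv (w0 + ζ • cx η) - rev (hf F z0 z0) =
      (imv w0 - rev (hf F z0 z0)) + ζ.im • η := by
    ext j
    simp only [imv, rev, cx, Pi.sub_apply, Pi.add_apply, Pi.smul_apply, smul_eq_mul,
      Complex.add_im, Complex.mul_im, Complex.ofReal_re, Complex.ofReal_im]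
    ring
  rw [h1]
  exact hadd _ h0 _ (h.cone η hη _ hζ)

theorem val_P {F : Fin k → Matrix (Fin m) (Fin m) ℂ} {Om : Set (Fin k → ℝ)} (h : Sie F Om)
    (l : Fin k → ℝ) (z0 : Cn m) (w0 : Cn k) (h0 : dt l (imv w0 - rev (hf F z0 z0)) = 0)
    (η : Fin k → ℝ) (ζ : ℂ) :
    La F l z0 ((z0, w0 + ζ • cx η) : Vs m k) +
      (Complex.I * dc l (hf F z0 z0) - ((dc l w0).re : ℂ)) = ζ * (dt l η : ℂ) := by
  rw [La_apply]
  simp only [dc_sub, dc_add, dc_smul, dc_cx]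
  have h1 : dc l (hf F z0 z0) = (dt l (rev (hf F z0 z0)) : ℂ) := by
    rw [← hf_self h z0, dc_cx]
    have h3 : rev (cx (rev (hf F z0 z0))) = rev (hf F z0 z0) := by
      ext j
      simp [rev, cx]
    rw [h3]
  have h2 : dc l w0 = ((dc l w0).re : ℂ) + (dt l (imv w0) : ℂ) * Complex.I := by
    rw [← dc_im]
    exact (Complex.re_add_im _).symm
  rw [dt_sub] at h0
  have h4 : (dt l (imv w0) : ℂ) = (dt l (rev (hf F z0 z0)) : ℂ) := by
    have : dt l (imv w0) = dt l (rev (hf F z0 z0)) := by linarith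
    rw [this]
  rw [h1]
  calc dc l w0 + ζ * (dt l η : ℂ) - 2 * Complex.I * (dt l (rev (hf F z0 z0)) : ℂ) +
        (Complex.I * (dt l (rev (hf F z0 z0)) : ℂ) - ((dc l w0).re : ℂ))
      = (((dc l w0).re : ℂ) + (dt l (imv w0) : ℂ) * Complex.I) + ζ * (dt l η : ℂ) -
        2 * Complex.I * (dt l (rev (hf F z0 z0)) : ℂ) +
        (Complex.I * (dt l (rev (hf F z0 z0)) : ℂ) - ((dc l w0).re : ℂ)) := by rw [← h2]
    _ = ζ * (dt l η : ℂ) := by rw [h4]; ring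

end HalfPAux

open HalfPAux in
theorem tHalfP (h1 : S_LamP) (h2 : S_HPL) (h3 : S_FlB) : S_HalfP := by
  intro m k F Om hS hH X hX l hl z0 w0 hw0 hw1 η hη
  obtain ⟨hl1, hl2, hadd, -, -, -, -⟩ := h1 m k F Om hS
  obtain ⟨hXd, φ, hφ⟩ := hX
  set τ : ℝ := dt l η with hτ
  have hτ0 : 0 < τ := hl1 l hl η hη
  have hτc : (τ : ℂ) ≠ 0 := Complex.ofReal_ne_zero.2 hτ0.ne'
  set κ0 : ℂ := Complex.I * dc l (hf F z0 z0) - ((dc l w0).re : ℂ) with hκ0
  set P : ℂ → Vs m k := fun ζ => (z0, w0 + ζ • cx η) with hP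
  set A : Vs m k →L[ℂ] ℂ := LinearMap.toContinuousLinearMap (La F l z0) with hA
  have hAa : ∀ p, A p = La F l z0 p := fun p => rfl
  have hPd : Differentiable ℂ P :=
    (differentiable_const z0).prodMk ((differentiable_const w0).add
      (differentiable_id.smul_const (cx η)))
  have hPD : ∀ ζ : ℂ, 0 < ζ.im → P ζ ∈ SD F Om := fun ζ hζ =>
    mem_D hS hadd z0 w0 hw0 η hη ζ hζ
  have hval : ∀ ζ : ℂ, A (P ζ) + κ0 = ζ * τ := fun ζ => val_P hS l z0 w0 hw1 η ζ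
  have hG : DifferentiableOn ℂ (fun ζ => A (X (P ζ)) / τ) {ζ : ℂ | 0 < ζ.im} := by
    have h4 : DifferentiableOn ℂ (fun ζ => X (P ζ)) {ζ : ℂ | 0 < ζ.im} :=
      hXd.comp hPd.differentiableOn (fun ζ hζ => hPD ζ hζ)
    exact (A.differentiable.comp_differentiableOn h4).div_const _
  have hF1 : ∀ s : ℝ, |s| ≤ 1 →
      DifferentiableOn ℂ ((fun (s : ℝ) (ζ : ℂ) => (A (φ s (P ζ)) + κ0) / τ) s) {ζ | 0 < ζ.im} ∧
      ∀ ζ : ℂ, 0 < ζ.im → 0 < ((fun (s : ℝ) (ζ : ℂ) => (A (φ s (P ζ)) + κ0) / τ) s ζ).im := by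
    intro s _
    constructor
    · have h4 : DifferentiableOn ℂ (fun ζ => φ s (P ζ)) {ζ : ℂ | 0 < ζ.im} :=
        (hφ.dif s).comp hPd.differentiableOn (fun ζ hζ => hPD ζ hζ)
      exact ((A.differentiable.comp_differentiableOn h4).add_const _).div_const _
    · intro ζ hζ
      have h5 := im_pos hS l (hl1 l hl) (hl2 l hl) z0 (dc l w0).re (φ s (P ζ))
        (hφ.maps s (hPD ζ hζ))
      show 0 < ((A (φ s (P ζ)) + κ0) / τ).im
      rw [Complex.div_ofReal_im]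
      exact div_pos h5 hτ0
  have hF2 : ∀ Q ⊆ {ζ : ℂ | 0 < ζ.im}, IsCompact Q → ∃ C : ℝ, ∀ s : ℝ, |s| ≤ 1 → ∀ ζ ∈ Q,
      ‖(fun (s : ℝ) (ζ : ℂ) => (A (φ s (P ζ)) + κ0) / τ) s ζ - ζ -
        s * (fun ζ => A (X (P ζ)) / τ) ζ‖ ≤ C * s ^ 2 := by
    intro Q hQ hQc
    obtain ⟨C, hC⟩ := (h3 (Vs m k) (SD F Om) hH X φ hXd hφ).2.1 (P '' Q)
      (by rintro _ ⟨ζ, hζ, rfl⟩; exact hPD ζ (hQ hζ)) (hQc.image hPd.continuous)
    refine ⟨‖A‖ * C / τ, fun s hs ζ hζ => ?_⟩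
    have h4 := hC s hs (P ζ) (mem_image_of_mem _ hζ)
    have h5 : (A (φ s (P ζ)) + κ0) / τ - ζ - s * (A (X (P ζ)) / τ) =
        A (φ s (P ζ) - P ζ - s • X (P ζ)) / τ := by
      have h6 : (s • X (P ζ) : Vs m k) = (s : ℂ) • X (P ζ) := (Complex.coe_smul s _).symm
      rw [h6, map_sub, map_sub, map_smul, smul_eq_mul]
      have h7 := hval ζ
      have h8 : ζ = (A (P ζ) + κ0) / τ := by rw [h7, mul_div_cancel_right₀ _ hτc]
      calc (A (φ s (P ζ)) + κ0) / τ - ζ - s * (A (X (P ζ)) / τ)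
          = (A (φ s (P ζ)) + κ0) / τ - (A (P ζ) + κ0) / τ - s * (A (X (P ζ)) / τ) := by
            rw [← h8]
        _ = (A (φ s (P ζ)) - A (P ζ) - s * A (X (P ζ))) / τ := by ring
    show ‖(A (φ s (P ζ)) + κ0) / τ - ζ - s * (A (X (P ζ)) / τ)‖ ≤ _
    rw [h5, norm_div, Complex.norm_real, Real.norm_eq_abs, abs_of_pos hτ0]
    have h9 : ‖A (φ s (P ζ) - P ζ - s • X (P ζ))‖ ≤ ‖A‖ * (C * s ^ 2) :=
      (A.le_opNorm _).trans (mul_le_mul_of_nonneg_left h4 (norm_nonneg _))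
    calc ‖A (φ s (P ζ) - P ζ - s • X (P ζ))‖ / τ ≤ ‖A‖ * (C * s ^ 2) / τ :=
          div_le_div_of_nonneg_right h9 hτ0.le
      _ = ‖A‖ * C / τ * s ^ 2 := by ring
  obtain ⟨a, b, c, habc⟩ := h2 (fun s ζ => (A (φ s (P ζ)) + κ0) / τ)
    (fun ζ => A (X (P ζ)) / τ) hG hF1 hF2
  refine ⟨τ * a, τ * b, τ * c, fun ζ hζ => ?_⟩
  have h5 := habc ζ hζ
  rw [div_eq_iff hτc] at h5
  have h6 : dc l ((X (z0, w0 + ζ • cx η)).2 -
      (2 * Complex.I) • hf F (X (z0, w0 + ζ • cx η)).1 z0) = A (X (P ζ)) := rfl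
  rw [h6, h5]
  push_cast
  ring

end KVB
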