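import Pool.Agent.Lib.KV.B.SpecS

/-!
# KV (MP_64edc4_ag), part B, block S, module Hei: affine automorphisms and their fields
-/

set_option autoImplicit false

open Set Filter Topology Metric

namespace KVB

open KP

namespace HeiAux

variable {m k : ℕ} {F : Fin k → Matrix (Fin m) (Fin m) ℂ} {Om : Set (Fin k → ℝ)}

theorem imv_add (u v : Cn k) : imv (u + v) = imv u + imv v := by
  ext j; simp [imv]

theorem imv_sub (u v : Cn k) : imv (u - v) = imv u - imv v := by
  ext j; simp [imv]

theorem imv_cx (r : Fin k → ℝ) : imv (cx r) = 0 := by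
  ext j; simp [imv, cx]

theorem imv_real (c : ℝ) (u : Cn k) : imv ((c : ℂ) • u) = c • imv u := by
  ext j; simp [imv]

theorem rev_real (c : ℝ) (u : Cn k) : rev ((c : ℂ) • u) = c • rev u := by
  ext j; simp [rev]

theorem imv_I (c : ℝ) (u : Cn k) : imv ((Complex.I * c) • u) = c • rev u := by
  ext j; simp [imv, rev, Complex.mul_im]

theorem rev_hf (h : Sie F Om) (z a : Cn m) (c : ℝ) :
    rev (hf F (z + (c : ℂ) • a) (z + (c : ℂ) • a)) =
      rev (hf F z z) + (2 * c) • rev (hf F z a) + c ^ 2 • rev (hf F a a) := by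
  ext j
  have h1 : (hf F a z j).re = (hf F z a j).re := by
    rw [← hf_conj h z a j, Complex.conj_re]
  rw [hf_add_left, hf_add_right, hf_add_right, hf_smul_left, hf_smul_left, hf_smul_right,
    hf_smul_right, Complex.conj_ofReal]
  simp only [rev, Pi.add_apply, Pi.smul_apply, smul_eq_mul, Complex.add_re, Complex.mul_re,
    Complex.mul_im, Complex.ofReal_re, Complex.ofReal_im, h1]
  ring

theorem rev_hf_scale (z : Cn m) (c : ℝ) :
    rev (hf F ((c : ℂ) • z) ((c : ℂ) • z)) = c ^ 2 • rev (hf F z z) := by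
  ext j
  rw [hf_smul_left, hf_smul_right, Complex.conj_ofReal]
  simp only [rev, Pi.smul_apply, smul_eq_mul, Complex.mul_re, Complex.ofReal_re,
    Complex.mul_im, Complex.ofReal_im]
  ring

/-- The linear map `z ↦ h(z, a)`. -/
noncomputable def hl (F : Fin k → Matrix (Fin m) (Fin m) ℂ) (a : Cn m) : Cn m →ₗ[ℂ] Cn k where
  toFun z := hf F z a
  map_add' z z' := hf_add_left z z' a
  map_smul' c z := hf_smul_left c z a

theorem diff_hf (a : Cn m) : Differentiable ℂ (fun p : Vs m k => hf F p.1 a) := by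
  have h1 : Differentiable ℂ (fun z : Cn m => hf F z a) :=
    (LinearMap.toContinuousLinearMap (hl F a)).differentiable
  exact h1.comp differentiable_fst

/-- The flow of the translations. -/
noncomputable def tf (F : Fin k → Matrix (Fin m) (Fin m) ℂ) (a : Cn m) (c : ℝ) (p : Vs m k) :
    Vs m k :=
  (p.1 + (c : ℂ) • a, p.2 + (Complex.I * ((2 * c : ℝ) : ℂ)) • hf F p.1 a +
    (Complex.I * ((c ^ 2 : ℝ) : ℂ)) • hf F a a)

theorem tf_mem (h : Sie F Om) (a : Cn m) (c : ℝ) {p : Vs m k} (hp : p ∈ SD F Om) :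
    tf F a c p ∈ SD F Om := by
  have h1 : imv (tf F a c p).2 - rev (hf F (tf F a c p).1 (tf F a c p).1) =
      imv p.2 - rev (hf F p.1 p.1) := by
    show imv (p.2 + (Complex.I * ((2 * c : ℝ) : ℂ)) • hf F p.1 a +
      (Complex.I * ((c ^ 2 : ℝ) : ℂ)) • hf F a a) -
      rev (hf F (p.1 + (c : ℂ) • a) (p.1 + (c : ℂ) • a)) = _
    rw [rev_hf h, imv_add, imv_add, imv_I, imv_I]
    abel
  show _ ∈ Om
  rw [h1]
  exact hp

theorem tf_diff (a : Cn m) (c : ℝ) : Differentiable ℂ (tf F a c) := by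
  unfold tf
  have h1 : Differentiable ℂ (fun p : Vs m k => hf F p.1 a) := diff_hf a
  fun_prop

theorem shift_mem {p : Vs m k} (r : Fin k → ℝ) (hp : p ∈ SD F Om) :
    ((p.1, p.2 + cx r) : Vs m k) ∈ SD F Om := by
  show imv (p.2 + cx r) - rev (hf F p.1 p.1) ∈ Om
  rw [imv_add, imv_cx, add_zero]
  exact hp

theorem cpl_shift (r : Fin k → ℝ) : Cpl (SD F Om) (fm2 (m := m) (cx r)) := by
  refine ⟨differentiableOn_const _, fun t p => (p.1, p.2 + cx (t • r)), ?_, ?_, ?_, ?_, ?_⟩
  · intro t
    refine Differentiable.differentiableOn ?_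
    fun_prop
  · intro t p hp
    exact shift_mem _ hp
  · intro p _
    have h1 : cx ((0 : ℝ) • r) = (0 : Cn k) := by
      ext j; simp [cx]
    show (p.1, p.2 + cx ((0 : ℝ) • r)) = p
    rw [h1, add_zero]
  · intro s t p _
    have h1 : cx ((s + t) • r) = cx (t • r) + cx (s • r) := by
      ext j; simp [cx]; ring
    show (p.1, p.2 + cx ((s + t) • r)) = (p.1, p.2 + cx (t • r) + cx (s • r))
    rw [h1, add_assoc]
  · intro p _ t
    have h1 : HasDerivAt (fun s : ℝ => p.2 + cx (s • r)) (cx r) t := by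
      have h2 : (fun s : ℝ => p.2 + cx (s • r)) = fun s : ℝ => p.2 + s • cx r := by
        funext s
        ext j; simp [cx]
      rw [h2]
      simpa using ((hasDerivAt_id t).smul_const (cx r)).const_add p.2
    exact (hasDerivAt_const t p.1).prodMk h1

theorem cpl_trans (h : Sie F Om) (a : Cn m) :
    Cpl (SD F Om) (fun p => (a, (2 * Complex.I) • hf F p.1 a)) := by
  refine ⟨?_, fun t p => tf F a t p, ?_, ?_, ?_, ?_, ?_⟩
  · refine Differentiable.differentiableOn ?_
    have h1 : Differentiable ℂ (fun p : Vs m k => hf F p.1 a) := diff_hf a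
    fun_prop
  · intro t
    exact (tf_diff a t).differentiableOn
  · intro t p hp
    exact tf_mem h a t hp
  · intro p _
    unfold tf
    apply Prod.ext
    · simp
    · simp
  · intro s t p _
    unfold tf
    apply Prod.ext
    · show p.1 + ((s + t : ℝ) : ℂ) • a = p.1 + (t : ℂ) • a + (s : ℂ) • a
      push_cast
      rw [add_smul]; abel
    · show p.2 + (Complex.I * ((2 * (s + t) : ℝ) : ℂ)) • hf F p.1 a +
          (Complex.I * (((s + t) ^ 2 : ℝ) : ℂ)) • hf F a a =
        p.2 + (Complex.I * ((2 * t : ℝ) : ℂ)) • hf F p.1 a +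
          (Complex.I * ((t ^ 2 : ℝ) : ℂ)) • hf F a a +
          (Complex.I * ((2 * s : ℝ) : ℂ)) • hf F (p.1 + (t : ℂ) • a) a +
          (Complex.I * ((s ^ 2 : ℝ) : ℂ)) • hf F a a
      rw [hf_add_left, hf_smul_left]
      ext j
      simp only [Pi.add_apply, Pi.smul_apply, smul_eq_mul]
      push_cast
      ring
  · intro p _ t
    have h1 : HasDerivAt (fun s : ℝ => ((s : ℝ) : ℂ)) 1 t := Complex.ofRealCLM.hasDerivAt
    have h2 : HasDerivAt (fun s : ℝ => p.1 + (s : ℂ) • a) a t := by
      have h3 := (h1.smul_const a).const_add p.1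
      rwa [one_smul] at h3
    have h4 : HasDerivAt (fun s : ℝ => Complex.I * ((2 * s : ℝ) : ℂ)) (2 * Complex.I) t := by
      have h5 := h1.const_mul (2 * Complex.I)
      rw [mul_one] at h5
      refine h5.congr_of_eventuallyEq (Eventually.of_forall fun s => ?_)
      show Complex.I * ((2 * s : ℝ) : ℂ) = 2 * Complex.I * (s : ℂ)
      push_cast; ring
    have h6 : HasDerivAt (fun s : ℝ => Complex.I * ((s ^ 2 : ℝ) : ℂ))
        (2 * Complex.I * (t : ℂ)) t := by
      have h7 := ((h1.pow 2)).const_mul Complex.I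
      refine HasDerivAt.congr_of_eventuallyEq (h7.congr_deriv ?_)
        (Eventually.of_forall fun s => ?_)
      · push_cast; ring
      · show Complex.I * ((s ^ 2 : ℝ) : ℂ) = Complex.I * ((fun s : ℝ => (s : ℂ)) ^ 2) s
        rw [Pi.pow_apply]; push_cast; rfl
    have h8 := ((h4.smul_const (hf F p.1 a)).const_add p.2).fun_add (h6.smul_const (hf F a a))
    have h9 := h2.prodMk h8
    refine h9.congr_deriv ?_
    apply Prod.ext
    · rfl
    · show (2 * Complex.I) • hf F p.1 a + (2 * Complex.I * (t : ℂ)) • hf F a a =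
        (2 * Complex.I) • hf F (p.1 + (t : ℂ) • a) a
      rw [hf_add_left, hf_smul_left, smul_add, smul_smul]

theorem dil_mem (h : Sie F Om) {t : ℝ} (ht : 0 < t) {p : Vs m k} (hp : p ∈ SD F Om) :
    (((t : ℂ) • p.1, ((t : ℂ) ^ 2) • p.2) : Vs m k) ∈ SD F Om := by
  show imv (((t : ℂ) ^ 2) • p.2) - rev (hf F ((t : ℂ) • p.1) ((t : ℂ) • p.1)) ∈ Om
  have h1 : ((t : ℂ) ^ 2) = ((t ^ 2 : ℝ) : ℂ) := by push_cast; rfl
  rw [h1, imv_real, rev_hf_scale, ← smul_sub]
  exact h.cone _ hp _ (pow_pos ht 2)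

theorem cpl_euler (h : Sie F Om) : Cpl (SD F Om) (fun p => (p.1, (2 : ℂ) • p.2)) := by
  have hexp : ∀ t : ℝ, ((Real.exp t : ℝ) : ℂ) ^ 2 = ((Real.exp (2 * t) : ℝ) : ℂ) := by
    intro t
    rw [two_mul, Real.exp_add, pow_two]; push_cast; rfl
  refine ⟨?_, fun t p => (((Real.exp t : ℝ) : ℂ) • p.1, (((Real.exp t : ℝ) : ℂ) ^ 2) • p.2),
    ?_, ?_, ?_, ?_, ?_⟩
  · refine Differentiable.differentiableOn ?_
    fun_prop
  · intro t
    refine Differentiable.differentiableOn ?_
    fun_prop
  · intro t p hp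
    exact dil_mem h (Real.exp_pos t) hp
  · intro p _
    show (((Real.exp 0 : ℝ) : ℂ) • p.1, (((Real.exp 0 : ℝ) : ℂ) ^ 2) • p.2) = p
    rw [Real.exp_zero]
    simp
  · intro s t p _
    show (((Real.exp (s + t) : ℝ) : ℂ) • p.1, (((Real.exp (s + t) : ℝ) : ℂ) ^ 2) • p.2) =
      (((Real.exp s : ℝ) : ℂ) • ((Real.exp t : ℝ) : ℂ) • p.1,
        (((Real.exp s : ℝ) : ℂ) ^ 2) • (((Real.exp t : ℝ) : ℂ) ^ 2) • p.2)
    rw [smul_smul, smul_smul, Real.exp_add]
    push_cast
    rw [mul_pow]
  · intro p _ t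
    have h1 : HasDerivAt (fun s : ℝ => ((Real.exp s : ℝ) : ℂ)) ((Real.exp t : ℝ) : ℂ) t :=
      (Real.hasDerivAt_exp t).ofReal_comp
    have h2 : HasDerivAt (fun s : ℝ => ((Real.exp s : ℝ) : ℂ) ^ 2)
        (2 * (((Real.exp t : ℝ) : ℂ) ^ 2)) t := by
      have h3 := h1.fun_pow 2
      refine h3.congr_deriv ?_
      push_cast; ring
    have h4 := (h1.smul_const p.1).prodMk (h2.smul_const p.2)
    refine h4.congr_deriv ?_
    apply Prod.ext
    · rfl
    · show (2 * (((Real.exp t : ℝ) : ℂ) ^ 2)) • p.2 = (2 : ℂ) • (((Real.exp t : ℝ) : ℂ) ^ 2) • p.2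
      rw [smul_smul]

end HeiAux

open HeiAux in
theorem tHei : S_Hei := by
  intro m k F Om h
  refine ⟨cpl_shift, cpl_trans h, cpl_euler h, ?_, ?_, ?_⟩
  · intro a r
    have e1 : ∀ p : Vs m k, ((p.1 + a, p.2 + cx r + (2 * Complex.I) • hf F p.1 a +
        Complex.I • hf F a a) : Vs m k) = tf F a 1 (p.1, p.2 + cx r) := by
      intro p
      unfold tf
      apply Prod.ext
      · simp
      · show p.2 + cx r + (2 * Complex.I) • hf F p.1 a + Complex.I • hf F a a =
          p.2 + cx r + (Complex.I * ((2 * 1 : ℝ) : ℂ)) • hf F p.1 a +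
            (Complex.I * ((1 ^ 2 : ℝ) : ℂ)) • hf F a a
        push_cast
        rw [mul_one, one_pow, mul_one, mul_comm Complex.I 2]
    have e2 : ∀ p : Vs m k, ((p.1 - a, p.2 - cx r - (2 * Complex.I) • hf F p.1 a +
        Complex.I • hf F a a) : Vs m k) = tf F a (-1) (p.1, p.2 + cx (-r)) := by
      intro p
      unfold tf
      apply Prod.ext
      · show p.1 - a = p.1 + ((-1 : ℝ) : ℂ) • a
        push_cast
        rw [neg_smul, one_smul, sub_eq_add_neg]
      · show p.2 - cx r - (2 * Complex.I) • hf F p.1 a + Complex.I • hf F a a =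
          p.2 + cx (-r) + (Complex.I * ((2 * (-1) : ℝ) : ℂ)) • hf F p.1 a +
            (Complex.I * (((-1) ^ 2 : ℝ) : ℂ)) • hf F a a
        have e3 : cx (-r) = -(cx r : Cn k) := by
          ext j; simp [cx]
        rw [e3]
        ext j
        simp only [Pi.add_apply, Pi.sub_apply, Pi.smul_apply, Pi.neg_apply, smul_eq_mul]
        push_cast
        ring
    refine ⟨?_, ?_, ?_, ?_, ?_, ?_⟩
    · refine Differentiable.differentiableOn ?_
      have h1 : Differentiable ℂ (fun p : Vs m k => hf F p.1 a) := diff_hf a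
      fun_prop
    · refine Differentiable.differentiableOn ?_
      have h1 : Differentiable ℂ (fun p : Vs m k => hf F p.1 a) := diff_hf a
      fun_prop
    · intro p hp
      show ((p.1 + a, p.2 + cx r + (2 * Complex.I) • hf F p.1 a +
        Complex.I • hf F a a) : Vs m k) ∈ SD F Om
      rw [e1]
      exact tf_mem h a 1 (shift_mem r hp)
    · intro p hp
      show ((p.1 - a, p.2 - cx r - (2 * Complex.I) • hf F p.1 a +
        Complex.I • hf F a a) : Vs m k) ∈ SD F Om
      rw [e2]
      exact tf_mem h a (-1) (shift_mem (-r) hp)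
    · intro p _
      apply Prod.ext
      · show p.1 + a - a = p.1
        abel
      · show p.2 + cx r + (2 * Complex.I) • hf F p.1 a + Complex.I • hf F a a - cx r -
          (2 * Complex.I) • hf F (p.1 + a) a + Complex.I • hf F a a = p.2
        rw [hf_add_left]
        ext j
        simp only [Pi.add_apply, Pi.sub_apply, Pi.smul_apply, smul_eq_mul]
        ring
    · intro p _
      apply Prod.ext
      · show p.1 - a + a = p.1
        abel
      · show p.2 - cx r - (2 * Complex.I) • hf F p.1 a + Complex.I • hf F a a + cx r +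
          (2 * Complex.I) • hf F (p.1 - a) a + Complex.I • hf F a a = p.2
        have e4 : hf F (p.1 - a) a = hf F p.1 a - hf F a a := (hl F a).map_sub p.1 a
        rw [e4]
        ext j
        simp only [Pi.add_apply, Pi.sub_apply, Pi.smul_apply, smul_eq_mul]
        ring
  · have hI : ∀ c : ℂ, c * (starRingEnd ℂ) c = 1 → ∀ p : Vs m k, p ∈ SD F Om →
        ((c • p.1, p.2) : Vs m k) ∈ SD F Om := by
      intro c hc p hp
      show imv p.2 - rev (hf F (c • p.1) (c • p.1)) ∈ Om
      rw [hf_smul_left, hf_smul_right, smul_smul, hc, one_smul]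
      exact hp
    refine ⟨?_, ?_, ?_, ?_, ?_, ?_⟩
    · refine Differentiable.differentiableOn ?_
      fun_prop
    · refine Differentiable.differentiableOn ?_
      fun_prop
    · intro p hp
      exact hI Complex.I (by simp) p hp
    · intro p hp
      exact hI (-Complex.I) (by simp) p hp
    · intro p _
      show ((-Complex.I) • Complex.I • p.1, p.2) = p
      rw [smul_smul]
      simp
    · intro p _
      show (Complex.I • (-Complex.I) • p.1, p.2) = p
      rw [smul_smul]
      simp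
  · intro t ht
    have ht' : (t : ℂ) ≠ 0 := Complex.ofReal_ne_zero.2 ht.ne'
    have ht2 : ((t : ℂ) ^ 2) ≠ 0 := pow_ne_zero 2 ht'
    refine ⟨?_, ?_, ?_, ?_, ?_, ?_⟩
    · refine Differentiable.differentiableOn ?_
      fun_prop
    · refine Differentiable.differentiableOn ?_
      fun_prop
    · intro p hp
      exact dil_mem h ht hp
    · intro p hp
      have h1 := dil_mem h (inv_pos.2 ht) hp
      rw [Complex.ofReal_inv] at h1
      exact h1
    · intro p _
      show ((t : ℂ)⁻¹ • (t : ℂ) • p.1, ((t : ℂ)⁻¹ ^ 2) • ((t : ℂ) ^ 2) • p.2) = p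
      rw [smul_smul, smul_smul, inv_mul_cancel₀ ht', inv_pow, inv_mul_cancel₀ ht2, one_smul,
        one_smul]
    · intro p _
      show ((t : ℂ) • (t : ℂ)⁻¹ • p.1, ((t : ℂ) ^ 2) • ((t : ℂ)⁻¹ ^ 2) • p.2) = p
      rw [smul_smul, smul_smul, mul_inv_cancel₀ ht', inv_pow, mul_inv_cancel₀ ht2, one_smul,
        one_smul]

end KVB
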