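import Pool.Agent.Lib.KV.B.SpecS

/-!
# KV (MP_64edc4_ag), part B, block S, module Inj1: fields of weight 1 are determined by a1 e
-/

set_option autoImplicit false

open Set Filter Topology Metric

namespace KVB

open KP

namespace Inj1Aux

variable {V : Type} [NormedAddCommGroup V] [NormedSpace ℂ V]

/-- The restrictions to complex lines are polynomials of degree at most two. -/
def Quad (X : V → V) : Prop := ∀ p v : V, ∃ A B C : V, ∀ t : ℂ, X (p + t • v) = A + t • B + t ^ 2 • C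

theorem quad_coeff {A B C : V} {s : ℂ} (hs : s ≠ 0) (h0 : A + (0 : ℂ) • B + (0 : ℂ) ^ 2 • C = 0)
    (h1 : A + s • B + s ^ 2 • C = 0) (h2 : A + (-s) • B + (-s) ^ 2 • C = 0) :
    A = 0 ∧ B = 0 ∧ C = 0 := by
  have hA : A = 0 := by
    simpa using h0
  subst hA
  rw [zero_add] at h1 h2
  rw [neg_sq, neg_smul] at h2
  have h3 : (2 * s ^ 2) • C = 0 := by
    have : s • B + s ^ 2 • C + (-(s • B) + s ^ 2 • C) = 0 := by rw [h1, h2, add_zero]
    rw [two_mul, add_smul]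
    rw [← this]; abel
  have hC : C = 0 := by
    rcases smul_eq_zero.1 h3 with h | h
    · exact absurd h (mul_ne_zero two_ne_zero (pow_ne_zero 2 hs))
    · exact h
  subst hC
  rw [smul_zero, add_zero] at h1
  rcases smul_eq_zero.1 h1 with h | h
  · exact absurd h hs
  · exact ⟨rfl, h, rfl⟩

theorem quad_zero {D : Set V} (hD : IsOpen D) {p : V} (hp : p ∈ D) {X : V → V} (hX : Quad X)
    (h0 : ∀ x ∈ D, X x = 0) (q : V) : X q = 0 := by
  obtain ⟨A, B, C, h⟩ := hX p (q - p)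
  have hc : Continuous fun t : ℂ => p + t • (q - p) := by fun_prop
  have hn : ∀ᶠ t : ℂ in 𝓝 0, p + t • (q - p) ∈ D := by
    refine hc.continuousAt.eventually_mem ?_
    rw [zero_smul, add_zero]
    exact hD.mem_nhds hp
  obtain ⟨ε, hε, hb⟩ := Metric.eventually_nhds_iff.1 hn
  have hs : ((ε / 2 : ℝ) : ℂ) ≠ 0 := by
    rw [Ne, Complex.ofReal_eq_zero]
    linarith
  have hv : ∀ t : ℂ, ‖t‖ < ε → A + t • B + t ^ 2 • C = 0 := by
    intro t ht
    rw [← h t]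
    exact h0 _ (hb (by rwa [dist_zero_right]))
  have hn1 : ‖((ε / 2 : ℝ) : ℂ)‖ < ε := by
    rw [Complex.norm_real, Real.norm_of_nonneg (by linarith)]
    linarith
  obtain ⟨hA, hB, hC⟩ := quad_coeff hs (hv 0 (by rw [norm_zero]; exact hε)) (hv _ hn1)
    (hv _ (by rw [norm_neg]; exact hn1))
  have h1 := h 1
  rw [one_smul, add_sub_cancel] at h1
  rw [h1, hA, hB, hC]
  simp

theorem fderiv_line {D : Set V} (hD : IsOpen D) {X : V → V} (hX : DifferentiableOn ℂ X D) {p : V}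
    (hp : p ∈ D) (v A B C : V) (h : ∀ t : ℂ, X (p + t • v) = A + t • B + t ^ 2 • C) :
    fderiv ℂ X p v = B := by
  have h1 : HasFDerivAt X (fderiv ℂ X p) (p + (0 : ℂ) • v) := by
    rw [zero_smul, add_zero]
    exact (hX.differentiableAt (hD.mem_nhds hp)).hasFDerivAt
  have h2 : HasDerivAt (fun t : ℂ => p + t • v) v 0 := by
    simpa using ((hasDerivAt_id (0 : ℂ)).smul_const v).const_add p
  have h3 : HasDerivAt (fun t : ℂ => X (p + t • v)) (fderiv ℂ X p v) 0 :=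
    h1.comp_hasDerivAt (0 : ℂ) h2
  have h4 : HasDerivAt (fun t : ℂ => A + t • B + t ^ 2 • C) B 0 := by
    have h5 : HasDerivAt (fun t : ℂ => t • B) B 0 := by
      simpa using (hasDerivAt_id (0 : ℂ)).smul_const B
    have h6 : HasDerivAt (fun t : ℂ => t ^ 2 • C) 0 0 := by
      have h7 := (hasDerivAt_pow 2 (0 : ℂ)).smul_const C
      simpa using h7
    have h8 := (h5.const_add A).fun_add h6
    rwa [add_zero] at h8
  have h5 : (fun t : ℂ => X (p + t • v)) = fun t : ℂ => A + t • B + t ^ 2 • C := funext h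
  rw [h5] at h3
  exact h3.unique h4

variable {m k : ℕ}

theorem f1_line (c0 : Cn m →ₗ[ℂ] Cn m →ₗ[ℂ] Cn m) (a1 : Cn k →ₗ[ℂ] Cn m)
    (β1 : Cn k →ₗ[ℂ] Cn m →ₗ[ℂ] Cn k) (p v : Vs m k) (t : ℂ) :
    f1 c0 a1 β1 (p + t • v) = f1 c0 a1 β1 p +
      t • ((c0 p.1 v.1 + c0 v.1 p.1 + a1 v.2, β1 p.2 v.1 + β1 v.2 p.1) : Vs m k) +
      t ^ 2 • ((c0 v.1 v.1, β1 v.2 v.1) : Vs m k) := by
  apply Prod.ext
  · simp only [f1, Prod.fst_add, Prod.snd_add, Prod.smul_fst, Prod.smul_snd, map_add, map_smul,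
      LinearMap.add_apply, LinearMap.smul_apply, smul_add, smul_smul, pow_two]
    abel
  · simp only [f1, Prod.fst_add, Prod.snd_add, Prod.smul_fst, Prod.smul_snd, map_add, map_smul,
      LinearMap.add_apply, LinearMap.smul_apply, smul_add, smul_smul, pow_two]
    abel

theorem quad_f1 (c0 : Cn m →ₗ[ℂ] Cn m →ₗ[ℂ] Cn m) (a1 : Cn k →ₗ[ℂ] Cn m)
    (β1 : Cn k →ₗ[ℂ] Cn m →ₗ[ℂ] Cn k) : Quad (f1 c0 a1 β1) := fun p v =>
  ⟨_, _, _, fun t => f1_line c0 a1 β1 p v t⟩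

theorem pt_mem {F : Fin k → Matrix (Fin m) (Fin m) ℂ} {Om : Set (Fin k → ℝ)} {e : Fin k → ℝ}
    (he : e ∈ Om) : ((0, Complex.I • cx e) : Vs m k) ∈ SD F Om := by
  show imv (Complex.I • cx e) - rev (hf F 0 0) ∈ Om
  have h1 : imv (Complex.I • cx e) = e := by
    ext j
    simp [imv, cx]
  have h2 : rev (hf F (0 : Cn m) 0) = 0 := by
    ext j
    simp [rev, hf]
  rw [h1, h2, sub_zero]
  exact he

end Inj1Aux

open Inj1Aux in
theorem tInj1 (h1 : S_Rela) (h2 : S_Iso) (h3 : S_LA1) (h4 : S_CUf) : S_Inj1 := by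
  intro m k F Om hS hD e he c0 a1 β1 hX hae
  obtain ⟨-, -, r3, -⟩ := h1 m k F Om hS hD
  have hβ : ∀ z, β1 (cx e) z = 0 := by
    intro z
    rw [r3 c0 a1 β1 hX e z, hae]
    ext j
    simp [hf]
  have hp : ((0, Complex.I • cx e) : Vs m k) ∈ SD F Om := pt_mem he
  obtain ⟨hdif, φ, hφ⟩ := id hX
  have hXp : f1 c0 a1 β1 ((0, Complex.I • cx e) : Vs m k) = 0 := by
    simp only [f1, map_zero, map_smul, hae, smul_zero, add_zero]
    rfl
  obtain ⟨-, hexp, M, hM⟩ := h2 (Vs m k) (SD F Om) hD (f1 c0 a1 β1) φ hdif hφ _ hp hXp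
  have hN : ∀ v : Vs m k, fderiv ℂ (f1 c0 a1 β1) ((0, Complex.I • cx e) : Vs m k) v =
      ((a1 v.2, 0) : Vs m k) := by
    intro v
    have h5 := fderiv_line hD.opn hdif hp v _ _ _ (f1_line c0 a1 β1 _ v)
    rw [h5]
    simp only [map_zero, LinearMap.zero_apply, zero_add, map_smul, LinearMap.smul_apply, hβ,
      smul_zero, add_zero]
  have hNN : fderiv ℂ (f1 c0 a1 β1) ((0, Complex.I • cx e) : Vs m k) *
      fderiv ℂ (f1 c0 a1 β1) ((0, Complex.I • cx e) : Vs m k) = 0 := by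
    refine ContinuousLinearMap.ext fun v => ?_
    rw [mul_apply_eq_comp, hN, hN]
    simp
  have hN0 := (h3 (Vs m k)).2 _ hNN ⟨M, hM⟩
  have hz := h4 (Vs m k) (SD F Om) hD (f1 c0 a1 β1) hX _ hp hXp hN0
  intro q
  exact quad_zero hD.opn hp (quad_f1 c0 a1 β1) hz q

end KVB
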