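import Pool.Agent.Lib.KV.B.SpecS

set_option autoImplicit false

open Set Filter Topology Metric

namespace KVB

open KP

namespace Inj2Aux

variable {m k : ℕ}

theorem hf0r (F : Fin k → Matrix (Fin m) (Fin m) ℂ) (z : Cn m) : hf F z 0 = 0 := by
  have := hf_smul_right (F := F) 0 z 0
  rwa [zero_smul, map_zero, zero_smul] at this

/-- The linear field. -/
noncomputable def LL (M1 : Cn k →ₗ[ℂ] Cn m →ₗ[ℂ] Cn m) (b2 : Cn k →ₗ[ℂ] Cn k →ₗ[ℂ] Cn k)
    (e : Cn k) : Vs m k →L[ℂ] Vs m k :=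
  LinearMap.toContinuousLinearMap (LinearMap.prodMap (M1 e) ((2 : ℂ) • b2 e))

theorem LL_apply (M1 : Cn k →ₗ[ℂ] Cn m →ₗ[ℂ] Cn m) (b2 : Cn k →ₗ[ℂ] Cn k →ₗ[ℂ] Cn k)
    (e : Cn k) (p : Vs m k) : LL M1 b2 e p = (M1 e p.1, (2 : ℂ) • b2 e p.2) := rfl

theorem fder_f2 (M1 : Cn k →ₗ[ℂ] Cn m →ₗ[ℂ] Cn m) (b2 : Cn k →ₗ[ℂ] Cn k →ₗ[ℂ] Cn k)
    (hb : ∀ u v, b2 u v = b2 v u) (p : Vs m k) :
    ∃ A : Vs m k →L[ℂ] Vs m k, HasFDerivAt (f2 M1 b2) A p ∧
      ∀ q, A q = (M1 p.2 q.1 + M1 q.2 p.1, (2 : ℂ) • b2 p.2 q.2) := by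
  have ha := M1.toContinuousBilinearMap.hasFDerivAt_of_bilinear
    (hasFDerivAt_snd (𝕜 := ℂ) (p := p)) (hasFDerivAt_fst (𝕜 := ℂ) (p := p))
  have hb' := b2.toContinuousBilinearMap.hasFDerivAt_of_bilinear
    (hasFDerivAt_snd (𝕜 := ℂ) (p := p)) (hasFDerivAt_snd (𝕜 := ℂ) (p := p))
  refine ⟨_, ha.prodMk hb', fun q => ?_⟩
  refine Prod.ext ?_ ?_
  · rfl
  · change b2 p.2 q.2 + b2 q.2 p.2 = (2 : ℂ) • b2 p.2 q.2
    rw [hb q.2 p.2, two_smul]

end Inj2Aux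

open Inj2Aux

theorem tInj2 (h1 : S_Hei) (h2 : S_AdC) (h3 : S_Lin) (h4 : S_Iso) (h5 : S_LA1) (h6 : S_CUf) :
    S_Inj2 := by
  intro m k F Om hS hH e he M1 b2 hb hc hbe
  set D := SD F Om with hD
  set X : Vs m k → Vs m k := f2 M1 b2 with hX
  have hXd : Differentiable ℂ X := fun p => by
    obtain ⟨A, hA, -⟩ := fder_f2 M1 b2 hb p
    exact hA.differentiableAt
  -- the translation
  have haut : Aut2 D (fun p => (p.1, p.2 - cx e)) (fun p => (p.1, p.2 + cx e)) := by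
    have h := ((h1 m k F Om hS).2.2.2.1 0 e).symm
    simpa [hf0r] using h
  have hAd := h2 (Vs m k) D hH.opn _ _ X haut hc
  have hder : ∀ q : Vs m k, fderiv ℂ (fun p : Vs m k => ((p.1, p.2 - cx e) : Vs m k)) q =
      ContinuousLinearMap.id ℂ _ := by
    intro q
    have h : HasFDerivAt (fun p : Vs m k => ((p.1, p.2 - cx e) : Vs m k))
        (ContinuousLinearMap.id ℂ _) q := by
      have := (hasFDerivAt_id (𝕜 := ℂ) q).sub_const ((0, cx e) : Vs m k)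
      refine this.congr_of_eventuallyEq (Eventually.of_forall fun p => ?_)
      refine Prod.ext ?_ ?_
      · simp
      · rfl
    exact h.fderiv
  have hAdv : ∀ p : Vs m k, Ad (fun p : Vs m k => ((p.1, p.2 - cx e) : Vs m k))
      (fun p : Vs m k => ((p.1, p.2 + cx e) : Vs m k)) X p = X p + LL M1 b2 (cx e) p := by
    intro p
    rw [Ad, hder, ContinuousLinearMap.id_apply, LL_apply, hX]
    refine Prod.ext ?_ ?_
    · simp [f2]
    · change b2 (p.2 + cx e) (p.2 + cx e) = b2 p.2 p.2 + (2 : ℂ) • b2 (cx e) p.2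
      simp only [map_add, LinearMap.add_apply]
      rw [hbe, hb p.2 (cx e), two_smul, add_zero]
      abel
  have hL : Cpl D (LL M1 b2 (cx e)) := by
    have ha := (h3 (Vs m k) D hH X hc).1 (-1)
    have hb' := (h3 (Vs m k) D hH _ hAd).2 _ ha
    refine hb'.congr fun p _ => ?_
    rw [hAdv p]
    simp
  -- the point
  set p0 : Vs m k := (0, Complex.I • cx e) with hp0
  have hp0D : p0 ∈ D := by
    have h0 : hf F (0 : Cn m) 0 = 0 := hf0r F 0
    change imv (Complex.I • cx e) - rev (hf F (0 : Cn m) 0) ∈ Om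
    have h1' : imv (Complex.I • cx e) - rev (hf F (0 : Cn m) 0) = e := by
      ext j
      simp [imv, rev, cx, h0]
    rw [h1']
    exact he
  have hLp : LL M1 b2 (cx e) p0 = 0 := by
    rw [LL_apply, hp0]
    refine Prod.ext ?_ ?_
    · simp
    · change (2 : ℂ) • b2 (cx e) (Complex.I • cx e) = 0
      rw [map_smul, hbe, smul_zero, smul_zero]
  have hXp : X p0 = 0 := by
    rw [hX, f2, hp0]
    refine Prod.ext ?_ ?_
    · simp
    · change b2 (Complex.I • cx e) (Complex.I • cx e) = 0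
      rw [map_smul, map_smul, LinearMap.smul_apply, hbe, smul_zero, smul_zero]
  have hXf : fderiv ℂ X p0 = Complex.I • LL M1 b2 (cx e) := by
    obtain ⟨A, hA, hAq⟩ := fder_f2 M1 b2 hb p0
    rw [hX, hA.fderiv]
    refine ContinuousLinearMap.ext fun q => ?_
    rw [hAq, _root_.smul_apply, LL_apply, hp0]
    refine Prod.ext ?_ ?_
    · simp
    · change (2 : ℂ) • b2 (Complex.I • cx e) q.2 = Complex.I • (2 : ℂ) • b2 (cx e) q.2
      rw [map_smul, LinearMap.smul_apply, smul_comm]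
  have hLf : fderiv ℂ (LL M1 b2 (cx e)) p0 = LL M1 b2 (cx e) := ContinuousLinearMap.fderiv _
  obtain ⟨hcd, φ, hφ⟩ := hc
  obtain ⟨hLd, ψ, hψ⟩ := hL
  obtain ⟨-, -, hM1⟩ := h4 (Vs m k) D hH X φ hcd hφ p0 hp0D hXp
  obtain ⟨-, -, hM2⟩ := h4 (Vs m k) D hH _ ψ hLd hψ p0 hp0D hLp
  rw [hXf] at hM1
  rw [hLf] at hM2
  have hL0 : LL M1 b2 (cx e) = 0 := (h5 (Vs m k)).1 _ hM2 hM1
  rw [hL0] at hXf
  have hXf0 : fderiv ℂ X p0 = 0 := by
    rw [hXf]
    refine ContinuousLinearMap.ext fun q => ?_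
    rw [_root_.smul_apply]
    exact smul_zero Complex.I
  have hXD : ∀ x ∈ D, X x = 0 := h6 (Vs m k) D hH X ⟨hcd, φ, hφ⟩ p0 hp0D hXp hXf0
  have han := Pool.Agent.Lib.Osgood.analyticOnNhd isOpen_univ hXd.differentiableOn
  intro p
  refine han.eqOn_zero_of_preconnected_of_eventuallyEq_zero isPreconnected_univ (mem_univ p0) ?_
    (mem_univ p)
  filter_upwards [hH.opn.mem_nhds hp0D] with x hx
  exact hXD x hx

end KVB
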