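import Pool.Agent.Lib.KV.B.SpecS

set_option autoImplicit false

open Set Filter Topology Metric

namespace KVB

open KP

namespace K3Aux

private theorem cont2 {X E E' G : Type*} [TopologicalSpace X]
    [NormedAddCommGroup E] [NormedSpace ℂ E] [FiniteDimensional ℂ E]
    [NormedAddCommGroup E'] [NormedSpace ℂ E'] [FiniteDimensional ℂ E']
    [NormedAddCommGroup G] [NormedSpace ℂ G]
    (c : E →ₗ[ℂ] E' →ₗ[ℂ] G) {f : X → E} {g : X → E'} (hf : Continuous f) (hg : Continuous g) :
    Continuous fun x => c (f x) (g x) := by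
  let L : E →ₗ[ℂ] (E' →L[ℂ] G) :=
    (LinearMap.toContinuousLinearMap : (E' →ₗ[ℂ] G) ≃ₗ[ℂ] E' →L[ℂ] G).toLinearMap ∘ₗ c
  have hL : Continuous L := L.continuous_of_finiteDimensional
  exact (hL.comp hf).clm_apply hg

private theorem cont3 {X E E' E'' G : Type*} [TopologicalSpace X]
    [NormedAddCommGroup E] [NormedSpace ℂ E] [FiniteDimensional ℂ E]
    [NormedAddCommGroup E'] [NormedSpace ℂ E'] [FiniteDimensional ℂ E']
    [NormedAddCommGroup E''] [NormedSpace ℂ E''] [FiniteDimensional ℂ E'']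
    [NormedAddCommGroup G] [NormedSpace ℂ G]
    (c : E →ₗ[ℂ] E' →ₗ[ℂ] E'' →ₗ[ℂ] G) {f : X → E} {g : X → E'} {h : X → E''}
    (hf : Continuous f) (hg : Continuous g) (hh : Continuous h) :
    Continuous fun x => c (f x) (g x) (h x) := by
  let B : E →ₗ[ℂ] E' →ₗ[ℂ] (E'' →L[ℂ] G) :=
    c.compr₂ (LinearMap.toContinuousLinearMap : (E'' →ₗ[ℂ] G) ≃ₗ[ℂ] E'' →L[ℂ] G).toLinearMap
  have hB : Continuous fun x => B (f x) (g x) := cont2 B hf hg
  exact hB.clm_apply hh

private theorem diff2 {X E E' G : Type*} [NormedAddCommGroup X] [NormedSpace ℂ X]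
    [NormedAddCommGroup E] [NormedSpace ℂ E] [FiniteDimensional ℂ E]
    [NormedAddCommGroup E'] [NormedSpace ℂ E'] [FiniteDimensional ℂ E']
    [NormedAddCommGroup G] [NormedSpace ℂ G]
    (c : E →ₗ[ℂ] E' →ₗ[ℂ] G) {f : X → E} {g : X → E'} (hf : Differentiable ℂ f)
    (hg : Differentiable ℂ g) : Differentiable ℂ fun x => c (f x) (g x) := by
  let L : E →ₗ[ℂ] (E' →L[ℂ] G) :=
    (LinearMap.toContinuousLinearMap : (E' →ₗ[ℂ] G) ≃ₗ[ℂ] E' →L[ℂ] G).toLinearMap ∘ₗ c
  have hL : Differentiable ℂ L := L.toContinuousLinearMap.differentiable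
  exact (hL.comp hf).clm_apply hg

private theorem key (b C A : ℂ) (h1 : (b - 2 * Complex.I * (C + A)).im = 0)
    (h2 : (Complex.I * b - 2 * Complex.I * (Complex.I * C - Complex.I * A)).im = 0) :
    b = 2 * Complex.I * C + 2 * Complex.I * (starRingEnd ℂ) A := by
  apply Complex.ext
  · simp [Complex.mul_re, Complex.mul_im] at h1 h2 ⊢
    linarith
  · simp [Complex.mul_re, Complex.mul_im] at h1 h2 ⊢
    linarith

/-- the pairing as a linear map -/
private noncomputable def dcL {k : ℕ} (l : Fin k → ℝ) : Cn k →ₗ[ℂ] ℂ where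
  toFun := dc l
  map_add' a b := by
    simp only [dc, Pi.add_apply, ← Finset.sum_add_distrib]
    exact Finset.sum_congr rfl fun j _ => by ring
  map_smul' c a := by
    simp only [dc, Pi.smul_apply, smul_eq_mul, RingHom.id_apply, Finset.mul_sum]
    exact Finset.sum_congr rfl fun j _ => by ring

private theorem dcL_apply {k : ℕ} (l : Fin k → ℝ) (v : Cn k) : dcL l v = dc l v := rfl

private theorem dcL_im {k : ℕ} (l : Fin k → ℝ) (v : Cn k) (h : ∀ j, (v j).im = 0) :
    (dcL l v).im = 0 := by
  rw [dcL_apply, dc, Complex.im_sum]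
  exact Finset.sum_eq_zero fun j _ => by simp [Complex.mul_im, h j]

private theorem dcL_conj {m k : ℕ} {F : Fin k → Matrix (Fin m) (Fin m) ℂ} {Om : Set (Fin k → ℝ)}
    (hS : Sie F Om) (l : Fin k → ℝ) (z z' : Cn m) :
    (starRingEnd ℂ) (dcL l (hf F z z')) = dcL l (hf F z' z) := by
  rw [dcL_apply, dcL_apply, dc, dc, map_sum]
  exact Finset.sum_congr rfl fun j _ => by rw [map_mul, hf_conj hS, Complex.conj_ofReal]

private theorem dcL_sep {k : ℕ} (v : Cn k) (h : ∀ l : Fin k → ℝ, dcL l v = 0) : v = 0 := by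
  ext j
  have := h (Pi.single j 1)
  rw [dcL_apply, dc, Finset.sum_eq_single j] at this
  · simpa using this
  · intro i _ hi
    simp [Pi.single_eq_of_ne hi]
  · intro hj
    exact absurd (Finset.mem_univ j) hj

end K3Aux

open K3Aux in
theorem tK3 (h1 : S_BR) (h2 : S_LamP) (h3 : S_TRi) (h4 : S_Pola) : S_K3 := by
  intro m k F Om hS hH c1 a2 β2 ha hb hC
  have hl0 : ∀ z z' : Cn m, hf F (-z) z' = -hf F z z' := fun z z' => by
    have := hf_smul_left (F := F) (-1) z z'
    simpa using this
  have hr0 : ∀ z z' : Cn m, hf F z (-z') = -hf F z z' := fun z z' => by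
    have := hf_smul_right (F := F) (-1) z z'
    simpa using this
  have hz0 : ∀ z : Cn m, hf F 0 z = 0 := fun z => by
    have := hf_smul_left (F := F) 0 z z
    simpa using this
  have hz0' : ∀ z : Cn m, hf F z 0 = 0 := fun z => by
    have := hf_smul_right (F := F) 0 z z
    simpa using this
  have hI : ∀ z : Cn m, hf F (Complex.I • z) (Complex.I • z) = hf F z z := by
    intro z
    rw [hf_smul_left, hf_smul_right, smul_smul]
    simp
  have hcont : Continuous (f3 c1 a2 β2 : Vs m k → Vs m k) := by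
    unfold f3
    refine Continuous.prodMk ?_ ?_
    · exact (cont3 c1 continuous_snd continuous_fst continuous_fst).add
        (cont2 a2 continuous_snd continuous_snd)
    · exact cont3 β2 continuous_snd continuous_snd continuous_fst
  obtain ⟨hA, hB⟩ := h1 m k F Om hS hH _ hcont hC
  -- the common form
  have P : ∀ (l y : Fin k → ℝ), (∀ (x : Fin k → ℝ) (z : Cn m),
      (dcL l ((f3 c1 a2 β2 (z, cx x + Complex.I • (cx y + hf F z z))).2 -
        (2 * Complex.I) • hf F (f3 c1 a2 β2 (z, cx x + Complex.I • (cx y + hf F z z))).1 z)).im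
        = 0) →
      ∀ (x : Fin k → ℝ) (z : Cn m), ∀ w : Cn k, w = cx x + Complex.I • (cx y + hf F z z) →
        dcL l (β2 w w z) = 2 * Complex.I * dcL l (hf F (c1 w z z) z) +
          2 * Complex.I * dcL l (hf F z (a2 w w)) := by
    intro l y hP x z w hw
    have e1 := hP x z
    have e2 := hP x (Complex.I • z)
    rw [hI, ← hw] at e2
    rw [← hw] at e1
    simp only [f3, map_smul, map_sub, map_add, LinearMap.smul_apply, hf_smul_right, hf_smul_left,
      hf_add_left, smul_add, smul_eq_mul, Complex.conj_I] at e1 e2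
    rw [← dcL_conj hS l (a2 w w) z]
    refine key _ _ _ ?_ ?_
    · rw [← e1]; congr 1; ring
    · rw [← e2]; congr 1
      linear_combination (-2 * dcL l (hf F (c1 w z z) z) * Complex.I ^ 2) * Complex.I_sq
  have Q : ∀ (l y : Fin k → ℝ), (∀ (x : Fin k → ℝ) (z : Cn m),
      (dcL l ((f3 c1 a2 β2 (z, cx x + Complex.I • (cx y + hf F z z))).2 -
        (2 * Complex.I) • hf F (f3 c1 a2 β2 (z, cx x + Complex.I • (cx y + hf F z z))).1 z)).im
        = 0) →
      ∀ (x : Fin k → ℝ) (z : Cn m), ∀ U : Cn k, U = cx y + hf F z z →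
        dcL l (β2 (cx x) (cx x) z) = 2 * Complex.I * dcL l (hf F z (a2 (cx x) (cx x))) ∧
        2 * Complex.I * dcL l (β2 (cx x) U z) - 2 * Complex.I * dcL l (hf F (c1 (cx x) z z) z) -
          4 * dcL l (hf F z (a2 (cx x) U)) = 0 ∧
        - dcL l (β2 U U z) + 2 * dcL l (hf F (c1 U z z) z) +
          2 * Complex.I * dcL l (hf F z (a2 U U)) = 0 := by
    intro l y hP x z U hU
    have hE : ∀ x : Fin k → ℝ, dcL l (β2 (cx x) (cx x) z) +
        2 * Complex.I * dcL l (β2 (cx x) U z) - dcL l (β2 U U z) =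
        2 * Complex.I * (dcL l (hf F (c1 (cx x) z z) z) +
          Complex.I * dcL l (hf F (c1 U z z) z)) +
        2 * Complex.I * (dcL l (hf F z (a2 (cx x) (cx x))) -
          2 * Complex.I * dcL l (hf F z (a2 (cx x) U)) - dcL l (hf F z (a2 U U))) := by
      intro x
      have e := P l y hP x z _ rfl
      rw [← hU] at e
      simp only [map_add, map_smul, LinearMap.add_apply, LinearMap.smul_apply, hf_add_left,
        hf_add_right, hf_smul_left, hf_smul_right, smul_eq_mul, Complex.conj_I, hb U (cx x),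
        ha U (cx x)] at e
      linear_combination e + (-dcL l (β2 U U z) + 2 * Complex.I * dcL l (hf F z (a2 U U))) *
        Complex.I_sq
    have hcx0 : cx (0 : Fin k → ℝ) = 0 := by ext j; simp [cx]
    have hcxn : cx (-x) = -cx x := by ext j; simp [cx]
    have e0 := hE 0
    have e1 := hE x
    have e2 := hE (-x)
    rw [hcx0] at e0
    rw [hcxn] at e2
    simp only [map_zero, map_neg, LinearMap.zero_apply, LinearMap.neg_apply, hz0, hz0', hl0, hr0,
      neg_neg, mul_zero, zero_add, add_zero, sub_zero, zero_sub] at e0 e2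
    refine ⟨?_, ?_, ?_⟩
    · linear_combination (1 / 2) * e1 + (1 / 2) * e2 - e0
    · linear_combination (1 / 2) * e1 - (1 / 2) * e2 +
        (-4 * dcL l (hf F z (a2 (cx x) U))) * Complex.I_sq
    · linear_combination e0 + (2 * dcL l (hf F (c1 U z z) z)) * Complex.I_sq
  have Q0 : ∀ (l : Fin k → ℝ) (x : Fin k → ℝ) (z : Cn m),
        dcL l (β2 (cx x) (cx x) z) = 2 * Complex.I * dcL l (hf F z (a2 (cx x) (cx x))) ∧
        2 * Complex.I * dcL l (β2 (cx x) (hf F z z) z) -
          2 * Complex.I * dcL l (hf F (c1 (cx x) z z) z) -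
          4 * dcL l (hf F z (a2 (cx x) (hf F z z))) = 0 ∧
        - dcL l (β2 (hf F z z) (hf F z z) z) + 2 * dcL l (hf F (c1 (hf F z z) z z) z) +
          2 * Complex.I * dcL l (hf F z (a2 (hf F z z) (hf F z z))) = 0 := by
    intro l x z
    have hcx0 : cx (0 : Fin k → ℝ) = 0 := by ext j; simp [cx]
    refine Q l 0 ?_ x z _ (by rw [hcx0, zero_add])
    intro x z
    apply dcL_im
    intro j
    rw [hcx0, zero_add]
    exact hB x z j
  -- (i)
  have hi0 : ∀ (x : Fin k → ℝ) (z : Cn m),
      β2 (cx x) (cx x) z = (2 * Complex.I) • hf F z (a2 (cx x) (cx x)) := by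
    intro x z
    rw [← sub_eq_zero]
    apply dcL_sep
    intro l
    rw [map_sub, (Q0 l x z).1, map_smul, smul_eq_mul, sub_self]
  have hi : ∀ (x y : Fin k → ℝ) (z : Cn m),
      β2 (cx x) (cx y) z = (2 * Complex.I) • hf F z (a2 (cx x) (cx y)) := by
    intro x y z
    have hxy : cx (x + y) = cx x + cx y := by ext j; simp [cx]
    have e := hi0 (x + y) z
    rw [hxy] at e
    simp only [map_add, LinearMap.add_apply, hf_add_right, smul_add] at e
    rw [hb (cx y) (cx x), ha (cx y) (cx x), hi0 x z, hi0 y z] at e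
    ext j
    have ej := congrFun e j
    simp only [Pi.add_apply, Pi.smul_apply, smul_eq_mul] at ej ⊢
    linear_combination (1 / 2) * ej
  -- (ii)
  have hii : ∀ (x : Fin k → ℝ) (z : Cn m),
      hf F (c1 (cx x) z z) z = (4 * Complex.I) • hf F z (a2 (cx x) (hf F z z)) := by
    intro x z
    rw [← sub_eq_zero]
    apply dcL_sep
    intro l
    have e := (Q0 l x z).2.1
    have e2 := hi x (rev (hf F z z)) z
    rw [hf_self hS] at e2
    rw [e2, map_smul, smul_eq_mul] at e
    rw [map_sub, map_smul, smul_eq_mul]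
    linear_combination (Complex.I / 2) * e + (dcL l (hf F (c1 (cx x) z z) z) -
      2 * Complex.I * dcL l (hf F z (a2 (cx x) (hf F z z)))) * Complex.I_sq
  -- (iii)
  have hiii : ∀ z : Cn m, hf F z (a2 (hf F z z) (hf F z z)) = 0 := by
    intro z
    apply dcL_sep
    intro l
    have e := (Q0 l 0 z).2.2
    have e2 := hi (rev (hf F z z)) (rev (hf F z z)) z
    have e3 := hii (rev (hf F z z)) z
    rw [hf_self hS] at e2 e3
    rw [e2, e3, map_smul, map_smul, smul_eq_mul, smul_eq_mul] at e
    linear_combination (-Complex.I / 8) * e + (dcL l (hf F z (a2 (hf F z z) (hf F z z)))) *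
      Complex.I_sq
  -- (iv)
  have hiv : ∀ l ∈ Lam Om, ∀ y0 ∈ closure Om, dt l y0 = 0 → ∀ (x : Fin k → ℝ) (z : Cn m),
      dcL l (hf F z (a2 (cx x) (cx y0))) = 0 := by
    intro l hl y0 hy0 hly x z
    have e := (Q l y0 (fun x z => hA l hl y0 hy0 hly x z) x z _ rfl).2.1
    have e2 := hi x (y0 + rev (hf F z z)) z
    have hxy : cx (y0 + rev (hf F z z)) = cx y0 + hf F z z := by
      conv_rhs => rw [← hf_self hS]
      ext j; simp [cx]
    rw [hxy] at e2
    rw [e2, hii x z, map_smul, map_smul, smul_eq_mul, smul_eq_mul] at e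
    simp only [map_add, hf_add_right] at e
    linear_combination (-1 / 8) * e + ((1 / 2) * dcL l (hf F z (a2 (cx x) (cx y0))) -
      (1 / 2) * dcL l (hf F z (a2 (cx x) (hf F z z)))) * Complex.I_sq
  obtain ⟨-, -, -, -, hL5, -, -⟩ := h2 m k F Om hS
  have hOm : ∀ x ∈ Om, a2 (cx x) (cx x) = 0 := by
    intro x hx
    by_contra hv
    set v := a2 (cx x) (cx x) with hvdef
    have hu : rev (hf F v v) ≠ 0 := by
      intro h0
      apply hv
      apply hS.pd
      rw [← hf_self hS, h0]
      ext j; simp [cx]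
    obtain ⟨s0, hs0, l, hl, hy, hly, hlu⟩ := hL5 x hx _ (hS.psd v) hu
    set u := rev (hf F v v) with hudef
    have hcu : cx u = hf F v v := hf_self hS v
    have hcy : cx (x - s0 • u) = cx x - (s0 : ℂ) • cx u := by ext j; simp [cx]
    have q1 := hiv l hl _ hy hly u v
    have q2 := hiv l hl _ hy hly x v
    rw [hcy] at q1 q2
    simp only [map_sub, map_smul, sub_eq_add_neg, hf_add_right, hr0, hf_smul_right, map_add,
      map_neg, smul_eq_mul, Complex.conj_ofReal] at q1 q2
    have q3 := hiii v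
    rw [← hcu] at q3
    rw [q3, map_zero, mul_zero, neg_zero, add_zero] at q1
    rw [ha (cx x) (cx u), q1, mul_zero, neg_zero, add_zero, ← hvdef, ← hcu, dcL_apply] at q2
    have : dc l (cx u) = ((dt l u : ℝ) : ℂ) := by
      simp [dc, dt, cx]
    rw [this] at q2
    have : dt l u = 0 := by exact_mod_cast q2
    linarith
  have ha0 : ∀ w : Cn k, a2 w w = 0 := by
    intro w
    refine h3 k (Cn m) Set.univ isOpen_univ isPreconnected_univ (fun w => a2 w w)
      (diff2 a2 differentiable_id differentiable_id).differentiableOn 0 Om hS.opn hS.nem ?_ w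
      (Set.mem_univ _)
    intro u hu
    exact ⟨Set.mem_univ _, by simpa using hOm u hu⟩
  have ha00 : ∀ u v : Cn k, a2 u v = 0 := by
    intro u v
    have e := ha0 (u + v)
    simp only [map_add, LinearMap.add_apply] at e
    rw [ha0 u, ha0 v, ha v u, zero_add, add_zero] at e
    ext j
    have ej := congrFun e j
    simp only [Pi.add_apply, Pi.zero_apply] at ej ⊢
    linear_combination (1 / 2) * ej
  have hb0 : ∀ (w : Cn k) (z : Cn m), β2 w w z = 0 := by
    intro w z
    refine h3 k (Cn k) Set.univ isOpen_univ isPreconnected_univ (fun w => β2 w w z)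
      ?_ 0 Om hS.opn hS.nem ?_ w (Set.mem_univ _)
    · have := diff2 (β2.compr₂ (LinearMap.applyₗ z)) (X := Cn k) differentiable_id
        differentiable_id
      exact this.differentiableOn
    · intro u hu
      refine ⟨Set.mem_univ _, ?_⟩
      have := hi0 u z
      rw [ha00, hz0', smul_zero] at this
      simpa using this
  have hc0 : ∀ (w : Cn k) (z : Cn m), hf F (c1 w z z) z = 0 := by
    intro w z
    have hw : w = cx (rev w) + Complex.I • cx (imv w) := by
      ext j
      simp only [cx, rev, imv, Pi.add_apply, Pi.smul_apply, smul_eq_mul]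
      rw [mul_comm]
      exact (Complex.re_add_im (w j)).symm
    have r1 := hii (rev w) z
    have r2 := hii (imv w) z
    rw [ha00, hz0', smul_zero] at r1 r2
    rw [hw]
    simp only [map_add, map_smul, LinearMap.add_apply, LinearMap.smul_apply, hf_add_left,
      hf_smul_left]
    rw [r1, r2, smul_zero, add_zero]
  intro w z
  refine ⟨?_, ha0 w, hb0 w z⟩
  have := h4 m k F Om hS Set.univ isOpen_univ (fun z => c1 w z z) (fun _ => 0) 1 one_ne_zero
    (diff2 (c1 w) differentiable_id differentiable_id).differentiableOn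
    (differentiableOn_const _) (fun z _ => by rw [hc0 w z, smul_zero]) z (Set.mem_univ _)
  exact this.1

end KVB
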