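import Pool.Agent.Lib.KV.B.SpecS

set_option autoImplicit false

open Set Filter Topology Metric

namespace KVB

open KP

namespace K4Aux

theorem cx_add {k : ℕ} (x y : Fin k → ℝ) : cx (x + y) = cx x + cx y := by
  ext j
  simp [cx]

theorem cx_smul {k : ℕ} (t : ℝ) (x : Fin k → ℝ) : cx (t • x) = (t : ℂ) • cx x := by
  ext j
  simp [cx]

theorem cx_sub {k : ℕ} (x y : Fin k → ℝ) : cx (x - y) = cx x - cx y := by
  ext j
  simp [cx]

theorem hf_zero_left {m k : ℕ} (F : Fin k → Matrix (Fin m) (Fin m) ℂ) (z : Cn m) :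
    hf F 0 z = 0 := by
  have h := hf_smul_left (F := F) 0 0 z
  simpa using h

theorem hf_zero_right {m k : ℕ} (F : Fin k → Matrix (Fin m) (Fin m) ℂ) (z : Cn m) :
    hf F z 0 = 0 := by
  have h := hf_smul_right (F := F) 0 z 0
  simpa using h

/-- The expansion in coordinates. -/
theorem expand {m k : ℕ} (M2 : Cn k →ₗ[ℂ] Cn k →ₗ[ℂ] Cn m →ₗ[ℂ] Cn m) (w : Cn k) (z : Cn m) :
    M2 w w z = ∑ i, ∑ j, (w i * w j) • M2 (fun a => if i = a then 1 else 0)
      (fun a => if j = a then 1 else 0) z := by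
  conv_lhs => rw [LinearMap.pi_apply_eq_sum_univ M2 w]
  rw [LinearMap.sum_apply, LinearMap.sum_apply]
  refine Finset.sum_congr rfl fun i _ => ?_
  rw [LinearMap.smul_apply, LinearMap.smul_apply,
    LinearMap.pi_apply_eq_sum_univ (M2 (fun a => if i = a then 1 else 0)) w, LinearMap.sum_apply,
    Finset.smul_sum]
  refine Finset.sum_congr rfl fun j _ => ?_
  rw [LinearMap.smul_apply, smul_smul]

theorem cont4 {m k : ℕ} (M2 : Cn k →ₗ[ℂ] Cn k →ₗ[ℂ] Cn m →ₗ[ℂ] Cn m) :
    Continuous (f4 M2) := by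
  unfold f4
  refine Continuous.prodMk ?_ continuous_const
  have e : (fun p : Vs m k => M2 p.2 p.2 p.1) = fun p : Vs m k => ∑ i, ∑ j, (p.2 i * p.2 j) •
      M2 (fun a => if i = a then 1 else 0) (fun a => if j = a then 1 else 0) p.1 :=
    funext fun p => expand M2 p.2 p.1
  rw [e]
  refine continuous_finsetSum _ fun i _ => continuous_finsetSum _ fun j _ => ?_
  have h1 : Continuous (M2 (fun a => if i = a then 1 else 0) (fun a => if j = a then 1 else 0)) :=
    LinearMap.continuous_of_finiteDimensional _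
  have h2 : Continuous (fun p : Vs m k =>
      M2 (fun a => if i = a then 1 else 0) (fun a => if j = a then 1 else 0) p.1) :=
    h1.comp continuous_fst
  have h3 : Continuous (fun p : Vs m k => p.2 i * p.2 j) := by fun_prop
  exact h3.smul h2

theorem diff4 {m k : ℕ} (M2 : Cn k →ₗ[ℂ] Cn k →ₗ[ℂ] Cn m →ₗ[ℂ] Cn m) (z : Cn m) :
    Differentiable ℂ (fun w : Cn k => M2 w w z) := by
  have e : (fun w : Cn k => M2 w w z) = fun w : Cn k => ∑ i, ∑ j, (w i * w j) •
      M2 (fun a => if i = a then 1 else 0) (fun a => if j = a then 1 else 0) z :=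
    funext fun w => expand M2 w z
  rw [e]
  fun_prop

/-- Comparison of coefficients. -/
theorem coef {a b c : ℂ} (h : ∀ t : ℝ, ((t : ℂ) ^ 2 * a + 2 * Complex.I * t * b - c).re = 0) :
    a.re = 0 ∧ b.im = 0 := by
  have h0 := h 0
  have h1 := h 1
  have h2 := h (-1)
  simp at h0 h1 h2
  constructor <;> linarith

/-- The quadratic expansion. -/
theorem quad {m k : ℕ} {M2 : Cn k →ₗ[ℂ] Cn k →ₗ[ℂ] Cn m →ₗ[ℂ] Cn m}
    (hs : ∀ u v, M2 u v = M2 v u) (X W : Cn k) (z : Cn m) (t : ℂ) :
    M2 (t • X + Complex.I • W) (t • X + Complex.I • W) z =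
      t ^ 2 • M2 X X z + (2 * Complex.I * t) • M2 X W z - M2 W W z := by
  have e : M2 W X z = M2 X W z := by rw [hs W X]
  simp only [map_add, map_smul, LinearMap.add_apply, LinearMap.smul_apply, e]
  ext j
  simp only [Pi.add_apply, Pi.sub_apply, Pi.smul_apply, smul_eq_mul]
  linear_combination (M2 W W z j) * Complex.I_mul_I

theorem hquad {m k : ℕ} (F : Fin k → Matrix (Fin m) (Fin m) ℂ)
    {M2 : Cn k →ₗ[ℂ] Cn k →ₗ[ℂ] Cn m →ₗ[ℂ] Cn m}
    (hs : ∀ u v, M2 u v = M2 v u) (X W : Cn k) (z : Cn m) (t : ℂ) (j : Fin k) :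
    hf F (M2 (t • X + Complex.I • W) (t • X + Complex.I • W) z) z j =
      t ^ 2 * hf F (M2 X X z) z j + (2 * Complex.I * t) * hf F (M2 X W z) z j -
        hf F (M2 W W z) z j := by
  rw [quad hs, sub_eq_add_neg, ← neg_one_smul ℂ (M2 W W z), hf_add_left, hf_add_left, hf_smul_left,
    hf_smul_left, hf_smul_left]
  simp only [Pi.add_apply, Pi.smul_apply, smul_eq_mul]
  ring

theorem dc_lin {k : ℕ} (l : Fin k → ℝ) (a b c : ℂ) (u v w : Cn k) :
    dc l (fun j => a * u j + b * v j - c * w j) = a * dc l u + b * dc l v - c * dc l w := by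
  simp only [dc, Finset.mul_sum, ← Finset.sum_add_distrib, ← Finset.sum_sub_distrib]
  refine Finset.sum_congr rfl fun j _ => by ring

/-- Skewness. -/
theorem skew {m k : ℕ} {F : Fin k → Matrix (Fin m) (Fin m) ℂ} {Om : Set (Fin k → ℝ)}
    (hS : Sie F Om) (M : Cn m →ₗ[ℂ] Cn m) (h : ∀ z j, (hf F (M z) z j).re = 0)
    (z z' : Cn m) : hf F (M z) z' + hf F z (M z') = 0 := by
  have h0 : ∀ z, hf F (M z) z + hf F z (M z) = 0 := by
    intro z
    ext j
    have h1 := h z j
    have h2 := hf_conj hS (M z) z j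
    simp only [Pi.add_apply, Pi.zero_apply, ← h2]
    apply Complex.ext
    · simp [h1]
    · simp
  have a1 := h0 (z + z')
  have a2 := h0 (z + Complex.I • z')
  have b1 := h0 z
  have b2 := h0 z'
  simp only [map_add, map_smul, hf_add_left, hf_add_right, hf_smul_left, hf_smul_right,
    Complex.conj_I] at a1 a2
  ext j
  have c1 := congrFun a1 j
  have c2 := congrFun a2 j
  have d1 := congrFun b1 j
  have d2 := congrFun b2 j
  simp only [Pi.add_apply, Pi.smul_apply, smul_eq_mul, Pi.zero_apply] at c1 c2 d1 d2 ⊢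
  have e1 : (hf F (M z) z' j + hf F z (M z') j) + (hf F (M z') z j + hf F z' (M z) j) = 0 := by
    linear_combination c1 - d1 - d2
  have e2 : -Complex.I * (hf F (M z) z' j + hf F z (M z') j) +
      Complex.I * (hf F (M z') z j + hf F z' (M z) j) = 0 := by
    linear_combination c2 - d1 - d2 + (hf F (M z') z' j + hf F z' (M z') j) * Complex.I_mul_I
  have e3 : (2 * Complex.I) * (hf F (M z) z' j + hf F z (M z') j) = 0 := by
    linear_combination Complex.I * e1 - e2
  have e4 : (2 * Complex.I) ≠ 0 := by simp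
  exact (mul_eq_zero.1 e3).resolve_left e4

/-- A skew endomorphism all of whose eigenvalues are zero is zero. -/
theorem zeroM {m k : ℕ} {F : Fin k → Matrix (Fin m) (Fin m) ℂ} {Om : Set (Fin k → ℝ)}
    (hS : Sie F Om) (M : Cn m →ₗ[ℂ] Cn m) (h : ∀ z j, (hf F (M z) z j).re = 0)
    (hev : ∀ (μ : ℂ) (z : Cn m), z ≠ 0 → M z = μ • z → μ = 0) : M = 0 := by
  by_contra hM
  have hne : ∃ z, M z ≠ 0 := by
    by_contra hcon
    push Not at hcon
    exact hM (LinearMap.ext hcon)
  obtain ⟨z1, hz1⟩ := hne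
  have hinv : ∀ x ∈ LinearMap.range M, M x ∈ LinearMap.range M := fun x _ => ⟨x, rfl⟩
  let N : Module.End ℂ (LinearMap.range M) := M.restrict hinv
  have hnt : Nontrivial (LinearMap.range M) := by
    refine ⟨⟨⟨M z1, ⟨z1, rfl⟩⟩, 0, ?_⟩⟩
    intro hc
    exact hz1 (congrArg Subtype.val hc)
  obtain ⟨μ, hμ⟩ := Module.End.exists_eigenvalue N
  obtain ⟨v, hv⟩ := hμ.exists_hasEigenvector
  have hv1 : N v = μ • v := hv.apply_eq_smul
  have hv0 : (v : Cn m) ≠ 0 := fun hc => hv.2 (Subtype.ext hc)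
  have hv2 : M (v : Cn m) = μ • (v : Cn m) := congrArg Subtype.val hv1
  have hμ0 := hev μ v hv0 hv2
  rw [hμ0, zero_smul] at hv2
  obtain ⟨z', hz'⟩ := v.2
  have hsk := skew hS M h z' v
  rw [hz', hv2, hf_zero_right, add_zero] at hsk
  exact hv0 (hS.pd _ hsk)

end K4Aux

open K4Aux in
theorem tK4 (h1 : S_BR) (h2 : S_LamP) (h3 : S_TRi) : S_K4 := by
  intro m k F Om hS hH M2 hs hC w z
  obtain ⟨hB1, hB2⟩ := h1 m k F Om hS hH (f4 M2) (cont4 M2) hC
  obtain ⟨-, -, -, -, hL5, -, -⟩ := h2 m k F Om hS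
  -- the second part of `BR`
  have hA : ∀ (x : Fin k → ℝ) (z : Cn m) (j : Fin k), (hf F (M2 (cx x) (cx x) z) z j).re = 0 ∧
      (hf F (M2 (cx x) (hf F z z) z) z j).im = 0 := by
    intro x z j
    refine coef (c := hf F (M2 (hf F z z) (hf F z z) z) z j) fun t => ?_
    have h := hB2 (t • x) z j
    simp only [f4, Pi.sub_apply, Pi.zero_apply, Pi.smul_apply, smul_eq_mul, zero_sub, cx_smul] at h
    rw [hquad F hs] at h
    rw [Complex.neg_im] at h
    set Q : ℂ := (t : ℂ) ^ 2 * hf F (M2 (cx x) (cx x) z) z j +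
      2 * Complex.I * t * hf F (M2 (cx x) (hf F z z) z) z j -
      hf F (M2 (hf F z z) (hf F z z) z) z j
    have e : (2 * Complex.I * Q).im = 2 * Q.re := by simp
    rw [e] at h
    linarith
  have hi : ∀ (x y : Fin k → ℝ) (z : Cn m) (j : Fin k),
      (hf F (M2 (cx x) (cx y) z) z j).re = 0 := by
    intro x y z j
    have a1 := (hA (x + y) z j).1
    have a2 := (hA x z j).1
    have a3 := (hA y z j).1
    rw [cx_add] at a1
    simp only [map_add, LinearMap.add_apply, hs (cx y) (cx x), hf_add_left, Pi.add_apply,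
      Complex.add_re] at a1
    linarith
  have hii : ∀ (x : Fin k → ℝ) (z : Cn m), hf F (M2 (cx x) (hf F z z) z) z = 0 := by
    intro x z
    ext j
    apply Complex.ext
    · have h := hi x (rev (hf F z z)) z j
      rw [hf_self hS] at h
      exact h
    · exact (hA x z j).2
  -- the first part of `BR`
  have hiii : ∀ l ∈ Lam Om, ∀ y0 ∈ closure Om, dt l y0 = 0 → ∀ (x : Fin k → ℝ) (z : Cn m),
      (dc l (hf F (M2 (cx x) (cx y0) z) z)).im = 0 := by
    intro l hl y0 hy0 hly x z
    have hW : (dc l (hf F (M2 (cx x) (cx y0 + hf F z z) z) z)).im = 0 := by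
      refine (coef (a := dc l (hf F (M2 (cx x) (cx x) z) z))
        (c := dc l (hf F (M2 (cx y0 + hf F z z) (cx y0 + hf F z z) z) z)) fun t => ?_).2
      have h := hB1 l hl y0 hy0 hly (t • x) z
      simp only [f4, cx_smul] at h
      have e1 : ((0 : Cn k) - (2 * Complex.I) •
          hf F (M2 ((t : ℂ) • cx x + Complex.I • (cx y0 + hf F z z))
            ((t : ℂ) • cx x + Complex.I • (cx y0 + hf F z z)) z) z) =
          fun j => (-(2 * Complex.I) * (t : ℂ) ^ 2) * hf F (M2 (cx x) (cx x) z) z j +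
            (-(2 * Complex.I) * (2 * Complex.I * t)) *
              hf F (M2 (cx x) (cx y0 + hf F z z) z) z j -
            (-(2 * Complex.I)) * hf F (M2 (cx y0 + hf F z z) (cx y0 + hf F z z) z) z j := by
        funext j
        simp only [Pi.sub_apply, Pi.zero_apply, Pi.smul_apply, smul_eq_mul]
        rw [hquad F hs]
        ring
      rw [e1, dc_lin] at h
      set a : ℂ := dc l (hf F (M2 (cx x) (cx x) z) z)
      set b : ℂ := dc l (hf F (M2 (cx x) (cx y0 + hf F z z) z) z)
      set c : ℂ := dc l (hf F (M2 (cx y0 + hf F z z) (cx y0 + hf F z z) z) z)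
      have e2 : -(2 * Complex.I) * (t : ℂ) ^ 2 * a + -(2 * Complex.I) * (2 * Complex.I * t) * b -
          -(2 * Complex.I) * c =
          -(2 * Complex.I * ((t : ℂ) ^ 2 * a + 2 * Complex.I * t * b - c)) := by ring
      rw [e2, Complex.neg_im] at h
      set Q : ℂ := (t : ℂ) ^ 2 * a + 2 * Complex.I * t * b - c
      have e : (2 * Complex.I * Q).im = 2 * Q.re := by simp
      rw [e] at h
      linarith
    rw [map_add, LinearMap.add_apply, hf_add_left, hii, add_zero] at hW
    exact hW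
  -- the endomorphisms of the points of the cone
  have hM : ∀ x ∈ Om, M2 (cx x) (cx x) = 0 := by
    intro x hx
    refine zeroM hS _ (fun z j => hi x x z j) ?_
    intro μ z hz hμ
    by_contra hμ0
    have hzz : cx (rev (hf F z z)) = hf F z z := hf_self hS z
    have hu0 : rev (hf F z z) ≠ 0 := by
      intro h0
      apply hz
      apply hS.pd
      rw [← hzz, h0]
      ext j
      simp [cx]
    have hre : μ.re = 0 := by
      obtain ⟨j, hj⟩ := Function.ne_iff.1 hu0
      have h := hi x x z j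
      rw [hμ, hf_smul_left, ← hzz] at h
      simp only [Pi.smul_apply, smul_eq_mul, cx, Complex.re_mul_ofReal] at h
      exact (mul_eq_zero.1 h).resolve_right hj
    obtain ⟨s0, hs0, l, hl, hy0, hly, hlu⟩ := hL5 x hx _ (hS.psd z) hu0
    have h := hiii l hl _ hy0 hly x z
    rw [cx_sub, cx_smul, hzz, map_sub, map_smul, LinearMap.sub_apply, LinearMap.smul_apply,
      sub_eq_add_neg, ← neg_smul, hf_add_left, hf_smul_left, hii, smul_zero, add_zero, hμ,
      hf_smul_left, ← hzz] at h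
    have e : dc l (μ • cx (rev (hf F z z))) = μ * ((dt l (rev (hf F z z)) : ℝ) : ℂ) := by
      simp only [dc, dt, Pi.smul_apply, smul_eq_mul, cx, Complex.ofReal_sum, Complex.ofReal_mul,
        Finset.mul_sum]
      refine Finset.sum_congr rfl fun j _ => by ring
    rw [e, Complex.im_mul_ofReal] at h
    have him : μ.im = 0 := (mul_eq_zero.1 h).resolve_right hlu.ne'
    exact hμ0 (Complex.ext hre him)
  -- the identity theorem
  refine h3 k (Cn m) univ isOpen_univ isPreconnected_univ (fun w => M2 w w z)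
    (diff4 M2 z).differentiableOn 0 Om hS.opn hS.nem ?_ w (mem_univ w)
  intro u hu
  refine ⟨mem_univ _, ?_⟩
  rw [zero_add, hM u hu]
  rfl

end KVB
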