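import Pool.Agent.Lib.KV.B.SpecS

set_option autoImplicit false

open Set Filter Topology Metric

namespace KVB

open KP

namespace K5Aux

theorem difL {E G : Type} [NormedAddCommGroup E] [NormedSpace ℂ E] [NormedAddCommGroup G]
    [NormedSpace ℂ G] {n : ℕ} {φ : E → Cn n → G} (hlin : ∀ p, IsLinearMap ℂ (φ p))
    (hφ : ∀ v, Differentiable ℂ (fun p => φ p v)) {g : E → Cn n} (hg : Differentiable ℂ g) :
    Differentiable ℂ (fun p => φ p (g p)) := by
  have h1 : (fun p => φ p (g p)) = fun p => ∑ i, g p i • φ p (Pi.single i 1) := by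
    funext p
    have := LinearMap.pi_apply_eq_sum_univ (hlin p).mk' (g p)
    simp only [IsLinearMap.mk'_apply] at this
    rw [this]
    refine Finset.sum_congr rfl fun i _ => ?_
    congr 2
    funext j
    by_cases h : i = j
    · subst h; simp
    · rw [if_neg h, Pi.single_apply, if_neg (fun h' => h h'.symm)]
  rw [h1]
  refine Differentiable.fun_sum fun i _ => ?_
  exact (differentiable_pi.1 hg i).smul (hφ _)

theorem dif_hf {E : Type} [NormedAddCommGroup E] [NormedSpace ℂ E] {m k : ℕ}
    (F : Fin k → Matrix (Fin m) (Fin m) ℂ) (z : Cn m) {g : E → Cn m}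
    (hg : Differentiable ℂ g) : Differentiable ℂ (fun p => hf F (g p) z) :=
  difL (φ := fun _ v => hf F v z) (fun _ => ⟨fun a b => hf_add_left a b z,
    fun c a => hf_smul_left c a z⟩) (fun _ => differentiable_const _) hg

theorem dif_c2 {E : Type} [NormedAddCommGroup E] [NormedSpace ℂ E] {m k : ℕ}
    (c2 : Cn k →ₗ[ℂ] Cn k →ₗ[ℂ] Cn m →ₗ[ℂ] Cn m →ₗ[ℂ] Cn m) {g : E → Cn k} {f : E → Cn m}
    (hg : Differentiable ℂ g) (hf : Differentiable ℂ f) :
    Differentiable ℂ (fun p => c2 (g p) (g p) (f p) (f p)) := by
  refine difL (φ := fun p v => c2 (g p) (g p) (f p) v)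
    (fun _ => ⟨fun a b => by simp, fun c a => by simp⟩) (fun v => ?_) hf
  refine difL (φ := fun p v' => c2 (g p) (g p) v' v)
    (fun _ => ⟨fun a b => by simp, fun c a => by simp⟩) (fun v' => ?_) hf
  refine difL (φ := fun p u => c2 (g p) u v' v)
    (fun _ => ⟨fun a b => by simp, fun c a => by simp⟩) (fun u => ?_) hg
  exact difL (φ := fun _ u' => c2 u' u v' v)
    (fun _ => ⟨fun a b => by simp, fun c a => by simp⟩) (fun _ => differentiable_const _) hg

end K5Aux

open K5Aux

theorem tK5 (h1 : S_BR) (h2 : S_TRi) (h3 : S_Pola) : S_K5 := by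
  intro m k F Om hS hH c2 hc
  have hX : Continuous (f5 c2 : Vs m k → Vs m k) := by
    have h := (dif_c2 (E := Vs m k) c2 differentiable_snd differentiable_fst).continuous
    exact h.prodMk continuous_const
  obtain ⟨-, hbr⟩ := h1 m k F Om hS hH (f5 c2) hX hc
  -- the real part
  have hre : ∀ (x : Fin k → ℝ) (z : Cn m) (j : Fin k),
      (hf F (c2 (cx x + Complex.I • hf F z z) (cx x + Complex.I • hf F z z) z z) z j).re = 0 := by
    intro x z j
    have h := hbr x z j
    simp only [f5] at h
    generalize c2 (cx x + Complex.I • hf F z z) (cx x + Complex.I • hf F z z) z z = a at h ⊢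
    simpa using h
  have hII : ∀ z : Cn m, hf F (Complex.I • z) (Complex.I • z) = hf F z z := by
    intro z
    rw [hf_smul_left, hf_smul_right, smul_smul, Complex.conj_I]
    simp
  have hz : ∀ (x : Fin k → ℝ) (z : Cn m),
      hf F (c2 (cx x + Complex.I • hf F z z) (cx x + Complex.I • hf F z z) z z) z = 0 := by
    intro x z
    ext j
    have ha := hre x z j
    have hb := hre x (Complex.I • z) j
    rw [hII, map_smul, map_smul, LinearMap.smul_apply, hf_smul_left, hf_smul_left,
      hf_smul_right, smul_smul, smul_smul, Complex.conj_I] at hb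
    have hc' : Complex.I * Complex.I * -Complex.I = Complex.I := by
      linear_combination (-Complex.I) * Complex.I_mul_I
    rw [hc'] at hb
    simp only [Pi.smul_apply, smul_eq_mul, Complex.mul_re, Complex.I_re, Complex.I_im] at hb
    apply Complex.ext
    · exact ha
    · simp only [Pi.zero_apply, Complex.zero_im]
      linarith
  have hall : ∀ (z : Cn m) (w : Cn k), hf F (c2 w w z z) z = 0 := by
    intro z w
    have hd : Differentiable ℂ (fun w : Cn k => hf F (c2 w w z z) z) :=
      dif_hf F z (dif_c2 c2 differentiable_id (differentiable_const z))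
    refine h2 k (Cn k) univ isOpen_univ isPreconnected_univ _ hd.differentiableOn
      (Complex.I • hf F z z) univ isOpen_univ univ_nonempty (fun u _ => ⟨mem_univ _, ?_⟩) w
      (mem_univ _)
    rw [add_comm]
    exact hz u z
  intro w z
  have hd : Differentiable ℂ (fun z : Cn m => c2 w w z z) :=
    dif_c2 c2 (differentiable_const w) differentiable_id
  refine (h3 m k F Om hS univ isOpen_univ (fun z => c2 w w z z) (fun _ => 0) 1 one_ne_zero
    hd.differentiableOn (differentiableOn_const _) (fun z _ => ?_) z (mem_univ _)).1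
  rw [hall z w, smul_zero]

end KVB
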