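import Pool.Agent.Lib.KV.B.SpecS

set_option autoImplicit false

open Set Filter Topology Metric

namespace KVB

open KP

namespace LamPAux

variable {k : ℕ}

theorem dt_add (l y y' : Fin k → ℝ) : dt l (y + y') = dt l y + dt l y' := by
  simp only [dt, Pi.add_apply, mul_add, Finset.sum_add_distrib]

theorem dt_smul (l y : Fin k → ℝ) (t : ℝ) : dt l (t • y) = t * dt l y := by
  simp only [dt, Pi.smul_apply, smul_eq_mul, Finset.mul_sum]
  exact Finset.sum_congr rfl fun j _ => by ring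

theorem dt_neg (l y : Fin k → ℝ) : dt l (-y) = -dt l y := by
  simp only [dt, Pi.neg_apply, mul_neg, Finset.sum_neg_distrib]

theorem dt_sub (l y y' : Fin k → ℝ) : dt l (y - y') = dt l y - dt l y' := by
  rw [sub_eq_add_neg, dt_add, dt_neg, sub_eq_add_neg]

theorem dt_sum {ι : Type} (s : Finset ι) (l : ι → Fin k → ℝ) (y : Fin k → ℝ) :
    dt (∑ i ∈ s, l i) y = ∑ i ∈ s, dt (l i) y := by
  simp only [dt, Finset.sum_apply, Finset.sum_mul]
  exact Finset.sum_comm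

theorem cont_dt (l : Fin k → ℝ) : Continuous (dt l) := by
  unfold dt
  fun_prop

theorem dt_self_pos {l : Fin k → ℝ} (hl : l ≠ 0) : 0 < dt l l := by
  have h : ∃ j, l j ≠ 0 := by
    by_contra hc
    push Not at hc
    exact hl (funext hc)
  obtain ⟨j, hj⟩ := h
  exact Finset.sum_pos' (fun i _ => mul_self_nonneg _)
    ⟨j, Finset.mem_univ j, mul_self_pos.2 hj⟩

/-- Continuous linear forms are of the form `dt l`. -/
theorem exists_dt (f : StrongDual ℝ (Fin k → ℝ)) : ∃ l : Fin k → ℝ, ∀ y, f y = dt l y := by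
  refine ⟨fun j => f (Pi.single j 1), fun y => ?_⟩
  have h : y = ∑ j, y j • (Pi.single j (1 : ℝ) : Fin k → ℝ) := by
    ext i
    simp [Finset.sum_apply, Pi.single_apply]
  conv_lhs => rw [h]
  rw [map_sum]
  refine Finset.sum_congr rfl fun j _ => ?_
  rw [map_smul, smul_eq_mul, mul_comm]

theorem small {Om : Set (Fin k → ℝ)} (ho : IsOpen Om) {y : Fin k → ℝ} (hy : y ∈ Om)
    (v : Fin k → ℝ) : ∃ t : ℝ, 0 < t ∧ y + t • v ∈ Om := by
  have h1 : Tendsto (fun t : ℝ => y + t • v) (𝓝 0) (𝓝 y) := by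
    have h2 : Continuous (fun t : ℝ => y + t • v) := by fun_prop
    have h3 := h2.tendsto 0
    simpa using h3
  have h4 : ∀ᶠ t in 𝓝[>] (0 : ℝ), y + t • v ∈ Om :=
    (h1.mono_left nhdsWithin_le_nhds) (ho.mem_nhds hy)
  obtain ⟨t, ht, ht0⟩ := (h4.and self_mem_nhdsWithin).exists
  exact ⟨t, ht0, ht⟩

variable {Om : Set (Fin k → ℝ)}

theorem p1 (ho : IsOpen Om) {l : Fin k → ℝ} (hl : l ∈ Lam Om) {y : Fin k → ℝ} (hy : y ∈ Om) :
    0 < dt l y := by
  obtain ⟨t, ht, h⟩ := small ho hy (-l)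
  have h1 := hl.2 _ h
  rw [dt_add, dt_smul, dt_neg] at h1
  have h2 : 0 < t * dt l l := mul_pos ht (dt_self_pos hl.1)
  linarith

theorem p2 {l : Fin k → ℝ} (hl : l ∈ Lam Om) {y : Fin k → ℝ} (hy : y ∈ closure Om) :
    0 ≤ dt l y := by
  have h1 : IsClosed {y | 0 ≤ dt l y} := isClosed_le continuous_const (cont_dt l)
  exact closure_minimal (fun z hz => hl.2 z hz) h1 hy

theorem add_mem (hc : Convex ℝ Om) (hk : ∀ y ∈ Om, ∀ t : ℝ, 0 < t → t • y ∈ Om)
    {y y' : Fin k → ℝ} (hy : y ∈ Om) (hy' : y' ∈ Om) : y + y' ∈ Om := by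
  have h1 : (1 / 2 : ℝ) • y + (1 / 2 : ℝ) • y' ∈ Om :=
    hc hy hy' (by norm_num) (by norm_num) (by norm_num)
  have h2 := hk _ h1 2 (by norm_num)
  rw [smul_add, smul_smul, smul_smul] at h2
  norm_num at h2
  exact h2

theorem p3 (ho : IsOpen Om) (hc : Convex ℝ Om) (hk : ∀ y ∈ Om, ∀ t : ℝ, 0 < t → t • y ∈ Om)
    {y y' : Fin k → ℝ} (hy : y ∈ closure Om) (hy' : y' ∈ Om) : y + y' ∈ Om := by
  have h1 : Tendsto (fun z : Fin k → ℝ => y' + (y - z)) (𝓝 y) (𝓝 y') := by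
    have h2 : Continuous (fun z : Fin k → ℝ => y' + (y - z)) := by fun_prop
    have h3 := h2.tendsto y
    simpa using h3
  have h4 : ∀ᶠ z in 𝓝 y, y' + (y - z) ∈ Om := h1 (ho.mem_nhds hy')
  obtain ⟨z, hz1, hz2⟩ := mem_closure_iff_nhds.1 hy _ h4
  have h5 := add_mem hc hk hz2 hz1
  have h6 : z + (y' + (y - z)) = y + y' := by abel
  rwa [h6] at h5

theorem p7 (hn : Om.Nonempty) (hk : ∀ y ∈ Om, ∀ t : ℝ, 0 < t → t • y ∈ Om) :
    (0 : Fin k → ℝ) ∈ closure Om := by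
  obtain ⟨y, hy⟩ := hn
  have h1 : Tendsto (fun t : ℝ => t • y) (𝓝[>] 0) (𝓝 0) := by
    have h2 : Continuous (fun t : ℝ => t • y) := by fun_prop
    have h3 := h2.tendsto 0
    rw [zero_smul] at h3
    exact h3.mono_left nhdsWithin_le_nhds
  refine mem_closure_of_tendsto h1 ?_
  filter_upwards [self_mem_nhdsWithin] with t ht
  exact hk y hy t ht

/-- A linear form which is bounded below on a cone is nonnegative. -/
theorem nonneg_of_bdd (hk : ∀ y ∈ Om, ∀ t : ℝ, 0 < t → t • y ∈ Om) {l : Fin k → ℝ} {C : ℝ}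
    (h : ∀ y ∈ Om, C ≤ dt l y) : ∀ y ∈ Om, 0 ≤ dt l y := by
  intro y hy
  by_contra hc
  push Not at hc
  have h1 : 0 < (|C| + 1) / (-dt l y) := div_pos (by positivity) (by linarith)
  have h2 := h _ (hk y hy _ h1)
  rw [dt_smul] at h2
  have h3 : (|C| + 1) / (-dt l y) * dt l y = -(|C| + 1) := by
    have : dt l y ≠ 0 := hc.ne
    field_simp
  rw [h3] at h2
  have := neg_abs_le C
  linarith

theorem sepc (hn : Om.Nonempty) (hc : Convex ℝ Om)
    (hk : ∀ y ∈ Om, ∀ t : ℝ, 0 < t → t • y ∈ Om) {y : Fin k → ℝ} (hy : y ∉ closure Om) :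
    ∃ l ∈ Lam Om, dt l y < 0 := by
  obtain ⟨f, u, h1, h2⟩ := geometric_hahn_banach_point_closed hc.closure isClosed_closure hy
  obtain ⟨l, hl⟩ := exists_dt f
  have h3 := h2 0 (p7 hn hk)
  rw [map_zero] at h3
  have h4 : dt l y < 0 := by
    rw [← hl]
    linarith
  refine ⟨l, ⟨?_, nonneg_of_bdd hk (C := u) fun z hz => ?_⟩, h4⟩
  · rintro rfl
    simp [dt] at h4
  · rw [← hl]
    exact (h2 z (subset_closure hz)).le

theorem p4 (hn : Om.Nonempty) (hc : Convex ℝ Om)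
    (hk : ∀ y ∈ Om, ∀ t : ℝ, 0 < t → t • y ∈ Om)
    (hp : ∀ y : Fin k → ℝ, y ∈ closure Om → -y ∈ closure Om → y = 0) {y : Fin k → ℝ}
    (h : ∀ l ∈ Lam Om, dt l y = 0) : y = 0 := by
  refine hp y ?_ ?_
  · by_contra hy
    obtain ⟨l, hl, h1⟩ := sepc hn hc hk hy
    rw [h l hl] at h1
    exact lt_irrefl _ h1
  · by_contra hy
    obtain ⟨l, hl, h1⟩ := sepc hn hc hk hy
    rw [dt_neg, h l hl, neg_zero] at h1
    exact lt_irrefl _ h1

theorem cone_closure (hk : ∀ y ∈ Om, ∀ t : ℝ, 0 < t → t • y ∈ Om) {y : Fin k → ℝ}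
    (hy : y ∈ closure Om) {t : ℝ} (ht : 0 < t) : t • y ∈ closure Om := by
  have h1 : Continuous (fun z : Fin k → ℝ => t • z) := by fun_prop
  have h2 : MapsTo (fun z : Fin k → ℝ => t • z) Om Om := fun z hz => hk z hz t ht
  exact map_mem_closure h1 hy h2

theorem p6 (hn : Om.Nonempty) (hc : Convex ℝ Om)
    (hk : ∀ y ∈ Om, ∀ t : ℝ, 0 < t → t • y ∈ Om)
    (hp : ∀ y : Fin k → ℝ, y ∈ closure Om → -y ∈ closure Om → y = 0) :
    ∃ (lam : Fin k → ℝ) (c : ℝ), 0 < c ∧ ∀ y ∈ closure Om, c * ‖y‖ ≤ dt lam y := by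
  classical
  set S : Set (Fin k → ℝ) := closure Om ∩ sphere 0 1 with hS
  have hSc : IsCompact S := (isCompact_sphere 0 1).inter_left isClosed_closure
  have h1 : ∀ y ∈ S, ∃ l ∈ Lam Om, 0 < dt l y := by
    intro y hy
    by_contra hcon
    push Not at hcon
    have h2 : y = 0 := p4 hn hc hk hp fun l hl => le_antisymm (hcon l hl) (p2 hl hy.1)
    have h3 := hy.2
    rw [h2, mem_sphere_zero_iff_norm, norm_zero] at h3
    exact zero_ne_one h3
  choose! l hl hpos using h1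
  obtain ⟨T, hTS, hT⟩ := hSc.elim_nhds_subcover (fun y => {z | 0 < dt (l y) z}) fun y hy =>
    (isOpen_lt continuous_const (cont_dt (l y))).mem_nhds (hpos y hy)
  have h4 : ∀ z ∈ S, 0 < dt (∑ y ∈ T, l y) z := by
    intro z hz
    rw [dt_sum]
    obtain ⟨y, hy, hyz⟩ := mem_iUnion₂.1 (hT hz)
    exact Finset.sum_pos' (fun i hi => p2 (hl i (hTS i hi)) hz.1) ⟨y, hy, hyz⟩
  obtain ⟨c, hc0, hcS⟩ : ∃ c : ℝ, 0 < c ∧ ∀ z ∈ S, c ≤ dt (∑ y ∈ T, l y) z := by
    rcases S.eq_empty_or_nonempty with he | hne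
    · exact ⟨1, one_pos, fun z hz => by rw [he] at hz; exact absurd hz (notMem_empty z)⟩
    · obtain ⟨z0, hz0, hmin⟩ := hSc.exists_isMinOn hne (cont_dt (∑ y ∈ T, l y)).continuousOn
      exact ⟨_, h4 z0 hz0, fun z hz => hmin hz⟩
  refine ⟨∑ y ∈ T, l y, c, hc0, fun y hy => ?_⟩
  by_cases hy0 : y = 0
  · rw [hy0, norm_zero, mul_zero]
    simp [dt]
  have hny : 0 < ‖y‖ := norm_pos_iff.2 hy0
  have h5 : ‖y‖⁻¹ • y ∈ S := by
    refine ⟨cone_closure hk hy (inv_pos.2 hny), ?_⟩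
    rw [mem_sphere_zero_iff_norm, norm_smul, norm_inv, norm_norm, inv_mul_cancel₀ hny.ne']
  have h6 := hcS _ h5
  rw [dt_smul, inv_mul_eq_div, le_div_iff₀ hny] at h6
  exact h6

theorem p5 (ho : IsOpen Om) (hn : Om.Nonempty) (hc : Convex ℝ Om)
    (hk : ∀ y ∈ Om, ∀ t : ℝ, 0 < t → t • y ∈ Om)
    (hp : ∀ y : Fin k → ℝ, y ∈ closure Om → -y ∈ closure Om → y = 0) {x u : Fin k → ℝ}
    (hx : x ∈ Om) (hu : u ∈ closure Om) (hu0 : u ≠ 0) :
    ∃ s0 : ℝ, 0 < s0 ∧ ∃ l ∈ Lam Om,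
      x - s0 • u ∈ closure Om ∧ dt l (x - s0 • u) = 0 ∧ 0 < dt l u := by
  obtain ⟨lam, c, hc0, hlam⟩ := p6 hn hc hk hp
  set S : Set ℝ := {s | 0 ≤ s ∧ x - s • u ∈ closure Om} with hS
  have hcont : Continuous (fun s : ℝ => x - s • u) := by fun_prop
  have hSc : IsClosed S := isClosed_Ici.inter (isClosed_closure.preimage hcont)
  have h0S : (0 : ℝ) ∈ S := ⟨le_rfl, by rw [zero_smul, sub_zero]; exact subset_closure hx⟩
  have hlu : 0 < dt lam u :=
    lt_of_lt_of_le (mul_pos hc0 (norm_pos_iff.2 hu0)) (hlam u hu)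
  have hSb : BddAbove S := by
    refine ⟨dt lam x / dt lam u, fun s hs => ?_⟩
    have h1 := (mul_nonneg hc0.le (norm_nonneg _)).trans (hlam _ hs.2)
    rw [dt_sub, dt_smul] at h1
    rw [le_div_iff₀ hlu]
    linarith
  set s0 := sSup S with hs0
  have hs0S : s0 ∈ S := hSc.csSup_mem ⟨0, h0S⟩ hSb
  have hs0pos : 0 < s0 := by
    obtain ⟨t, ht, h1⟩ := small ho hx (-u)
    rw [smul_neg, ← sub_eq_add_neg] at h1
    exact lt_of_lt_of_le ht (le_csSup hSb ⟨ht.le, subset_closure h1⟩)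
  have hy0 : x - s0 • u ∉ Om := by
    intro hy
    obtain ⟨t, ht, h1⟩ := small ho hy (-u)
    have h2 : x - s0 • u + t • -u = x - (s0 + t) • u := by
      rw [smul_neg, add_smul]
      abel
    rw [h2] at h1
    have h3 : s0 + t ≤ s0 :=
      le_csSup hSb ⟨by linarith [hs0pos], subset_closure h1⟩
    linarith
  obtain ⟨f, hf⟩ := geometric_hahn_banach_open_point hc ho hy0
  obtain ⟨l', hl'⟩ := exists_dt f
  set l : Fin k → ℝ := -l' with hl
  have hdl : ∀ y, dt l y = -f y := by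
    intro y
    rw [hl', hl]
    simp only [dt, Pi.neg_apply, neg_mul, Finset.sum_neg_distrib]
  have h1 : ∀ a ∈ Om, dt l (x - s0 • u) < dt l a := by
    intro a ha
    rw [hdl, hdl]
    exact neg_lt_neg (hf a ha)
  have h2 : ∀ a ∈ Om, 0 ≤ dt l a := nonneg_of_bdd hk fun a ha => (h1 a ha).le
  have hlne : l ≠ 0 := by
    intro h0
    have h3 := h1 x hx
    rw [h0] at h3
    simp [dt] at h3
  have hlL : l ∈ Lam Om := ⟨hlne, h2⟩
  have h3 : 0 ≤ dt l (x - s0 • u) := p2 hlL hs0S.2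
  have h4 : dt l (x - s0 • u) ≤ 0 := by
    by_contra hcon
    push Not at hcon
    have h5 : 0 < dt l x := p1 ho hlL hx
    have h6 : 0 < dt l (x - s0 • u) / (2 * dt l x) := by positivity
    have h7 := h1 _ (hk x hx _ h6)
    rw [dt_smul] at h7
    have h8 : dt l (x - s0 • u) / (2 * dt l x) * dt l x = dt l (x - s0 • u) / 2 := by
      field_simp
    rw [h8] at h7
    linarith
  have h5 : dt l (x - s0 • u) = 0 := le_antisymm h4 h3
  refine ⟨s0, hs0pos, l, hlL, hs0S.2, h5, ?_⟩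
  have h6 := p1 ho hlL hx
  rw [dt_sub, dt_smul] at h5
  have h7 : 0 < s0 * dt l u := by linarith
  exact (mul_pos_iff_of_pos_left hs0pos).1 h7

end LamPAux

open LamPAux

theorem tLamP : S_LamP := by
  intro m k F Om hS
  exact ⟨fun l hl y hy => p1 hS.opn hl hy, fun l hl y hy => p2 hl hy,
    fun y hy y' hy' => p3 hS.opn hS.cvx hS.cone hy hy',
    fun y hy => p4 hS.nem hS.cvx hS.cone hS.pnt hy,
    fun x hx u hu hu0 => p5 hS.opn hS.nem hS.cvx hS.cone hS.pnt hx hu hu0,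
    p6 hS.nem hS.cvx hS.cone hS.pnt, p7 hS.nem hS.cone⟩

end KVB
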