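import Pool.Agent.Lib.KV.B.SpecS

set_option autoImplicit false

open Set Filter Topology Metric

namespace KVB

open KP

section PolF

variable {E G : Type} [NormedAddCommGroup E] [NormedSpace ℂ E] [FiniteDimensional ℂ E]
  [NormedAddCommGroup G] [NormedSpace ℂ G] [FiniteDimensional ℂ G]

private theorem polF_line {G : Type} [NormedAddCommGroup G] [NormedSpace ℂ G]
    [FiniteDimensional ℂ G] (g : ℂ → G) (hg : Differentiable ℂ g)
    (h : ∀ t s : ℂ, g (t + 3 * s) - (3 : ℂ) • g (t + 2 * s) + (3 : ℂ) • g (t + s) - g t = 0) :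
    ∀ t, g t = g 0 + t • deriv g 0 + (t ^ 2 / 2) • deriv (deriv g) 0 := by
  haveI : CompleteSpace G := FiniteDimensional.complete ℂ G
  have hg1 : Differentiable ℂ (deriv g) := by
    rw [← differentiableOn_univ]
    exact hg.differentiableOn.deriv isOpen_univ
  have hlin : ∀ (f : ℂ → G) (hf : Differentiable ℂ f) (t a s : ℂ),
      HasDerivAt (fun s => f (t + a * s)) (a • deriv f (t + a * s)) s := by
    intro f hf t a s
    have h1 : HasDerivAt (fun s : ℂ => t + a * s) a s := by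
      simpa using ((hasDerivAt_id s).const_mul a).const_add t
    exact (hf _).hasDerivAt.scomp s h1
  have e1 : ∀ t s : ℂ, (3 : ℂ) • deriv g (t + 3 * s) - (3 : ℂ) • ((2 : ℂ) • deriv g (t + 2 * s)) +
      (3 : ℂ) • ((1 : ℂ) • deriv g (t + 1 * s)) = 0 := by
    intro t s
    have hd := (((hlin g hg t 3 s).sub ((hlin g hg t 2 s).const_smul (3 : ℂ))).add
      ((hlin g hg t 1 s).const_smul (3 : ℂ))).sub (hasDerivAt_const s (g t))
    have hz : (fun s => g (t + 3 * s)) - ((3 : ℂ) • fun s => g (t + 2 * s)) +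
        ((3 : ℂ) • fun s => g (t + 1 * s)) - (fun _ => g t) = fun _ => (0 : G) := by
      funext s
      have := h t s
      simpa using this
    have hd' : HasDerivAt (fun _ : ℂ => (0 : G)) ((3 : ℂ) • deriv g (t + 3 * s) -
      (3 : ℂ) • ((2 : ℂ) • deriv g (t + 2 * s)) +
      (3 : ℂ) • ((1 : ℂ) • deriv g (t + 1 * s)) - 0) s := by
      rw [← hz]; exact hd
    have := hd'.unique (hasDerivAt_const s (0 : G))
    simpa using this
  have e2 : ∀ t s : ℂ, deriv g (t + 2 * s) - (2 : ℂ) • deriv g (t + 1 * s) + deriv g t = 0 := by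
    intro t s
    have h1 := e1 (t - s) s
    have a1 : t - s + 3 * s = t + 2 * s := by ring
    have a2 : t - s + 2 * s = t + 1 * s := by ring
    have a3 : t - s + 1 * s = t := by ring
    rw [a1, a2, a3] at h1
    have h2 : (3 : ℂ) • (deriv g (t + 2 * s) - (2 : ℂ) • deriv g (t + 1 * s) + deriv g t) = 0 := by
      rw [← h1]; module
    exact (smul_eq_zero.mp h2).resolve_left (by norm_num)
  have e3 : ∀ s : ℂ, deriv (deriv g) s = deriv (deriv g) 0 := by
    intro s
    have key : ∀ t : ℂ, (2 : ℂ) • deriv (deriv g) (t + 2 * s) -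
        (2 : ℂ) • ((1 : ℂ) • deriv (deriv g) (t + 1 * s)) = 0 := by
      intro t
      have hd := ((hlin _ hg1 t 2 s).sub ((hlin _ hg1 t 1 s).const_smul (2 : ℂ))).add
        (hasDerivAt_const s (deriv g t))
      have hz : (fun s => deriv g (t + 2 * s)) - ((2 : ℂ) • fun s => deriv g (t + 1 * s)) +
          (fun _ => deriv g t) = fun _ => (0 : G) := by
        funext s
        have := e2 t s
        simpa using this
      have hd' : HasDerivAt (fun _ : ℂ => (0 : G)) ((2 : ℂ) • deriv (deriv g) (t + 2 * s) -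
        (2 : ℂ) • ((1 : ℂ) • deriv (deriv g) (t + 1 * s)) + 0) s := by
        rw [← hz]; exact hd
      have := hd'.unique (hasDerivAt_const s (0 : G))
      simpa using this
    have h1 := key (-s)
    have a1 : -s + 2 * s = s := by ring
    have a2 : -s + 1 * s = 0 := by ring
    rw [a1, a2] at h1
    have h2 : (2 : ℂ) • (deriv (deriv g) s - deriv (deriv g) 0) = 0 := by
      rw [← h1]; module
    exact sub_eq_zero.mp ((smul_eq_zero.mp h2).resolve_left (by norm_num))
  have e4 : ∀ t : ℂ, deriv g t = deriv g 0 + t • deriv (deriv g) 0 := by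
    intro t
    have hd : ∀ t, HasDerivAt (fun t => deriv g t - t • deriv (deriv g) 0) 0 t := by
      intro t
      have h1 := (hg1 t).hasDerivAt.sub ((hasDerivAt_id t).smul_const (deriv (deriv g) 0))
      have h2 : deriv (deriv g) t - (1 : ℂ) • deriv (deriv g) 0 = 0 := by
        rw [e3 t, one_smul, sub_self]
      rw [h2] at h1
      exact h1
    have := is_const_of_deriv_eq_zero (fun t => (hd t).differentiableAt) (fun t => (hd t).deriv) t 0
    simp only [zero_smul, sub_zero] at this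
    rw [← this]; abel
  intro t
  have hd : ∀ t, HasDerivAt
      (fun t => g t - t • deriv g 0 - (t ^ 2 / 2) • deriv (deriv g) 0) 0 t := by
    intro t
    have h1 := (hg t).hasDerivAt.sub ((hasDerivAt_id t).smul_const (deriv g 0))
    have h2 : HasDerivAt (fun t : ℂ => t ^ 2 / 2) t t := by
      have h5 := (hasDerivAt_pow 2 t).div_const (2 : ℂ)
      have h6 : ((2 : ℕ) : ℂ) * t ^ (2 - 1) / 2 = t := by
        norm_num
      rw [h6] at h5
      exact h5
    have h3 := h1.sub (h2.smul_const (deriv (deriv g) 0))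
    have h7 : deriv g t - (1 : ℂ) • deriv g 0 - t • deriv (deriv g) 0 = 0 := by
      rw [e4 t]; module
    rw [h7] at h3
    exact h3
  have := is_const_of_deriv_eq_zero (fun t => (hd t).differentiableAt) (fun t => (hd t).deriv) t 0
  simp only [zero_smul, sub_zero] at this
  have h0 : ((0 : ℂ) ^ 2 / 2) • deriv (deriv g) 0 = 0 := by simp
  rw [h0, sub_zero] at this
  rw [← this]; abel

private theorem polF_one {E G : Type} [NormedAddCommGroup E] [NormedSpace ℂ E]
    [FiniteDimensional ℂ E] [NormedAddCommGroup G] [NormedSpace ℂ G] [FiniteDimensional ℂ G] (f : E → G) (hf : Differentiable ℂ f) (h : ∀ v p : E, D3 f v p = 0) :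
    ∃ (g0 : G) (g1 : E →ₗ[ℂ] G) (g2 : E →ₗ[ℂ] E →ₗ[ℂ] G), ∀ w, f w = g0 + g1 w + g2 w w := by
  haveI : CompleteSpace G := FiniteDimensional.complete ℂ G
  have hf1 : Differentiable ℂ (fderiv ℂ f) := by
    rw [← differentiableOn_univ]
    exact Pool.Agent.Lib.Osgood.differentiableOn_fderiv isOpen_univ hf.differentiableOn
  refine ⟨f 0, (fderiv ℂ f 0 : E →ₗ[ℂ] G), (1 / 2 : ℂ) •
    ((ContinuousLinearMap.coeLM ℂ) ∘ₗ (fderiv ℂ (fderiv ℂ f) 0 : E →ₗ[ℂ] (E →L[ℂ] G))), ?_⟩
  intro w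
  have hl : ∀ t : ℂ, HasDerivAt (fun t : ℂ => t • w) w t := by
    intro t
    simpa using (hasDerivAt_id t).smul_const w
  have d1 : ∀ t : ℂ, HasDerivAt (fun t : ℂ => f (t • w)) (fderiv ℂ f (t • w) w) t := fun t =>
    (hf _).hasFDerivAt.comp_hasDerivAt t (hl t)
  have d1' : deriv (fun t : ℂ => f (t • w)) = fun t => fderiv ℂ f (t • w) w :=
    funext fun t => (d1 t).deriv
  have d2 : HasDerivAt (fun t : ℂ => fderiv ℂ f (t • w) w)
      (fderiv ℂ (fderiv ℂ f) ((0 : ℂ) • w) w w) 0 := by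
    have h1 : HasDerivAt (fun t : ℂ => fderiv ℂ f (t • w))
        (fderiv ℂ (fderiv ℂ f) ((0 : ℂ) • w) w) 0 :=
      (hf1 _).hasFDerivAt.comp_hasDerivAt 0 (hl 0)
    have h2 := h1.clm_apply (hasDerivAt_const (0 : ℂ) w)
    simpa using h2
  have hd : Differentiable ℂ (fun t : ℂ => f (t • w)) := fun t => (d1 t).differentiableAt
  have := polF_line (fun t : ℂ => f (t • w)) hd (by
    intro t s
    have h1 := h (s • w) (t • w)
    unfold D3 at h1
    have a1 : (t + 3 * s) • w = t • w + 3 • (s • w) := by module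
    have a2 : (t + 2 * s) • w = t • w + 2 • (s • w) := by module
    have a3 : (t + s) • w = t • w + s • w := by module
    simp only [a1, a2, a3]
    rw [← h1]
    module) 1
  rw [d1', d2.deriv] at this
  simp only [one_smul, zero_smul] at this
  rw [this]
  simp

private noncomputable def pev1 (E G : Type) [NormedAddCommGroup E] [NormedSpace ℂ E]
    [NormedAddCommGroup G] [NormedSpace ℂ G] : E →ₗ[ℂ] (E →L[ℂ] G) →ₗ[ℂ] G :=
  (ContinuousLinearMap.coeLM ℂ).flip

private theorem pev1_apply (E G : Type) [NormedAddCommGroup E] [NormedSpace ℂ E]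
    [NormedAddCommGroup G] [NormedSpace ℂ G] (w : E) (φ : E →L[ℂ] G) : pev1 E G w φ = φ w := rfl

private noncomputable def pev2 (E G : Type) [NormedAddCommGroup E] [NormedSpace ℂ E]
    [NormedAddCommGroup G] [NormedSpace ℂ G] :
    E →ₗ[ℂ] E →ₗ[ℂ] (E →L[ℂ] E →L[ℂ] G) →ₗ[ℂ] G :=
  LinearMap.mk₂ ℂ (fun u v => (1 / 2 : ℂ) • ((pev1 E G v) ∘ₗ (pev1 E (E →L[ℂ] G) u) +
    (pev1 E G u) ∘ₗ (pev1 E (E →L[ℂ] G) v)))
    (by intro a b c; ext φ; simp [pev1_apply]; module)
    (by intro a b c; ext φ; simp [pev1_apply]; module)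
    (by intro a b c; ext φ; simp [pev1_apply]; module)
    (by intro a b c; ext φ; simp [pev1_apply]; module)

private theorem pev2_apply (E G : Type) [NormedAddCommGroup E] [NormedSpace ℂ E]
    [NormedAddCommGroup G] [NormedSpace ℂ G] (u v : E) (φ : E →L[ℂ] E →L[ℂ] G) :
    pev2 E G u v φ = (1 / 2 : ℂ) • (φ u v + φ v u) := by
  simp [pev2, pev1_apply]

private theorem pev2_self (E G : Type) [NormedAddCommGroup E] [NormedSpace ℂ E]
    [NormedAddCommGroup G] [NormedSpace ℂ G] (u : E) (φ : E →L[ℂ] E →L[ℂ] G) :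
    pev2 E G u u φ = φ u u := by
  rw [pev2_apply]; module

private theorem polF_diff {E1 E2 H : Type} [NormedAddCommGroup E1] [NormedSpace ℂ E1]
    [FiniteDimensional ℂ E1] [NormedAddCommGroup E2] [NormedSpace ℂ E2] [FiniteDimensional ℂ E2]
    [NormedAddCommGroup H] [NormedSpace ℂ H] [FiniteDimensional ℂ H] (F : E1 → (E2 →L[ℂ] H))
    (hF : ∀ w, Differentiable ℂ (fun z => F z w)) : Differentiable ℂ F := by
  intro z
  exact Pool.Agent.Lib.Osgood.differentiableAt_of_apply (fun v => hF v z)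

end PolF

theorem tPolF : S_PolF := by
  intro E1 E2 G _ _ _ _ _ _ _ _ _ f hf hw hz
  -- step 2
  have hfix : ∀ z : E1, ∃ (g0 : G) (g1 : E2 →ₗ[ℂ] G) (g2 : E2 →ₗ[ℂ] E2 →ₗ[ℂ] G),
      ∀ w, f (z, w) = g0 + g1 w + g2 w w := fun z =>
    polF_one (fun w => f (z, w)) (hf.comp (by fun_prop)) (fun v p => hw z v p)
  choose g0 g1 g2 hg using hfix
  have hF1 : ∀ z : E1, ∃ L : E2 →L[ℂ] G, ∀ w, L w = (2 : ℂ) • f (z, w) -
      (1 / 2 : ℂ) • f (z, (2 : ℂ) • w) - (3 / 2 : ℂ) • f (z, 0) := by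
    intro z
    refine ⟨LinearMap.toContinuousLinearMap (g1 z), fun w => ?_⟩
    rw [hg z w, hg z ((2 : ℂ) • w), hg z 0]
    simp
    module
  choose F1 hF1 using hF1
  have hF2 : ∀ z : E1, ∃ L : E2 →L[ℂ] E2 →L[ℂ] G, ∀ u v, L u v = (1 / 2 : ℂ) •
      (f (z, u + v) - f (z, u) - f (z, v) + f (z, 0)) := by
    intro z
    refine ⟨LinearMap.toContinuousLinearMap
      ((LinearMap.toContinuousLinearMap : (E2 →ₗ[ℂ] G) ≃ₗ[ℂ] (E2 →L[ℂ] G)).toLinearMap ∘ₗ
        ((1 / 2 : ℂ) • (g2 z + (g2 z).flip))), fun u v => ?_⟩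
    rw [hg z (u + v), hg z u, hg z v, hg z 0]
    simp
    module
  choose F2 hF2 using hF2
  have hf3 : ∀ w, Differentiable ℂ (fun z => f (z, w)) := fun w => hf.comp (by fun_prop)
  have dF1 : Differentiable ℂ F1 := by
    apply polF_diff
    intro w
    simp only [hF1]
    exact ((((hf3 w).const_smul _).sub ((hf3 _).const_smul _)).sub ((hf3 0).const_smul _))
  have dF2 : Differentiable ℂ F2 := by
    apply polF_diff
    intro u
    apply polF_diff
    intro v
    simp only [hF2]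
    exact ((((hf3 _).sub (hf3 _)).sub (hf3 _)).add (hf3 0)).const_smul _
  have hsum : ∀ z w, f (z, w) = f (z, 0) + F1 z w + F2 z w w := by
    intro z w
    rw [hF1, hF2]
    have : w + w = (2 : ℂ) • w := by module
    rw [this]
    module
  -- step 3
  obtain ⟨a0, a1, a2, ha⟩ := polF_one (fun z => f (z, 0)) (hf3 0) (fun v p => hz 0 v p)
  obtain ⟨b0, b1, b2, hb⟩ := polF_one F1 dF1 (by
    intro v p
    ext w
    unfold D3
    simp only [ContinuousLinearMap.add_apply, ContinuousLinearMap.sub_apply,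
      ContinuousLinearMap.smul_apply, hF1, ContinuousLinearMap.zero_apply]
    have h1 := hz w v p
    have h2 := hz ((2 : ℂ) • w) v p
    have h3 := hz 0 v p
    unfold D3 at h1 h2 h3
    have h4 : (2 : ℂ) • (f (p + 3 • v, w) - 3 • f (p + 2 • v, w) + 3 • f (p + v, w) - f (p, w)) -
      (1 / 2 : ℂ) • (f (p + 3 • v, (2 : ℂ) • w) - 3 • f (p + 2 • v, (2 : ℂ) • w) +
        3 • f (p + v, (2 : ℂ) • w) - f (p, (2 : ℂ) • w)) -
      (3 / 2 : ℂ) • (f (p + 3 • v, 0) - 3 • f (p + 2 • v, 0) + 3 • f (p + v, 0) - f (p, 0)) =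
        0 := by
      rw [h1, h2, h3]; simp
    rw [← h4]
    module)
  obtain ⟨c0, c1, c2, hc⟩ := polF_one F2 dF2 (by
    intro v p
    ext u w
    unfold D3
    simp only [ContinuousLinearMap.add_apply, ContinuousLinearMap.sub_apply,
      ContinuousLinearMap.smul_apply, hF2, ContinuousLinearMap.zero_apply]
    have h1 := hz (u + w) v p
    have h2 := hz u v p
    have h3 := hz w v p
    have h5 := hz 0 v p
    unfold D3 at h1 h2 h3 h5
    have h4 : (1 / 2 : ℂ) •
      ((f (p + 3 • v, u + w) - 3 • f (p + 2 • v, u + w) + 3 • f (p + v, u + w) - f (p, u + w)) -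
      (f (p + 3 • v, u) - 3 • f (p + 2 • v, u) + 3 • f (p + v, u) - f (p, u)) -
      (f (p + 3 • v, w) - 3 • f (p + 2 • v, w) + 3 • f (p + v, w) - f (p, w)) +
      (f (p + 3 • v, 0) - 3 • f (p + 2 • v, 0) + 3 • f (p + v, 0) - f (p, 0))) = 0 := by
      rw [h1, h2, h3, h5]; simp
    rw [← h4]
    module)
  refine ⟨a0, (b0 : E2 →ₗ[ℂ] G), (pev2 E2 G).compr₂ (LinearMap.applyₗ c0), a1,
    (LinearMap.lcomp ℂ G b1) ∘ₗ (pev1 E2 G),
    (pev2 E2 G).compr₂ (LinearMap.lcomp ℂ G c1), a2,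
    ((LinearMap.lcomp ℂ (E1 →ₗ[ℂ] G) b2) ∘ₗ (LinearMap.llcomp ℂ E1 (E2 →L[ℂ] G) G)) ∘ₗ
      (pev1 E2 G),
    (pev2 E2 G).compr₂ ((LinearMap.lcomp ℂ (E1 →ₗ[ℂ] G) c2) ∘ₗ
      (LinearMap.llcomp ℂ E1 (E2 →L[ℂ] E2 →L[ℂ] G) G)), ?_, ?_, ?_, ?_⟩
  · intro u v
    have : pev2 E2 G u v = pev2 E2 G v u := by
      ext φ; rw [pev2_apply, pev2_apply]; module
    simp [LinearMap.compr₂_apply, this]
  · intro u v
    have : pev2 E2 G u v = pev2 E2 G v u := by
      ext φ; rw [pev2_apply, pev2_apply]; module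
    simp [LinearMap.compr₂_apply, this]
  · intro u v
    have : pev2 E2 G u v = pev2 E2 G v u := by
      ext φ; rw [pev2_apply, pev2_apply]; module
    simp [LinearMap.compr₂_apply, this]
  · intro z w
    have h1 := ha z
    have h2 := hb z
    have h3 := hc z
    rw [hsum z w, h2, h3]
    rw [h1]
    simp only [LinearMap.compr₂_apply, LinearMap.applyₗ_apply_apply, LinearMap.comp_apply,
      LinearMap.lcomp_apply, LinearMap.llcomp_apply, pev1_apply, pev2_self,
      ContinuousLinearMap.add_apply, ContinuousLinearMap.coe_coe]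
    abel

end KVB
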