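import Pool.Agent.Lib.KV.B.SpecS

set_option autoImplicit false

open Set Filter Topology Metric

namespace KVB

open KP

theorem tPolX (h1 : S_Del) (h2 : S_Ext) (h3 : S_BR) (h4 : S_ZP) (h5 : S_PolF) : S_PolX := by
  intro m k F Om hS hD X hX
  obtain ⟨Y, hY, hYX, hYw⟩ := h2 m k F Om hS X hX.1 (h1 m k F Om hS hD X hX)
  have hYc : Cpl (SD F Om) Y := hX.congr hYX
  have hBR := (h3 m k F Om hS hD Y hY.continuous hYc).2
  obtain ⟨hz1, hz2⟩ := h4 m k F Om hS Y hY hBR
  have hd1 : Differentiable ℂ fun p : Vs m k => (Y p).1 := hY.fst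
  have hd2 : Differentiable ℂ fun p : Vs m k => (Y p).2 := hY.snd
  have hw1 : ∀ (z : Cn m) (v w : Cn k), D3 (fun w => (Y (z, w)).1) v w = 0 := by
    intro z v w
    have h := congrArg Prod.fst (hYw (z, w) v)
    simp only [D3, Prod.smul_mk, smul_zero, Prod.mk_add_mk, add_zero, Prod.fst_add, Prod.fst_sub,
      Prod.smul_fst, Prod.fst_zero] at h
    exact h
  have hw2 : ∀ (z : Cn m) (v w : Cn k), D3 (fun w => (Y (z, w)).2) v w = 0 := by
    intro z v w
    have h := congrArg Prod.snd (hYw (z, w) v)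
    simp only [D3, Prod.smul_mk, smul_zero, Prod.mk_add_mk, add_zero, Prod.snd_add, Prod.snd_sub,
      Prod.smul_snd, Prod.snd_zero] at h
    exact h
  have hz3 : ∀ (w : Cn k) (v z : Cn m), D3 (fun z => (Y (z, w)).2) v z = 0 := by
    intro w v z
    have hA := hz2 w v (z + v)
    have hB := hz2 w v z
    have e1 : z + v + 2 • v = z + 3 • v := by module
    have e2 : z + v + v = z + 2 • v := by module
    rw [e1, e2] at hA
    show (Y (z + 3 • v, w)).2 - 3 • (Y (z + 2 • v, w)).2 + 3 • (Y (z + v, w)).2 - (Y (z, w)).2 = 0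
    calc (Y (z + 3 • v, w)).2 - 3 • (Y (z + 2 • v, w)).2 + 3 • (Y (z + v, w)).2 - (Y (z, w)).2
        = ((Y (z + 3 • v, w)).2 - 2 • (Y (z + 2 • v, w)).2 + (Y (z + v, w)).2) -
          ((Y (z + 2 • v, w)).2 - 2 • (Y (z + v, w)).2 + (Y (z, w)).2) := by module
      _ = 0 := by rw [hA, hB, sub_zero]
  obtain ⟨a00, a01, a02, a10, a11, a12, a20, a21, a22, as02, as12, -, ha⟩ :=
    h5 (Cn m) (Cn k) (Cn m) (fun p => (Y p).1) hd1 hw1 hz1
  obtain ⟨b00, b01, b02, b10, b11, b12, b20, b21, b22, bs02, bs12, -, hb⟩ :=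
    h5 (Cn m) (Cn k) (Cn k) (fun p => (Y p).2) hd2 hw2 hz3
  have hb0 : ∀ (z : Cn m) (w : Cn k), b20 z z + b21 w z z + b22 w w z z = 0 := by
    intro z w
    have h := hz2 w z 0
    have e1 := hb (0 + 2 • z) w
    have e2 := hb (0 + z) w
    have e3 := hb 0 w
    rw [e1, e2, e3] at h
    simp only [zero_add, map_nsmul, LinearMap.smul_apply, map_zero,
      add_zero] at h
    have h6 : (2 : ℂ) • (b20 z z + b21 w z z + b22 w w z z) = 0 := by
      rw [← h]
      module
    exact (smul_eq_zero.mp h6).resolve_left two_ne_zero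
  refine ⟨⟨a00, a01, a02, a10, a11, a12, a20, a21, a22, b00, b01, b02, b10, b11, b12,
    as02, as12, bs02, bs12⟩, ?_⟩
  rintro ⟨z, w⟩ hp
  rw [← hYX _ hp]
  have e1 := ha z w
  have e2 := hb z w
  have e3 := hb0 z w
  refine Prod.ext ?_ ?_
  · rw [e1]
    simp only [fm2, fm1, f0, f1, f2, f3, f4, f5, Prod.fst_add]
    abel
  · rw [e2]
    simp only [fm2, fm1, f0, f1, f2, f3, f4, f5, Prod.snd_add, add_zero]
    have e4 : b00 + b01 w + b02 w w + b10 z + b11 w z + b12 w w z + b20 z z + b21 w z z +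
        b22 w w z z = b00 + b01 w + b02 w w + b10 z + b11 w z + b12 w w z +
        (b20 z z + b21 w z z + b22 w w z z) := by abel
    rw [e4, e3, add_zero]
    abel

end KVB
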