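import Pool.Agent.Lib.KV.B.SpecS

/-!
# KV (MP_64edc4_ag), part B, block S: holomorphic solutions of `b z = κ h(a z, z)`
-/

set_option autoImplicit false

open Set Filter Topology Metric

namespace KVB

open KP

/-- The form as a linear map in the first argument. -/
private noncomputable def polaL {m k : ℕ} (F : Fin k → Matrix (Fin m) (Fin m) ℂ) (z' : Cn m) :
    Cn m →L[ℂ] Cn k :=
  LinearMap.toContinuousLinearMap
    { toFun := fun z => hf F z z'
      map_add' := fun z z1 => hf_add_left z z1 z'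
      map_smul' := fun c z => hf_smul_left c z z' }

private theorem polaL_apply {m k : ℕ} (F : Fin k → Matrix (Fin m) (Fin m) ℂ) (z' z : Cn m) :
    polaL F z' z = hf F z z' := rfl

/-- The one-variable statement. -/
private theorem pola_one {E : Type} [NormedAddCommGroup E] [NormedSpace ℂ E] {f g : ℂ → E}
    {δ : ℝ} (hδ : 0 < δ) (hf : DifferentiableOn ℂ f (ball 0 δ))
    (hg : DifferentiableOn ℂ g (ball 0 δ))
    (h : ∀ ζ ∈ ball (0 : ℂ) δ, f ζ = (starRingEnd ℂ) ζ • g ζ) : g 0 = 0 := by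
  have hρ : 0 < δ / 2 := by positivity
  have hsub : closedBall (0 : ℂ) (δ / 2) ⊆ ball 0 δ := closedBall_subset_ball (by linarith)
  have h1 : DifferentiableOn ℂ (fun ζ => ζ • f ζ) (ball 0 δ) := differentiableOn_id.smul hf
  have h2 : DifferentiableOn ℂ (fun ζ => (((δ / 2) ^ 2 : ℝ) : ℂ) • g ζ) (ball 0 δ) :=
    hg.const_smul _
  have hcl : closure (ball (0 : ℂ) (δ / 2)) ⊆ ball 0 δ := by
    rw [closure_ball (0 : ℂ) hρ.ne']
    exact hsub
  have h3 := Complex.eqOn_closure_of_eqOn_frontier (U := ball (0 : ℂ) (δ / 2)) isBounded_ball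
    (h1.mono hcl).diffContOnCl (h2.mono hcl).diffContOnCl (by
      intro ζ hζ
      rw [frontier_ball (0 : ℂ) hρ.ne', mem_sphere_zero_iff_norm] at hζ
      have hmem : ζ ∈ ball (0 : ℂ) δ := by
        rw [mem_ball_zero_iff, hζ]
        linarith
      change ζ • f ζ = (((δ / 2) ^ 2 : ℝ) : ℂ) • g ζ
      rw [h ζ hmem, smul_smul, Complex.mul_conj, Complex.normSq_eq_norm_sq, hζ])
  have h4 := h3 (subset_closure (mem_ball_self hρ))
  simp only [zero_smul] at h4
  have h5 : (((δ / 2) ^ 2 : ℝ) : ℂ) ≠ 0 := by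
    rw [Ne, Complex.ofReal_eq_zero]
    positivity
  exact (smul_eq_zero_iff_right h5).1 h4.symm

theorem tPola : S_Pola := by
  intro m k F Om hS Z hZ a b κ hκ ha hb hab z0 hz0
  have hline : Continuous fun ζ : ℂ => z0 + ζ • a z0 := by fun_prop
  have hopen : IsOpen ((fun ζ : ℂ => z0 + ζ • a z0) ⁻¹' Z) := hZ.preimage hline
  obtain ⟨δ, hδ, hball⟩ := Metric.isOpen_iff.1 hopen 0 (by
    change z0 + (0 : ℂ) • a z0 ∈ Z
    rw [zero_smul, add_zero]
    exact hz0)
  have hl : DifferentiableOn ℂ (fun ζ : ℂ => z0 + ζ • a z0) (ball 0 δ) := by fun_prop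
  have hmaps : MapsTo (fun ζ : ℂ => z0 + ζ • a z0) (ball 0 δ) Z := hball
  have hal : DifferentiableOn ℂ (fun ζ : ℂ => a (z0 + ζ • a z0)) (ball 0 δ) := ha.comp hl hmaps
  have hbl : DifferentiableOn ℂ (fun ζ : ℂ => b (z0 + ζ • a z0)) (ball 0 δ) := hb.comp hl hmaps
  have hL : ∀ v : Cn m, DifferentiableOn ℂ (fun ζ : ℂ => hf F (a (z0 + ζ • a z0)) v)
      (ball 0 δ) := fun v => (polaL F v).differentiable.comp_differentiableOn hal
  have h1 := pola_one (f := fun ζ => b (z0 + ζ • a z0) - κ • hf F (a (z0 + ζ • a z0)) z0)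
    (g := fun ζ => κ • hf F (a (z0 + ζ • a z0)) (a z0)) hδ (hbl.sub ((hL z0).const_smul κ))
    ((hL (a z0)).const_smul κ) (by
      intro ζ hζ
      change b (z0 + ζ • a z0) - κ • hf F (a (z0 + ζ • a z0)) z0 =
        (starRingEnd ℂ) ζ • κ • hf F (a (z0 + ζ • a z0)) (a z0)
      rw [hab _ (hball hζ), hf_add_right, hf_smul_right, smul_add, add_sub_cancel_left,
        smul_comm])
  simp only [zero_smul, add_zero] at h1
  have h2 : hf F (a z0) (a z0) = 0 := (smul_eq_zero_iff_right hκ).1 h1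
  have h3 : a z0 = 0 := hS.pd _ h2
  refine ⟨h3, ?_⟩
  rw [hab z0 hz0, h3]
  have h4 : hf F (0 : Cn m) z0 = 0 := by
    have := hf_smul_left (F := F) (0 : ℂ) (0 : Cn m) z0
    rw [zero_smul, zero_smul] at this
    exact this
  rw [h4, smul_zero]

end KVB
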