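import Pool.Agent.Lib.KV.B.SpecS

set_option autoImplicit false

open Set Filter Topology Metric

namespace KVB

open KP

namespace RelaAux

private theorem cont2 {X E E' G : Type*} [TopologicalSpace X]
    [NormedAddCommGroup E] [NormedSpace ℂ E] [FiniteDimensional ℂ E]
    [NormedAddCommGroup E'] [NormedSpace ℂ E'] [FiniteDimensional ℂ E']
    [NormedAddCommGroup G] [NormedSpace ℂ G]
    (c : E →ₗ[ℂ] E' →ₗ[ℂ] G) {f : X → E} {g : X → E'} (hf : Continuous f) (hg : Continuous g) :
    Continuous fun x => c (f x) (g x) := by
  let L : E →ₗ[ℂ] (E' →L[ℂ] G) :=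
    (LinearMap.toContinuousLinearMap : (E' →ₗ[ℂ] G) ≃ₗ[ℂ] E' →L[ℂ] G).toLinearMap ∘ₗ c
  have hL : Continuous L := L.continuous_of_finiteDimensional
  exact (hL.comp hf).clm_apply hg

private theorem key (b C A : ℂ) (h1 : (b - 2 * Complex.I * (C + A)).im = 0)
    (h2 : (Complex.I * b - 2 * Complex.I * (Complex.I * C - Complex.I * A)).im = 0) :
    b = 2 * Complex.I * C + 2 * Complex.I * (starRingEnd ℂ) A := by
  apply Complex.ext
  · simp [Complex.mul_re, Complex.mul_im] at h1 h2 ⊢
    linarith
  · simp [Complex.mul_re, Complex.mul_im] at h1 h2 ⊢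
    linarith

end RelaAux

open RelaAux in
theorem tRela (h1 : S_BR) : S_Rela := by
  intro m k F Om hS hH
  have hz0 : ∀ z : Cn m, hf F 0 z = 0 := fun z => by
    have := hf_smul_left (F := F) 0 z z
    simpa using this
  have hz0' : ∀ z : Cn m, hf F z 0 = 0 := fun z => by
    have := hf_smul_right (F := F) 0 z z
    simpa using this
  have hcx : ∀ b : Cn k, (∀ j, (b j).im = 0) → ∃ r : Fin k → ℝ, b = cx r := by
    intro b hb
    refine ⟨rev b, ?_⟩
    ext j
    apply Complex.ext
    · simp [cx, rev]
    · simp [cx, rev, hb j]
  refine ⟨?_, ?_, ?_, ?_⟩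
  · intro b0 hC
    have h := (h1 m k F Om hS hH _ (by unfold fm2; fun_prop) hC).2 0 0
    apply hcx
    intro j
    have := h j
    simpa [fm2, hz0] using this
  · intro a0 β0 hC z
    have hcont : Continuous (fm1 a0 β0 : Vs m k → Vs m k) := by
      unfold fm1
      have := (β0.continuous_of_finiteDimensional).comp (continuous_fst (X := Cn m) (Y := Cn k))
      exact continuous_const.prodMk this
    have h := (h1 m k F Om hS hH _ hcont hC).2 0
    ext j
    have e1 := h z j
    have e2 := h (Complex.I • z) j
    simp only [fm1, map_smul, hf_smul_right, Pi.sub_apply, Pi.smul_apply, smul_eq_mul,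
      Complex.conj_I] at e1 e2
    have e3 := key (β0 z j) 0 (hf F a0 z j) (by rw [← e1]; congr 1; ring)
      (by rw [← e2]; congr 1; ring)
    rw [e3, hf_conj hS]
    simp
  · intro c0 a1 β1 hC x z
    have hcont : Continuous (f1 c0 a1 β1 : Vs m k → Vs m k) := by
      unfold f1
      refine Continuous.prodMk ?_ ?_
      · exact (cont2 c0 continuous_fst continuous_fst).add
          ((a1.continuous_of_finiteDimensional).comp continuous_snd)
      · exact cont2 β1 continuous_snd continuous_fst
    have h := (h1 m k F Om hS hH _ hcont hC).2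
    have hI : ∀ z : Cn m, hf F (Complex.I • z) (Complex.I • z) = hf F z z := by
      intro z
      rw [hf_smul_left, hf_smul_right, smul_smul]
      simp
    have main : ∀ (x : Fin k → ℝ), β1 (cx x + Complex.I • hf F z z) z =
        (2 * Complex.I) • hf F (c0 z z) z +
          (2 * Complex.I) • hf F z (a1 (cx x + Complex.I • hf F z z)) := by
      intro x
      ext j
      have e1 := h x z j
      have e2 := h x (Complex.I • z) j
      rw [hI] at e2
      generalize hw : cx x + Complex.I • hf F z z = w at e1 e2 ⊢
      simp only [f1, map_smul, LinearMap.smul_apply, hf_smul_right, hf_smul_left, hf_add_left,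
        Pi.sub_apply, Pi.smul_apply, Pi.add_apply, smul_eq_mul, Complex.conj_I] at e1 e2
      have e3 := key (β1 w z j) (hf F (c0 z z) z j) (hf F (a1 w) z j) (by rw [← e1])
        (by
          rw [← e2]; congr 1
          linear_combination (-2 * hf F (c0 z z) z j * Complex.I ^ 2) * Complex.I_sq)
      rw [e3, hf_conj hS]
      simp
    have m1 := main x
    have m0 := main 0
    have hc0 : cx (0 : Fin k → ℝ) = 0 := by ext j; simp [cx]
    rw [hc0, zero_add] at m0
    rw [map_add, LinearMap.add_apply, m0, map_add, hf_add_right, smul_add] at m1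
    have : β1 (cx x) z = (2 * Complex.I) • hf F z (a1 (cx x)) := by
      have := m1
      linear_combination (exp := 1) this
    exact this
  · intro M1 b2 hC x
    have hcont : Continuous (f2 M1 b2 : Vs m k → Vs m k) := by
      unfold f2
      exact Continuous.prodMk (cont2 M1 continuous_snd continuous_fst)
        (cont2 b2 continuous_snd continuous_snd)
    have h := (h1 m k F Om hS hH _ hcont hC).2 x 0
    apply hcx
    intro j
    have := h j
    simpa [f2, hz0, hz0'] using this

end KVB
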