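import Pool.Agent.Lib.KV.B.SpecS

set_option autoImplicit false

open Set Filter Topology Metric

namespace KVB

open KP

namespace TRiAux

theorem norm_cx_sub {k : ℕ} (v : Cn k) (hv : ∀ i, (v i).im = 0) (u : Fin k → ℝ) {r : ℝ}
    (hr : 0 < r) (h : v ∈ ball (cx u) r) : rev v ∈ ball u r ∧ cx (rev v) = v := by
  constructor
  · rw [mem_ball, dist_pi_lt_iff hr] at h ⊢
    intro i
    have h1 := h i
    rw [Complex.dist_eq] at h1
    rw [Real.dist_eq]
    refine lt_of_le_of_lt ?_ h1
    have h2 : rev v i - u i = (v i - cx u i).re := by simp [rev, cx]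
    rw [h2]
    exact Complex.abs_re_le_norm _
  · ext i
    apply Complex.ext
    · simp [cx, rev]
    · simp [cx, hv i]

/-- A holomorphic function of one variable which vanishes at the real points of a disc. -/
theorem one_var {E : Type} [NormedAddCommGroup E] [NormedSpace ℂ E] [CompleteSpace E]
    (g : ℂ → E) (a : ℝ) {r : ℝ} (hr : 0 < r) (hg : DifferentiableOn ℂ g (ball (a : ℂ) r))
    (hz : ∀ t : ℝ, (t : ℂ) ∈ ball (a : ℂ) r → g t = 0) : ∀ ζ ∈ ball (a : ℂ) r, g ζ = 0 := by
  have han : AnalyticOnNhd ℂ g (ball (a : ℂ) r) := hg.analyticOnNhd isOpen_ball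
  have hmem : (a : ℂ) ∈ ball (a : ℂ) r := mem_ball_self hr
  have hpre : IsPreconnected (ball (a : ℂ) r) := (convex_ball _ _).isPreconnected
  refine han.eqOn_zero_of_preconnected_of_frequently_eq_zero hpre hmem ?_
  -- real points accumulate at `a`
  have h1 : Tendsto (fun t : ℝ => (t : ℂ)) (𝓝[≠] a) (𝓝[≠] (a : ℂ)) := by
    refine tendsto_nhdsWithin_iff.2 ⟨?_, ?_⟩
    · exact (Complex.continuous_ofReal.tendsto a).mono_left nhdsWithin_le_nhds
    · filter_upwards [self_mem_nhdsWithin] with t ht
      intro h
      exact ht (Complex.ofReal_injective h)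
  refine h1.frequently ?_
  have h2 : ∀ᶠ t : ℝ in 𝓝[≠] a, g t = 0 := by
    have h3 : ∀ᶠ t : ℝ in 𝓝 a, (t : ℂ) ∈ ball (a : ℂ) r :=
      (Complex.continuous_ofReal.tendsto a).eventually (isOpen_ball.mem_nhds hmem)
    filter_upwards [nhdsWithin_le_nhds h3] with t ht
    exact hz t ht
  exact h2.frequently

end TRiAux

open TRiAux in
theorem tTRi : S_TRi := by
  intro k E _ _ _ T hT hpre f hf w0 O hO hOne hOv
  have : CompleteSpace E := FiniteDimensional.complete ℂ E
  obtain ⟨u0, hu0⟩ := hOne
  obtain ⟨r1, hr1, hb1⟩ := Metric.isOpen_iff.1 hO u0 hu0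
  obtain ⟨r2, hr2, hb2⟩ := Metric.isOpen_iff.1 hT (w0 + cx u0) (hOv u0 hu0).1
  set r := min r1 r2 with hrdef
  have hr : 0 < r := lt_min hr1 hr2
  have hin : ∀ v ∈ ball (cx u0) r, w0 + v ∈ T := by
    intro v hv
    apply hb2
    rw [mem_ball, dist_add_left]
    exact (mem_ball.1 hv).trans_le (min_le_right _ _)
  have claim : ∀ s : Finset (Fin k), ∀ v ∈ ball (cx u0) r, (∀ i, i ∉ s → (v i).im = 0) →
      f (w0 + v) = 0 := by
    classical
    intro s
    induction s using Finset.induction_on with
    | empty =>
      intro v hv h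
      obtain ⟨h1, h2⟩ := norm_cx_sub v (fun i => h i (Finset.notMem_empty i)) u0 hr hv
      have h3 : rev v ∈ O := hb1 (ball_subset_ball (min_le_left _ _) h1)
      have h4 := (hOv _ h3).2
      rwa [h2] at h4
    | insert j s hj ih =>
      intro v hv h
      have hupd : ∀ ζ ∈ ball ((u0 j : ℝ) : ℂ) r, Function.update v j ζ ∈ ball (cx u0) r := by
        intro ζ hζ
        rw [mem_ball, dist_pi_lt_iff hr] at hv ⊢
        intro i
        by_cases hij : i = j
        · subst hij
          rw [Function.update_self]
          exact hζ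
        · rw [Function.update_of_ne hij]
          exact hv i
      have hg : DifferentiableOn ℂ (fun ζ : ℂ => f (w0 + Function.update v j ζ))
          (ball ((u0 j : ℝ) : ℂ) r) := by
        refine hf.comp ?_ (fun ζ hζ => hin _ (hupd ζ hζ))
        have h5 : Differentiable ℂ (fun ζ : ℂ => Function.update v j ζ) := by
          rw [differentiable_pi]
          intro i
          by_cases hij : i = j
          · subst hij
            simp only [Function.update_self]
            exact differentiable_id
          · simp only [Function.update_of_ne hij]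
            exact differentiable_const _
        exact (h5.const_add w0).differentiableOn
      have h6 := one_var _ (u0 j) hr hg (fun t ht => ih _ (hupd _ ht) (fun i hi => by
        by_cases hij : i = j
        · subst hij
          rw [Function.update_self]
          exact Complex.ofReal_im t
        · rw [Function.update_of_ne hij]
          exact h i (fun hmem => (Finset.mem_insert.1 hmem).elim hij hi)))
      have h7 : v j ∈ ball ((u0 j : ℝ) : ℂ) r := by
        rw [mem_ball, dist_pi_lt_iff hr] at hv
        exact hv j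
      have h8 := h6 (v j) h7
      simpa using h8
  have hzero : ∀ᶠ w in 𝓝 (w0 + cx u0), f w = 0 := by
    filter_upwards [ball_mem_nhds (w0 + cx u0) hr] with w hw
    have h9 : w - w0 ∈ ball (cx u0) r := by
      rw [mem_ball] at hw ⊢
      rwa [← dist_add_left w0, add_sub_cancel]
    have h10 := claim Finset.univ (w - w0) h9 (fun i hi => absurd (Finset.mem_univ i) hi)
    rwa [add_sub_cancel] at h10
  have han : AnalyticOnNhd ℂ f T := Pool.Agent.Lib.Osgood.analyticOnNhd hT hf
  exact fun w hw => han.eqOn_zero_of_preconnected_of_eventuallyEq_zero hpre (hOv u0 hu0).1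
    hzero hw

end KVB
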