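import Pool.Agent.Lib.KV.B.SpecS

set_option autoImplicit false

open Set Filter Topology Metric

namespace KVB

open KP

section WtsAux

variable {m k : ℕ}

/-- the homogeneous parts -/
private def wtsX (C : Cf m k) : Fin 8 → Vs m k → Vs m k :=
  ![fm2 C.b0, fm1 C.a0 C.β0, f0 C.M0 C.b1, f1 C.c0 C.a1 C.β1, f2 C.M1 C.b2, f3 C.c1 C.a2 C.β2,
    f4 C.M2, f5 C.c2]

/-- the nodes -/
private noncomputable def wtsN (n : Fin 8) : ℝ := 4 * (2⁻¹ : ℝ) ^ (n : ℕ)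

private theorem wtsN_inj : Function.Injective wtsN := by
  intro a b h
  unfold wtsN at h
  have h1 : (2⁻¹ : ℝ) ^ (a : ℕ) = (2⁻¹ : ℝ) ^ (b : ℕ) := by linarith
  have h2 : (a : ℕ) = (b : ℕ) := pow_right_injective₀ (by norm_num) (by norm_num) h1
  exact Fin.ext h2

/-- the dilation -/
private noncomputable def wtsL (m k : ℕ) (t : ℂ) : Vs m k →L[ℂ] Vs m k :=
  (t • ContinuousLinearMap.fst ℂ (Cn m) (Cn k)).prod
    ((t ^ 2) • ContinuousLinearMap.snd ℂ (Cn m) (Cn k))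

private theorem wtsL_apply (t : ℂ) (p : Vs m k) : wtsL m k t p = (t • p.1, (t ^ 2) • p.2) := rfl

private theorem wts_hom (C : Cf m k) (t : ℂ) (ht : t ≠ 0) (p : Vs m k) (n : Fin 8) :
    wtsL m k t (wtsX C n (t⁻¹ • p.1, (t⁻¹ ^ 2) • p.2)) =
      (t ^ 2 * t⁻¹ ^ (n : ℕ)) • wtsX C n p := by
  rw [wtsL_apply]
  obtain ⟨z, w⟩ := p
  fin_cases n
  · show (t • (0 : Cn m), (t ^ 2) • C.b0) = (t ^ 2 * t⁻¹ ^ 0) • ((0 : Cn m), C.b0)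
    rw [Prod.smul_mk, smul_zero, smul_zero, pow_zero, mul_one]
  · show (t • C.a0, (t ^ 2) • C.β0 (t⁻¹ • z)) = (t ^ 2 * t⁻¹ ^ 1) • (C.a0, C.β0 z)
    simp only [Prod.smul_mk, map_smul, smul_smul]
    have e : t ^ 2 * t⁻¹ ^ 1 = t := by field_simp
    have e' : t ^ 2 * t⁻¹ = t := by field_simp
    rw [e, e']
  · show (t • C.M0 (t⁻¹ • z), (t ^ 2) • C.b1 (t⁻¹ ^ 2 • w)) =
      (t ^ 2 * t⁻¹ ^ 2) • (C.M0 z, C.b1 w)
    simp only [Prod.smul_mk, map_smul, smul_smul]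
    have e : t ^ 2 * t⁻¹ ^ 2 = 1 := by field_simp
    have e' : t * t⁻¹ = 1 := by field_simp
    rw [e, e']
  · show (t • (C.c0 (t⁻¹ • z) (t⁻¹ • z) + C.a1 (t⁻¹ ^ 2 • w)),
        (t ^ 2) • C.β1 (t⁻¹ ^ 2 • w) (t⁻¹ • z)) =
      (t ^ 2 * t⁻¹ ^ 3) • (C.c0 z z + C.a1 w, C.β1 w z)
    simp only [Prod.smul_mk, map_smul, LinearMap.smul_apply, smul_smul, smul_add]
    refine Prod.ext ?_ ?_ <;> dsimp only <;> match_scalars <;> field_simp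
  · show (t • C.M1 (t⁻¹ ^ 2 • w) (t⁻¹ • z), (t ^ 2) • C.b2 (t⁻¹ ^ 2 • w) (t⁻¹ ^ 2 • w)) =
      (t ^ 2 * t⁻¹ ^ 4) • (C.M1 w z, C.b2 w w)
    simp only [Prod.smul_mk, map_smul, LinearMap.smul_apply, smul_smul]
    refine Prod.ext ?_ ?_ <;> dsimp only <;> match_scalars <;> field_simp
  · show (t • (C.c1 (t⁻¹ ^ 2 • w) (t⁻¹ • z) (t⁻¹ • z) + C.a2 (t⁻¹ ^ 2 • w) (t⁻¹ ^ 2 • w)),
        (t ^ 2) • C.β2 (t⁻¹ ^ 2 • w) (t⁻¹ ^ 2 • w) (t⁻¹ • z)) =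
      (t ^ 2 * t⁻¹ ^ 5) • (C.c1 w z z + C.a2 w w, C.β2 w w z)
    simp only [Prod.smul_mk, map_smul, LinearMap.smul_apply, smul_smul, smul_add]
    refine Prod.ext ?_ ?_ <;> dsimp only <;> match_scalars <;> field_simp
  · show (t • C.M2 (t⁻¹ ^ 2 • w) (t⁻¹ ^ 2 • w) (t⁻¹ • z), (t ^ 2) • (0 : Cn k)) =
      (t ^ 2 * t⁻¹ ^ 6) • (C.M2 w w z, (0 : Cn k))
    simp only [Prod.smul_mk, map_smul, LinearMap.smul_apply, smul_smul, smul_zero]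
    refine Prod.ext ?_ rfl
    dsimp only
    match_scalars
    field_simp
  · show (t • C.c2 (t⁻¹ ^ 2 • w) (t⁻¹ ^ 2 • w) (t⁻¹ • z) (t⁻¹ • z), (t ^ 2) • (0 : Cn k)) =
      (t ^ 2 * t⁻¹ ^ 7) • (C.c2 w w z z, (0 : Cn k))
    simp only [Prod.smul_mk, map_smul, LinearMap.smul_apply, smul_smul, smul_zero]
    refine Prod.ext ?_ rfl
    dsimp only
    match_scalars
    field_simp

/-- the transported fields -/
private noncomputable def wtsA (X : Vs m k → Vs m k) (i : Fin 8) : Vs m k → Vs m k :=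
  Ad (fun p => (((2 ^ (i : ℕ) : ℝ) : ℂ) • p.1, (((2 ^ (i : ℕ) : ℝ) : ℂ) ^ 2) • p.2))
    (fun p => ((((2 ^ (i : ℕ) : ℝ) : ℂ)⁻¹) • p.1, ((((2 ^ (i : ℕ) : ℝ) : ℂ)⁻¹) ^ 2) • p.2)) X

private theorem wtsA_eq (D : Set (Vs m k)) (X : Vs m k → Vs m k) (C : Cf m k)
    (hX : ∀ p ∈ D, X p = ∑ n, wtsX C n p) (i : Fin 8) (p : Vs m k)
    (hp : ((((2 ^ (i : ℕ) : ℝ) : ℂ)⁻¹) • p.1, ((((2 ^ (i : ℕ) : ℝ) : ℂ)⁻¹) ^ 2) • p.2) ∈ D) :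
    wtsA X i p = ∑ n, ((wtsN n ^ (i : ℕ) : ℝ) : ℂ) • wtsX C n p := by
  set t : ℂ := ((2 ^ (i : ℕ) : ℝ) : ℂ) with ht
  have ht0 : t ≠ 0 := by
    rw [ht]
    exact_mod_cast (pow_ne_zero (i : ℕ) (two_ne_zero (α := ℝ)))
  have h1 : HasFDerivAt (fun p : Vs m k => (t • p.1, (t ^ 2) • p.2)) (wtsL m k t)
      (t⁻¹ • p.1, (t⁻¹ ^ 2) • p.2) := (wtsL m k t).hasFDerivAt
  have h2 : wtsA X i p = wtsL m k t (X (t⁻¹ • p.1, (t⁻¹ ^ 2) • p.2)) := by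
    show fderiv ℂ (fun p : Vs m k => (t • p.1, (t ^ 2) • p.2))
      (t⁻¹ • p.1, (t⁻¹ ^ 2) • p.2) (X (t⁻¹ • p.1, (t⁻¹ ^ 2) • p.2)) = _
    rw [h1.fderiv]
  rw [h2, hX _ hp, map_sum]
  refine Finset.sum_congr rfl fun n _ => ?_
  rw [wts_hom C t ht0 p n]
  congr 1
  rw [ht]
  unfold wtsN
  push_cast
  rw [mul_pow, ← pow_mul, ← pow_mul, inv_pow, inv_pow, ← pow_mul, mul_comm (n : ℕ) (i : ℕ)]
  congr 1
  rw [mul_comm (i : ℕ) 2, pow_mul]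
  norm_num

private theorem wts_main (h2 : S_AdC) (h3 : S_EvC) (F : Fin k → Matrix (Fin m) (Fin m) ℂ)
    (Om : Set (Fin k → ℝ)) (hD : Hyp (SD F Om))
    (hδ : ∀ t : ℝ, 0 < t → Aut2 (SD F Om) (fun p => ((t : ℂ) • p.1, ((t : ℂ) ^ 2) • p.2))
      (fun p => (((t : ℂ)⁻¹) • p.1, (((t : ℂ)⁻¹) ^ 2) • p.2)))
    (X : Vs m k → Vs m k) (hX : Cpl (SD F Om) X) (C : Cf m k)
    (hXC : ∀ p ∈ SD F Om, X p = ∑ n, wtsX C n p) (n : Fin 8) : Cpl (SD F Om) (wtsX C n) := by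
  have hA : ∀ i : Fin 8, Cpl (SD F Om) (wtsA X i) := fun i =>
    h2 (Vs m k) (SD F Om) hD.opn _ _ X (hδ (2 ^ (i : ℕ)) (by positivity)) hX
  set V : Matrix (Fin 8) (Fin 8) ℝ := Matrix.vandermonde wtsN with hV
  have hdet : IsUnit V.det := (Matrix.det_vandermonde_ne_zero_iff.2 wtsN_inj).isUnit
  have hinv : V * V⁻¹ = 1 := Matrix.mul_nonsing_inv V hdet
  have hc := h3 (Vs m k) (SD F Om) hD 8 (wtsA X) hA (fun i => V⁻¹ i n)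
  refine hc.congr fun p hp => ?_
  have hA' : ∀ i : Fin 8, wtsA X i p = ∑ n, ((wtsN n ^ (i : ℕ) : ℝ) : ℂ) • wtsX C n p :=
    fun i => wtsA_eq (SD F Om) X C hXC i p ((hδ (2 ^ (i : ℕ)) (by positivity)).mh hp)
  unfold ev
  simp only [hA', Finset.smul_sum, smul_smul]
  rw [Finset.sum_comm]
  have h5 : ∀ n' : Fin 8, ∑ i : Fin 8, (((V⁻¹ i n : ℝ) : ℂ) * ((wtsN n' ^ (i : ℕ) : ℝ) : ℂ)) •
      wtsX C n' p = if n' = n then wtsX C n' p else 0 := by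
    intro n'
    rw [← Finset.sum_smul]
    have h6 : ∑ i : Fin 8, (((V⁻¹ i n : ℝ) : ℂ) * ((wtsN n' ^ (i : ℕ) : ℝ) : ℂ)) =
        (((V * V⁻¹) n' n : ℝ) : ℂ) := by
      rw [Matrix.mul_apply]
      push_cast
      refine Finset.sum_congr rfl fun i _ => ?_
      rw [hV, Matrix.vandermonde_apply, mul_comm]
      push_cast
      rfl
    rw [h6, hinv, Matrix.one_apply]
    split_ifs
    · rw [Complex.ofReal_one, one_smul]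
    · rw [Complex.ofReal_zero, zero_smul]
  simp only [h5, Finset.sum_ite_eq', Finset.mem_univ, if_true]

end WtsAux

theorem tWts (h1 : S_Hei) (h2 : S_AdC) (h3 : S_EvC) : S_Wts := by
  intro m k F Om hS hD X hX C hXC
  have hδ := (h1 m k F Om hS).2.2.2.2.2
  have hXC' : ∀ p ∈ SD F Om, X p = ∑ n, wtsX C n p := by
    intro p hp
    rw [hXC p hp, Fin.sum_univ_eight]
    rfl
  have h := wts_main h2 h3 F Om hD hδ X hX C hXC'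
  exact ⟨h 0, h 1, h 2, h 3, h 4, h 5, h 6, h 7⟩

end KVB
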