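import Pool.Agent.Lib.KV.B.SpecS

/-!
# KV (MP_64edc4_ag), part B, block S: degrees in `z`
-/

set_option autoImplicit false

open Set Filter Topology Metric

namespace KVB

open KP

private theorem zp_line {G : Type} [NormedAddCommGroup G] [NormedSpace ℂ G]
    [FiniteDimensional ℂ G] (g : ℂ → G) (hg : Differentiable ℂ g)
    (h : ∀ t s : ℂ, g (t + 3 * s) - (3 : ℂ) • g (t + 2 * s) + (3 : ℂ) • g (t + s) - g t = 0) :
    ∀ t, g t = g 0 + t • deriv g 0 + (t ^ 2 / 2) • deriv (deriv g) 0 := by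
  haveI : CompleteSpace G := FiniteDimensional.complete ℂ G
  have hg1 : Differentiable ℂ (deriv g) := by
    rw [← differentiableOn_univ]
    exact hg.differentiableOn.deriv isOpen_univ
  have hlin : ∀ (f : ℂ → G) (hf : Differentiable ℂ f) (t a s : ℂ),
      HasDerivAt (fun s => f (t + a * s)) (a • deriv f (t + a * s)) s := by
    intro f hf t a s
    have h1 : HasDerivAt (fun s : ℂ => t + a * s) a s := by
      simpa using ((hasDerivAt_id s).const_mul a).const_add t
    exact (hf _).hasDerivAt.scomp s h1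
  have e1 : ∀ t s : ℂ, (3 : ℂ) • deriv g (t + 3 * s) - (3 : ℂ) • ((2 : ℂ) • deriv g (t + 2 * s)) +
      (3 : ℂ) • ((1 : ℂ) • deriv g (t + 1 * s)) = 0 := by
    intro t s
    have hd := (((hlin g hg t 3 s).sub ((hlin g hg t 2 s).const_smul (3 : ℂ))).add
      ((hlin g hg t 1 s).const_smul (3 : ℂ))).sub (hasDerivAt_const s (g t))
    have hz : (fun s => g (t + 3 * s)) - ((3 : ℂ) • fun s => g (t + 2 * s)) +
        ((3 : ℂ) • fun s => g (t + 1 * s)) - (fun _ => g t) = fun _ => (0 : G) := by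
      funext s
      have := h t s
      simpa using this
    have hd' : HasDerivAt (fun _ : ℂ => (0 : G)) ((3 : ℂ) • deriv g (t + 3 * s) -
      (3 : ℂ) • ((2 : ℂ) • deriv g (t + 2 * s)) +
      (3 : ℂ) • ((1 : ℂ) • deriv g (t + 1 * s)) - 0) s := by
      rw [← hz]; exact hd
    have := hd'.unique (hasDerivAt_const s (0 : G))
    simpa using this
  have e2 : ∀ t s : ℂ, deriv g (t + 2 * s) - (2 : ℂ) • deriv g (t + 1 * s) + deriv g t = 0 := by
    intro t s
    have h1 := e1 (t - s) s
    have a1 : t - s + 3 * s = t + 2 * s := by ring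
    have a2 : t - s + 2 * s = t + 1 * s := by ring
    have a3 : t - s + 1 * s = t := by ring
    rw [a1, a2, a3] at h1
    have h2 : (3 : ℂ) • (deriv g (t + 2 * s) - (2 : ℂ) • deriv g (t + 1 * s) + deriv g t) = 0 := by
      rw [← h1]; module
    exact (smul_eq_zero.mp h2).resolve_left (by norm_num)
  have e3 : ∀ s : ℂ, deriv (deriv g) s = deriv (deriv g) 0 := by
    intro s
    have key : ∀ t : ℂ, (2 : ℂ) • deriv (deriv g) (t + 2 * s) -
        (2 : ℂ) • ((1 : ℂ) • deriv (deriv g) (t + 1 * s)) = 0 := by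
      intro t
      have hd := ((hlin _ hg1 t 2 s).sub ((hlin _ hg1 t 1 s).const_smul (2 : ℂ))).add
        (hasDerivAt_const s (deriv g t))
      have hz : (fun s => deriv g (t + 2 * s)) - ((2 : ℂ) • fun s => deriv g (t + 1 * s)) +
          (fun _ => deriv g t) = fun _ => (0 : G) := by
        funext s
        have := e2 t s
        simpa using this
      have hd' : HasDerivAt (fun _ : ℂ => (0 : G)) ((2 : ℂ) • deriv (deriv g) (t + 2 * s) -
        (2 : ℂ) • ((1 : ℂ) • deriv (deriv g) (t + 1 * s)) + 0) s := by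
        rw [← hz]; exact hd
      have := hd'.unique (hasDerivAt_const s (0 : G))
      simpa using this
    have h1 := key (-s)
    have a1 : -s + 2 * s = s := by ring
    have a2 : -s + 1 * s = 0 := by ring
    rw [a1, a2] at h1
    have h2 : (2 : ℂ) • (deriv (deriv g) s - deriv (deriv g) 0) = 0 := by
      rw [← h1]; module
    exact sub_eq_zero.mp ((smul_eq_zero.mp h2).resolve_left (by norm_num))
  have e4 : ∀ t : ℂ, deriv g t = deriv g 0 + t • deriv (deriv g) 0 := by
    intro t
    have hd : ∀ t, HasDerivAt (fun t => deriv g t - t • deriv (deriv g) 0) 0 t := by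
      intro t
      have h1 := (hg1 t).hasDerivAt.sub ((hasDerivAt_id t).smul_const (deriv (deriv g) 0))
      have h2 : deriv (deriv g) t - (1 : ℂ) • deriv (deriv g) 0 = 0 := by
        rw [e3 t, one_smul, sub_self]
      rw [h2] at h1
      exact h1
    have := is_const_of_deriv_eq_zero (fun t => (hd t).differentiableAt) (fun t => (hd t).deriv) t 0
    simp only [zero_smul, sub_zero] at this
    rw [← this]; abel
  intro t
  have hd : ∀ t, HasDerivAt
      (fun t => g t - t • deriv g 0 - (t ^ 2 / 2) • deriv (deriv g) 0) 0 t := by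
    intro t
    have h1 := (hg t).hasDerivAt.sub ((hasDerivAt_id t).smul_const (deriv g 0))
    have h2 : HasDerivAt (fun t : ℂ => t ^ 2 / 2) t t := by
      have h5 := (hasDerivAt_pow 2 t).div_const (2 : ℂ)
      have h6 : ((2 : ℕ) : ℂ) * t ^ (2 - 1) / 2 = t := by
        norm_num
      rw [h6] at h5
      exact h5
    have h3 := h1.sub (h2.smul_const (deriv (deriv g) 0))
    have h7 : deriv g t - (1 : ℂ) • deriv g 0 - t • deriv (deriv g) 0 = 0 := by
      rw [e4 t]; module
    rw [h7] at h3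
    exact h3
  have := is_const_of_deriv_eq_zero (fun t => (hd t).differentiableAt) (fun t => (hd t).deriv) t 0
  simp only [zero_smul, sub_zero] at this
  have h0 : ((0 : ℂ) ^ 2 / 2) • deriv (deriv g) 0 = 0 := by simp
  rw [h0, sub_zero] at this
  rw [← this]; abel

/-- The form as a linear map in the first argument. -/
private noncomputable def zpL {m k : ℕ} (F : Fin k → Matrix (Fin m) (Fin m) ℂ) (z' : Cn m) :
    Cn m →L[ℂ] Cn k :=
  LinearMap.toContinuousLinearMap
    { toFun := fun z => hf F z z'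
      map_add' := fun z z1 => hf_add_left z z1 z'
      map_smul' := fun c z => hf_smul_left c z z' }

private theorem zpL_apply {m k : ℕ} (F : Fin k → Matrix (Fin m) (Fin m) ℂ) (z' z : Cn m) :
    zpL F z' z = hf F z z' := rfl

/-- Step 1: the functions on complex lines are polynomials of degree at most two. -/
private theorem zp_step1 (h1 : S_TRi) (h3 : S_CirL) {m k : ℕ}
    (F : Fin k → Matrix (Fin m) (Fin m) ℂ) (Y : Vs m k → Vs m k) (hY : Differentiable ℂ Y)
    (hr : ∀ (x : Fin k → ℝ) (z : Cn m) (j : Fin k),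
      (((Y (z, cx x + Complex.I • hf F z z)).2 -
        (2 * Complex.I) • hf F (Y (z, cx x + Complex.I • hf F z z)).1 z) j).im = 0)
    (z : Cn m) (ζ σ : ℂ) (w : Cn k) :
    D3 (fun ζ : ℂ => ζ • (Y (ζ • z, w)).2 - (2 * Complex.I) • zpL F z (Y (ζ • z, w)).1) σ ζ
      = 0 := by
  have hA : ∀ ζ : ℂ, Differentiable ℂ (fun w : Cn k =>
      ζ • (Y (ζ • z, w)).2 - (2 * Complex.I) • zpL F z (Y (ζ • z, w)).1) := by
    intro ζ
    have hc : Differentiable ℂ (fun w : Cn k => Y (ζ • z, w)) := hY.comp (by fun_prop)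
    exact (hc.snd.const_smul ζ).sub
      (((zpL F z).differentiable.comp hc.fst).const_smul (2 * Complex.I))
  have hD : Differentiable ℂ (fun w : Cn k => D3 (fun ζ : ℂ => ζ • (Y (ζ • z, w)).2 -
      (2 * Complex.I) • zpL F z (Y (ζ • z, w)).1) σ ζ) := by
    unfold D3
    exact (((hA _).sub ((hA _).const_smul (3 : ℕ))).add ((hA _).const_smul (3 : ℕ))).sub (hA _)
  refine h1 k (Cn k) univ isOpen_univ isPreconnected_univ _ hD.differentiableOn
    (Complex.I • hf F z z) univ isOpen_univ univ_nonempty ?_ w (mem_univ w)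
  intro u _
  refine ⟨mem_univ _, ?_⟩
  ext j
  have hB : Differentiable ℂ (fun ζ : ℂ => (ζ • (Y (ζ • z, Complex.I • hf F z z + cx u)).2 -
      (2 * Complex.I) • zpL F z (Y (ζ • z, Complex.I • hf F z z + cx u)).1) j) := by
    have hc : Differentiable ℂ (fun ζ : ℂ => Y (ζ • z, Complex.I • hf F z z + cx u)) :=
      hY.comp (by fun_prop)
    have h4 := (differentiable_id.smul hc.snd).sub
      (((zpL F z).differentiable.comp hc.fst).const_smul (2 * Complex.I))
    exact differentiable_pi.1 h4 j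
  obtain ⟨r, s, hrs⟩ := h3 _ hB (by
    intro ζ hζ
    have hcc : ζ * (starRingEnd ℂ) ζ = 1 := by
      rw [Complex.mul_conj, Complex.normSq_eq_norm_sq, hζ]; simp
    have h5 : hf F (ζ • z) (ζ • z) = hf F z z := by
      rw [hf_smul_left, hf_smul_right, smul_smul, hcc, one_smul]
    have h6 := hr u (ζ • z) j
    rw [h5, add_comm (cx u)] at h6
    rw [← h6]
    congr 1
    simp only [zpL_apply, Pi.sub_apply, Pi.smul_apply, smul_eq_mul, hf_smul_right]
    linear_combination ((Y (ζ • z, Complex.I • hf F z z + cx u)).2 j) * hcc)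
  have h7 : ∀ ζ : ℂ, (ζ • (Y (ζ • z, Complex.I • hf F z z + cx u)).2 -
      (2 * Complex.I) • zpL F z (Y (ζ • z, Complex.I • hf F z z + cx u)).1) j =
      r + s * ζ + (starRingEnd ℂ) r * ζ ^ 2 := hrs
  unfold D3
  simp only [Pi.sub_apply, Pi.add_apply, Pi.smul_apply, Pi.zero_apply] at h7 ⊢
  simp only [h7]
  simp only [nsmul_eq_mul]
  push_cast
  ring

/-- Step 2: the case of one fixed `w`. -/
private theorem zp_step2 (h2 : S_Pola) {m k : ℕ}
    (F : Fin k → Matrix (Fin m) (Fin m) ℂ) (Om : Set (Fin k → ℝ)) (hS : Sie F Om)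
    (a : Cn m → Cn m) (b : Cn m → Cn k) (ha : Differentiable ℂ a) (hb : Differentiable ℂ b)
    (h : ∀ (z : Cn m) (ζ σ : ℂ),
      D3 (fun ζ : ℂ => ζ • b (ζ • z) - (2 * Complex.I) • zpL F z (a (ζ • z))) σ ζ = 0) :
    (∀ v z : Cn m, D3 a v z = 0) ∧
      ∀ v z : Cn m, b (z + 2 • v) - 2 • b (z + v) + b z = 0 := by
  have ha1 : Differentiable ℂ (fderiv ℂ a) := by
    rw [← differentiableOn_univ]
    exact Pool.Agent.Lib.Osgood.differentiableOn_fderiv isOpen_univ ha.differentiableOn
  have hb1 : Differentiable ℂ (fderiv ℂ b) := by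
    rw [← differentiableOn_univ]
    exact Pool.Agent.Lib.Osgood.differentiableOn_fderiv isOpen_univ hb.differentiableOn
  have hq : ∀ z : Cn m, b z - (2 * Complex.I) • hf F (a z) z =
      -((2 * Complex.I) • hf F (a 0) z) + (b 0 - (2 * Complex.I) • hf F (fderiv ℂ a 0 z) z) +
      (fderiv ℂ b 0 z - Complex.I • hf F (fderiv ℂ (fderiv ℂ a) 0 z z) z) := by
    intro z
    have hl : ∀ t : ℂ, HasDerivAt (fun t : ℂ => t • z) z t := by
      intro t
      simpa using (hasDerivAt_id t).smul_const z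
    have da : ∀ t : ℂ, HasDerivAt (fun t : ℂ => a (t • z)) (fderiv ℂ a (t • z) z) t := fun t =>
      (ha _).hasFDerivAt.comp_hasDerivAt t (hl t)
    have db : ∀ t : ℂ, HasDerivAt (fun t : ℂ => b (t • z)) (fderiv ℂ b (t • z) z) t := fun t =>
      (hb _).hasFDerivAt.comp_hasDerivAt t (hl t)
    have da2 : ∀ t : ℂ, HasDerivAt (fun t : ℂ => fderiv ℂ a (t • z) z)
        (fderiv ℂ (fderiv ℂ a) (t • z) z z) t := by
      intro t
      have e1 : HasDerivAt (fun t : ℂ => fderiv ℂ a (t • z))
          (fderiv ℂ (fderiv ℂ a) (t • z) z) t :=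
        (ha1 _).hasFDerivAt.comp_hasDerivAt t (hl t)
      simpa using e1.clm_apply (hasDerivAt_const t z)
    have db2 : ∀ t : ℂ, HasDerivAt (fun t : ℂ => fderiv ℂ b (t • z) z)
        (fderiv ℂ (fderiv ℂ b) (t • z) z z) t := by
      intro t
      have e1 : HasDerivAt (fun t : ℂ => fderiv ℂ b (t • z))
          (fderiv ℂ (fderiv ℂ b) (t • z) z) t :=
        (hb1 _).hasFDerivAt.comp_hasDerivAt t (hl t)
      simpa using e1.clm_apply (hasDerivAt_const t z)
    have dR : ∀ t : ℂ, HasDerivAt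
        (fun ζ : ℂ => ζ • b (ζ • z) - (2 * Complex.I) • zpL F z (a (ζ • z)))
        ((t • fderiv ℂ b (t • z) z + (1 : ℂ) • b (t • z)) -
          (2 * Complex.I) • zpL F z (fderiv ℂ a (t • z) z)) t := by
      intro t
      exact ((hasDerivAt_id t).smul (db t)).sub
        (((zpL F z).hasFDerivAt.comp_hasDerivAt t (da t)).const_smul (2 * Complex.I))
    have dR1 : deriv (fun ζ : ℂ => ζ • b (ζ • z) - (2 * Complex.I) • zpL F z (a (ζ • z))) =
        fun t => (t • fderiv ℂ b (t • z) z + (1 : ℂ) • b (t • z)) -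
          (2 * Complex.I) • zpL F z (fderiv ℂ a (t • z) z) := funext fun t => (dR t).deriv
    have dR2 : HasDerivAt (fun t : ℂ => (t • fderiv ℂ b (t • z) z + (1 : ℂ) • b (t • z)) -
          (2 * Complex.I) • zpL F z (fderiv ℂ a (t • z) z))
        ((((0 : ℂ) • fderiv ℂ (fderiv ℂ b) ((0 : ℂ) • z) z z +
          (1 : ℂ) • fderiv ℂ b ((0 : ℂ) • z) z) + (1 : ℂ) • fderiv ℂ b ((0 : ℂ) • z) z) -
          (2 * Complex.I) • zpL F z (fderiv ℂ (fderiv ℂ a) ((0 : ℂ) • z) z z)) 0 :=
      (((hasDerivAt_id (0 : ℂ)).smul (db2 0)).add ((db 0).const_smul (1 : ℂ))).sub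
        (((zpL F z).hasFDerivAt.comp_hasDerivAt 0 (da2 0)).const_smul (2 * Complex.I))
    have key := zp_line (fun ζ : ℂ => ζ • b (ζ • z) - (2 * Complex.I) • zpL F z (a (ζ • z)))
      (fun t => (dR t).differentiableAt) (by
        intro t s
        have h4 := h z t s
        unfold D3 at h4
        have a1 : t + 3 • s = t + 3 * s := by simp
        have a2 : t + 2 • s = t + 2 * s := by simp
        rw [a1, a2] at h4
        rw [← h4]
        module) 1
    rw [dR1, dR2.deriv] at key
    simp only [one_smul, zero_smul, zero_add, zpL_apply, zero_sub] at key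
    rw [key]
    module
  have hP := h2 m k F Om hS univ isOpen_univ
    (fun z => a z - a 0 - fderiv ℂ a 0 z - (1 / 2 : ℂ) • fderiv ℂ (fderiv ℂ a) 0 z z)
    (fun z => b z - b 0 - fderiv ℂ b 0 z) (2 * Complex.I) (by simp)
    (by
      have e1 : Differentiable ℂ (fun z => fderiv ℂ (fderiv ℂ a) 0 z z) := by fun_prop
      have e2 : Differentiable ℂ (fun z => fderiv ℂ a 0 z) := (fderiv ℂ a 0).differentiable
      exact (((ha.sub_const _).sub e2).sub (e1.const_smul (1 / 2 : ℂ))).differentiableOn)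
    (by
      have e2 : Differentiable ℂ (fun z => fderiv ℂ b 0 z) := (fderiv ℂ b 0).differentiable
      exact ((hb.sub_const _).sub e2).differentiableOn)
    (by
      intro z _
      have e3 := hq z
      have e4 : hf F (a z - a 0 - fderiv ℂ a 0 z -
          (1 / 2 : ℂ) • fderiv ℂ (fderiv ℂ a) 0 z z) z = hf F (a z) z - hf F (a 0) z -
          hf F (fderiv ℂ a 0 z) z - (1 / 2 : ℂ) • hf F (fderiv ℂ (fderiv ℂ a) 0 z z) z := by
        simp only [← zpL_apply, map_sub, map_smul]
      have e5 : b z = (2 * Complex.I) • hf F (a z) z + (-((2 * Complex.I) • hf F (a 0) z) +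
        (b 0 - (2 * Complex.I) • hf F (fderiv ℂ a 0 z) z) +
        (fderiv ℂ b 0 z - Complex.I • hf F (fderiv ℂ (fderiv ℂ a) 0 z z) z)) := by
        rw [← e3]; abel
      change b z - b 0 - fderiv ℂ b 0 z = _
      rw [e4, e5]
      module)
  have ea : ∀ z, a z = a 0 + fderiv ℂ a 0 z + (1 / 2 : ℂ) • fderiv ℂ (fderiv ℂ a) 0 z z := by
    intro z
    have e1 : a z - a 0 - fderiv ℂ a 0 z - (1 / 2 : ℂ) • fderiv ℂ (fderiv ℂ a) 0 z z = 0 :=
      (hP z (mem_univ z)).1
    have e2 := sub_eq_zero.1 e1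
    have e3 := sub_eq_iff_eq_add.1 (sub_eq_iff_eq_add.1 e2)
    rw [e3]
    abel
  have eb : ∀ z, b z = b 0 + fderiv ℂ b 0 z := by
    intro z
    have e1 : b z - b 0 - fderiv ℂ b 0 z = 0 := (hP z (mem_univ z)).2
    have e3 := sub_eq_iff_eq_add.1 (sub_eq_zero.1 e1)
    rw [e3]
    abel
  constructor
  · intro v z
    unfold D3
    rw [ea (z + 3 • v), ea (z + 2 • v), ea (z + v), ea z]
    simp only [map_add, map_nsmul, ContinuousLinearMap.add_apply, ContinuousLinearMap.smul_apply]
    module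
  · intro v z
    rw [eb (z + 2 • v), eb (z + v), eb z]
    simp only [map_add, map_nsmul]
    module

theorem tZP (h1 : S_TRi) (h2 : S_Pola) (h3 : S_CirL) : S_ZP := by
  intro m k F Om hS Y hY hr
  have key : ∀ w : Cn k, (∀ v z : Cn m, D3 (fun z => (Y (z, w)).1) v z = 0) ∧
      ∀ v z : Cn m, (Y (z + 2 • v, w)).2 - 2 • (Y (z + v, w)).2 + (Y (z, w)).2 = 0 := by
    intro w
    have hc : Differentiable ℂ (fun z : Cn m => Y (z, w)) := hY.comp (by fun_prop)
    exact zp_step2 h2 F Om hS (fun z => (Y (z, w)).1) (fun z => (Y (z, w)).2) hc.fst hc.snd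
      (fun z ζ σ => zp_step1 h1 h3 F Y hY hr z ζ σ w)
  exact ⟨fun w => (key w).1, fun w => (key w).2⟩

end KVB
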